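import Pool.Agent.Work.MP_46fa68_h5.RowFour

/-!
# MP_46fa68_co: the boundary defect, row 2 at `i = 5`, `d = -1` (so no boxes below row 2)
-/

set_option autoImplicit false

open Finset

namespace Pool.JM.H5.BD51

variable {m M : ℕ} {B : Finset ℕ}

/-- the ratio is exact, because there are no rows below -/
theorem Q_eq (h : R2 m M 5 0 (-1) B) (hm : 21 ≤ m) (p : ℕ) :
    Rr (B.erase (tb B)) (M + m - 5) p = ((m - 4).factorial : ℝ) / ((m - 4 + p).factorial : ℝ) := by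
  have hmR : (21 : ℝ) ≤ m := by exact_mod_cast hm
  refine le_antisymm ?_ ?_
  · refine (h.Q_le (Nat.zero_le _) p).trans (le_of_eq ?_)
    rw [show m + 2 - 5 = (m - 4) + 1 by omega, show m - 4 + 1 + p = (m - 4 + p) + 1 by omega,
      Nat.factorial_succ, Nat.factorial_succ]
    push_cast
    rw [Nat.cast_sub (by omega)]
    have f0 : ((m - 4).factorial : ℝ) ≠ 0 := by exact_mod_cast Nat.factorial_ne_zero _
    have f1 : ((m - 4 + p).factorial : ℝ) ≠ 0 := by exact_mod_cast Nat.factorial_ne_zero _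
    have hp : (0 : ℝ) ≤ p := Nat.cast_nonneg p
    have g1 : (m : ℝ) - 4 + p + 1 ≠ 0 := by
      have : (0 : ℝ) < (m : ℝ) - 4 + p + 1 := by linarith
      exact this.ne'
    have g2 : (m : ℝ) - 4 + 1 ≠ 0 := by
      have : (0 : ℝ) < (m : ℝ) - 4 + 1 := by linarith
      exact this.ne'
    push_cast
    rw [show (m : ℝ) + 6 - 2 * 5 - -1 + p = m - 4 + p + 1 by ring,
      show (m : ℝ) + 6 - 2 * 5 - -1 = m - 4 + 1 by ring]
    field_simp
  · refine (le_of_eq ?_).trans (h.Q_ge p)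
    rw [show m + 1 - 5 = m - 4 by omega]

noncomputable def brk (g1 g2 k : ℝ) : ℝ :=
  (k + 4) * (k + 3) / 2 + g1 * ((k + 3) * (k + 2) / 2) + g2 * ((k + 2) * (k + 1) / 2)

noncomputable def FA (x : ℝ) (k : ℕ) : ℝ :=
  1 / (24 * ((k + 2).factorial : ℝ)) * (3 / (5 + (k : ℝ))) *
    (((x - 3) * ((k : ℝ) + 1) - (5 + k)) / (x - 3))

noncomputable def FB (m k : ℕ) : ℝ :=
  (m.factorial : ℝ) / (24 * ((m : ℝ) - 3) * ((m + 1 + k).factorial : ℝ)) * brk (g1m m) (g2m m) k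

theorem cast_ch2 (n : ℕ) : ((n + 2).choose 2 : ℝ) = ((n : ℝ) + 2) * ((n : ℝ) + 1) / 2 := by
  rw [Nat.cast_choose_two]
  push_cast
  ring

theorem F_eq (h : R2 m M 5 0 (-1) B) (hm : 21 ≤ m) (k : ℕ) :
    kapB m 5 k * Rr (B.erase (tb B)) (M + m - 5) (5 + k) = FA m k + FB m k := by
  have hmR : (21 : ℝ) ≤ m := by exact_mod_cast hm
  rw [Q_eq h hm]
  unfold kapB FA FB brk
  rw [Abin_eq (by omega) (by norm_num), show m + 5 + k - 4 = m + 1 + k by omega,
    show m - 4 + (5 + k) = m + 1 + k by omega, show m + 5 - 5 = m by omega,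
    show 5 - 1 + k = k + 2 + 2 by omega, show 5 - 2 + k = k + 1 + 2 by omega,
    show 5 - 3 + k = k + 2 by omega]
  have c1 : ((k + 2 + 2).choose (k + 2) : ℝ) = ((k : ℝ) + 4) * (k + 3) / 2 := by
    rw [Nat.choose_symm_add, cast_ch2]
    push_cast
    ring
  have c2 : ((k + 1 + 2).choose (k + 1) : ℝ) = ((k : ℝ) + 3) * (k + 2) / 2 := by
    rw [Nat.choose_symm_add, cast_ch2]
    push_cast
    ring
  have c3 : ((k + 2).choose k : ℝ) = ((k : ℝ) + 2) * (k + 1) / 2 := by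
    rw [Nat.choose_symm_add, cast_ch2]
  rw [c1, c2, c3]
  have f0 : ((m - 4).factorial : ℝ) ≠ 0 := by exact_mod_cast Nat.factorial_ne_zero _
  have f1 : ((m + 1 + k).factorial : ℝ) ≠ 0 := by exact_mod_cast Nat.factorial_ne_zero _
  have f2 : ((k + 2).factorial : ℝ) ≠ 0 := by exact_mod_cast Nat.factorial_ne_zero _
  have f3 : ((m - 3).factorial : ℝ) = ((m : ℝ) - 3) * ((m - 4).factorial : ℝ) := by
    have := fac_sub (m := m) (j := 3) (by omega)
    simpa using this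
  have e3 : (((5 - 1).factorial : ℕ) : ℝ) = 24 := by norm_num [Nat.factorial]
  have g3 : (m : ℝ) - 3 ≠ 0 := by
    have : (0 : ℝ) < (m : ℝ) - 3 := by linarith
    exact this.ne'
  have g5 : (5 : ℝ) + k ≠ 0 := by positivity
  rw [f3, e3]
  push_cast
  rw [show (5 : ℝ) - 2 = 3 by norm_num]
  field_simp

theorem FA_nonneg {x : ℝ} (hx : 21 ≤ x) (k : ℕ) : 0 ≤ FA x k := by
  have hk : (0 : ℝ) ≤ k := Nat.cast_nonneg k
  unfold FA
  have h1 : 0 ≤ ((x - 3) * ((k : ℝ) + 1) - (5 + k)) / (x - 3) :=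
    div_nonneg (by nlinarith) (by linarith)
  positivity

theorem brk_nonneg (hm : 21 ≤ m) (k : ℕ) : 0 ≤ brk (g1m m) (g2m m) k := by
  have h := bracket_nonneg (m := m) (i := 5) (by omega) (by norm_num) (by omega) k
  rw [show 5 - 1 + k = k + 2 + 2 by omega, show 5 - 2 + k = k + 1 + 2 by omega,
    show 5 - 3 + k = k + 2 by omega] at h
  have c1 : ((k + 2 + 2).choose (k + 2) : ℝ) = ((k : ℝ) + 4) * (k + 3) / 2 := by
    rw [Nat.choose_symm_add, cast_ch2]
    push_cast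
    ring
  have c2 : ((k + 1 + 2).choose (k + 1) : ℝ) = ((k : ℝ) + 3) * (k + 2) / 2 := by
    rw [Nat.choose_symm_add, cast_ch2]
    push_cast
    ring
  have c3 : ((k + 2).choose k : ℝ) = ((k : ℝ) + 2) * (k + 1) / 2 := by
    rw [Nat.choose_symm_add, cast_ch2]
  rw [c1, c2, c3] at h
  exact h

theorem FB_nonneg (hm : 21 ≤ m) (k : ℕ) : 0 ≤ FB m k := by
  have hmR : (21 : ℝ) ≤ m := by exact_mod_cast hm
  unfold FB
  have h1 : (0 : ℝ) < (m : ℝ) - 3 := by linarith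
  have h2 := brk_nonneg hm k
  positivity

theorem two_pow_ge (j : ℕ) : 1 + (j : ℝ) ≤ 2 ^ j := by
  have := one_add_mul_le_pow (by norm_num : (-2 : ℝ) ≤ 1) j
  norm_num at this
  linarith

theorem tailA {x : ℝ} (hx : 21 ≤ x) (j : ℕ) :
    FA x (j + 2) * (((j : ℝ) + 1) / 6) ≤ 1 / 1152 * (2 / 5) ^ j := by
  have hj : (0 : ℝ) ≤ j := Nat.cast_nonneg j
  have hfac : (24 : ℝ) * 5 ^ j ≤ ((j + 2 + 2).factorial : ℝ) := by
    have := Nat.factorial_mul_pow_le_factorial (m := 4) (n := j)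
    have h9 : (((4).factorial * (4 + 1) ^ j : ℕ) : ℝ) ≤ ((4 + j).factorial : ℝ) := by
      exact_mod_cast this
    rw [show j + 2 + 2 = 4 + j by omega]
    push_cast at h9
    norm_num [Nat.factorial] at h9
    exact h9
  have h2j := two_pow_ge j
  unfold FA
  push_cast
  have hx3 : (0 : ℝ) < x - 3 := by linarith
  have a1 : ((x - 3) * ((j : ℝ) + 2 + 1) - (5 + ((j : ℝ) + 2))) / (x - 3) ≤ (j : ℝ) + 3 := by
    rw [div_le_iff₀ hx3]
    nlinarith
  have a2 : 3 / (5 + ((j : ℝ) + 2)) * ((j : ℝ) + 3) ≤ 3 := by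
    rw [div_mul_eq_mul_div, div_le_iff₀ (by positivity)]
    nlinarith
  have a3 : 1 / (24 * ((j + 2 + 2).factorial : ℝ)) ≤ 1 / (24 * (24 * 5 ^ j)) :=
    one_div_le_one_div_of_le (by positivity) (by linarith)
  have f0 : (0 : ℝ) < ((j + 2 + 2).factorial : ℝ) := by exact_mod_cast Nat.factorial_pos _
  calc 1 / (24 * ((j + 2 + 2).factorial : ℝ)) * (3 / (5 + ((j : ℝ) + 2))) *
        (((x - 3) * ((j : ℝ) + 2 + 1) - (5 + ((j : ℝ) + 2))) / (x - 3)) * (((j : ℝ) + 1) / 6)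
      ≤ 1 / (24 * ((j + 2 + 2).factorial : ℝ)) * (3 / (5 + ((j : ℝ) + 2))) *
        ((j : ℝ) + 3) * (((j : ℝ) + 1) / 6) := by gcongr
    _ = 1 / (24 * ((j + 2 + 2).factorial : ℝ)) * (3 / (5 + ((j : ℝ) + 2)) *
        ((j : ℝ) + 3)) * (((j : ℝ) + 1) / 6) := by ring
    _ ≤ 1 / (24 * (24 * 5 ^ j)) * 3 * (((j : ℝ) + 1) / 6) := by gcongr
    _ = 1 / 1152 * ((1 + (j : ℝ)) / 5 ^ j) := by
        field_simp
        ring
    _ ≤ 1 / 1152 * (2 ^ j / 5 ^ j) := by gcongr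
    _ = _ := by rw [div_pow]

theorem tailB (hm : 21 ≤ m) (j : ℕ) :
    FB m (j + 2) * (((j : ℝ) + 1) / 6) ≤ 1 / 5000 * (2 / 5) ^ j := by
  have hmR : (21 : ℝ) ≤ m := by exact_mod_cast hm
  have hj : (0 : ℝ) ≤ j := Nat.cast_nonneg j
  have h2j := two_pow_ge j
  have hx3 : (0 : ℝ) < (m : ℝ) - 3 := by linarith
  have fm : (0 : ℝ) < (m.factorial : ℝ) := by exact_mod_cast Nat.factorial_pos _
  -- the factorials
  have h1 : (m.factorial : ℝ) * (((m : ℝ) + 1) * (m + 2) * (m + 3)) * 25 ^ j ≤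
      ((m + 1 + (j + 2)).factorial : ℝ) := by
    have h9 : (((m + 3).factorial * (m + 3 + 1) ^ j : ℕ) : ℝ) ≤ ((m + 3 + j).factorial : ℝ) := by
      exact_mod_cast Nat.factorial_mul_pow_le_factorial (m := m + 3) (n := j)
    rw [show m + 1 + (j + 2) = m + 3 + j by omega]
    refine le_trans ?_ h9
    push_cast
    have h8 : ((m + 3).factorial : ℝ) = (m.factorial : ℝ) * (((m : ℝ) + 1) * (m + 2) * (m + 3)) := by
      rw [Nat.factorial_succ, Nat.factorial_succ, Nat.factorial_succ]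
      push_cast
      ring
    rw [h8]
    gcongr
    linarith
  -- the bracket
  have hg1 := (g1m_abs (m := m) (by omega)).2
  have hg2 : g2m m ≤ 2 * (m : ℝ) ^ 2 := by
    unfold g2m
    have hc := cm_ge (m := m) (by omega)
    have hm0 : (0 : ℝ) < m := by linarith
    have h3 : 1 - cm m ≤ 1 - 1 / (m : ℝ) := by linarith
    have h4 : (1 - 1 / (m : ℝ)) * (2 * m * (m + 1)) = 2 * (m - 1) * (m + 1) := by
      field_simp
    calc (1 - cm m) * (2 * m * (m + 1)) ≤ (1 - 1 / (m : ℝ)) * (2 * m * (m + 1)) := by gcongr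
      _ = 2 * (m - 1) * (m + 1) := h4
      _ ≤ _ := by nlinarith
  have hbr : brk (g1m m) (g2m m) ((j + 2 : ℕ) : ℝ) ≤ ((m : ℝ) ^ 2 + 2) * (((j : ℝ) + 4) * (j + 3)) := by
    unfold brk
    push_cast
    have b1 : g1m m * (((j : ℝ) + 2 + 3) * ((j : ℝ) + 2 + 2) / 2) ≤ 0 :=
      mul_nonpos_of_nonpos_of_nonneg hg1 (by positivity)
    have b2 : g2m m * (((j : ℝ) + 2 + 2) * ((j : ℝ) + 2 + 1) / 2) ≤
        2 * (m : ℝ) ^ 2 * (((j : ℝ) + 2 + 2) * ((j : ℝ) + 2 + 1) / 2) :=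
      mul_le_mul_of_nonneg_right hg2 (by positivity)
    nlinarith
  have hpoly : ((j : ℝ) + 4) * (j + 3) * (j + 1) ≤ 12 * 8 ^ j := by
    have p1 : (j : ℝ) + 4 ≤ 4 * 2 ^ j := by linarith
    have p2 : (j : ℝ) + 3 ≤ 3 * 2 ^ j := by linarith
    have p3 : (j : ℝ) + 1 ≤ 2 ^ j := by linarith
    calc ((j : ℝ) + 4) * (j + 3) * (j + 1) ≤ (4 * 2 ^ j) * (3 * 2 ^ j) * 2 ^ j := by gcongr
      _ = 12 * (2 ^ j * 2 ^ j * 2 ^ j) := by ring
      _ = 12 * 8 ^ j := by
          rw [← mul_pow, ← mul_pow]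
          norm_num
  have hk : (12 : ℝ) * (((m : ℝ) ^ 2 + 2)) / (144 * (((m : ℝ) - 3) * (((m : ℝ) + 1) * (m + 2) * (m + 3)))) ≤
      1 / 5000 := by
    rw [div_le_div_iff₀ (by positivity) (by norm_num)]
    obtain ⟨s, hs⟩ : ∃ s, (m : ℝ) = s + 21 := ⟨m - 21, by ring⟩
    have hs0 : 0 ≤ s := by linarith
    rw [hs]
    nlinarith [mul_nonneg hs0 hs0, mul_nonneg (mul_nonneg hs0 hs0) hs0,
      mul_nonneg (mul_nonneg hs0 hs0) (mul_nonneg hs0 hs0)]
  unfold FB
  have hD : (0 : ℝ) < ((m : ℝ) - 3) * (((m : ℝ) + 1) * (m + 2) * (m + 3)) := by positivity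
  calc (m.factorial : ℝ) / (24 * ((m : ℝ) - 3) * ((m + 1 + (j + 2)).factorial : ℝ)) *
        brk (g1m m) (g2m m) ((j + 2 : ℕ) : ℝ) * (((j : ℝ) + 1) / 6)
      ≤ (m.factorial : ℝ) / (24 * ((m : ℝ) - 3) *
          ((m.factorial : ℝ) * (((m : ℝ) + 1) * (m + 2) * (m + 3)) * 25 ^ j)) *
        (((m : ℝ) ^ 2 + 2) * (((j : ℝ) + 4) * (j + 3))) * (((j : ℝ) + 1) / 6) := by
        gcongr
        exact brk_nonneg hm (j + 2)
    _ = ((m : ℝ) ^ 2 + 2) / (144 * (((m : ℝ) - 3) * (((m : ℝ) + 1) * (m + 2) * (m + 3)))) *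
        ((((j : ℝ) + 4) * (j + 3) * (j + 1)) / 25 ^ j) := by
        field_simp
        ring
    _ ≤ ((m : ℝ) ^ 2 + 2) / (144 * (((m : ℝ) - 3) * (((m : ℝ) + 1) * (m + 2) * (m + 3)))) *
        ((12 * 8 ^ j) / 25 ^ j) := by gcongr
    _ = ((12 : ℝ) * (((m : ℝ) ^ 2 + 2)) / (144 * (((m : ℝ) - 3) * (((m : ℝ) + 1) * (m + 2) * (m + 3))))) *
        (8 / 25) ^ j := by
        rw [div_pow]
        ring
    _ ≤ 1 / 5000 * (2 / 5) ^ j :=
        mul_le_mul hk (pow_le_pow_left₀ (by norm_num) (by norm_num) j) (by positivity) (by norm_num)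

/-- **row 2 at `i = 5`, `d = -1`** -/
theorem bd51 (h : R2 m M 5 0 (-1) B) (hm : 21 ≤ m) {A : ℕ} (hA : 5 ≤ A) :
    |Cr m A (M + m) B (M + m - 5)| ≤ 11 / 250 := by
  have hmR : (21 : ℝ) ≤ m := by exact_mod_cast hm
  have hm16 : 16 ≤ m := by omega
  have hc1 := cm_ge hm16
  have hc2 := cm_le' hm16
  set x : ℝ := (m : ℝ) with hx
  have hx0 : 0 < x := by linarith
  have hcpos : 0 < cm m := lt_of_lt_of_le (by positivity) hc1
  have e0 := h.neg_Cr (by omega) hA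
  -- the first term
  have t1 : kapA m 5 * Rr (B.erase (tb B)) (M + m - 5) (5 - 1) = -g1m m / (24 * (x - 3)) := by
    rw [Q_eq h hm]
    unfold kapA
    rw [show m + 5 - 5 = m by omega, show m - 4 + (5 - 1) = m by omega]
    have f3 : ((m - 3).factorial : ℝ) = ((m : ℝ) - 3) * ((m - 4).factorial : ℝ) := by
      have := fac_sub (m := m) (j := 3) (by omega)
      simpa using this
    have e3 : (((5 - 1).factorial : ℕ) : ℝ) = 24 := by norm_num [Nat.factorial]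
    have f0 : ((m - 4).factorial : ℝ) ≠ 0 := by exact_mod_cast Nat.factorial_ne_zero _
    have f1 : (m.factorial : ℝ) ≠ 0 := by exact_mod_cast Nat.factorial_ne_zero _
    rw [← hx] at f3
    rw [f3, e3]
    have g3 : x - 3 ≠ 0 := by
      have : (0 : ℝ) < x - 3 := by linarith
      exact this.ne'
    field_simp
  set f : ℕ → ℝ := fun k => kapB m 5 k * (((-1 : ℝ) + k) / (((5 : ℕ) : ℝ) - (-1))) *
    Rr (B.erase (tb B)) (M + m - 5) (5 + k) with hf
  have hfk : ∀ k : ℕ, f k = (FA x k + FB m k) * (((k : ℝ) - 1) / 6) := by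
    intro k
    have := F_eq h hm k
    rw [hf]
    push_cast
    rw [show (5 : ℝ) - (-1) = 6 by norm_num, show (-1 : ℝ) + k = k - 1 by ring]
    calc kapB m 5 k * (((k : ℝ) - 1) / 6) * Rr (B.erase (tb B)) (M + m - 5) (5 + k)
        = (kapB m 5 k * Rr (B.erase (tb B)) (M + m - 5) (5 + k)) * (((k : ℝ) - 1) / 6) := by ring
      _ = _ := by rw [this]
  -- the sum
  obtain ⟨N, hN⟩ : ∃ N, A + 1 - 5 = N + 1 := ⟨A - 5, by omega⟩
  set g : ℕ → ℝ := fun k => if k = 0 then 0 else f k with hg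
  have hsum : ∑ k ∈ range (A + 1 - 5), f k = f 0 + ∑ k ∈ range (A + 1 - 5), g k := by
    rw [hN, sum_range_succ', sum_range_succ']
    simp only [hg, if_true]
    have : ∀ k : ℕ, (if k + 1 = 0 then (0 : ℝ) else f (k + 1)) = f (k + 1) := fun k =>
      if_neg (Nat.succ_ne_zero k)
    simp only [this]
    ring
  have hg0 : ∀ k, 0 ≤ g k := by
    intro k
    simp only [hg]
    split_ifs with hk
    · exact le_rfl
    · rw [hfk]
      have h1 := FA_nonneg (x := x) hmR k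
      have h2 := FB_nonneg hm k
      have h3 : (1 : ℝ) ≤ k := by exact_mod_cast Nat.one_le_iff_ne_zero.2 hk
      have h4 : 0 ≤ ((k : ℝ) - 1) / 6 := by linarith
      positivity
  have hg1 : g 1 = 0 := by
    simp only [hg]
    rw [if_neg one_ne_zero, hfk]
    norm_num
  have hgz : g 0 = 0 := by simp only [hg, if_true]
  have htail : ∀ j, g (j + 2) ≤ (1 / 1152 + 1 / 5000) * (2 / 5) ^ j := by
    intro j
    simp only [hg]
    rw [if_neg (by omega), hfk]
    have h1 := tailA (x := x) hmR j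
    have h2 := tailB hm j
    push_cast
    rw [show ((j : ℝ) + 2 - 1) / 6 = ((j : ℝ) + 1) / 6 by ring, add_mul, add_mul]
    exact add_le_add h1 h2
  have hS1 := sum_two_head hg0 htail (by norm_num) (A + 1 - 5)
  rw [hgz, hg1] at hS1
  have hS0 : 0 ≤ ∑ k ∈ range (A + 1 - 5), g k := sum_nonneg fun k _ => hg0 k
  -- the value
  have hval : -Cr m A (M + m) B (M + m - 5) =
      -g1m m / (72 * (x - 3)) + (f 0 + ∑ k ∈ range (A + 1 - 5), g k) := by
    rw [e0, ← hsum]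
    have : kapA m 5 * ((-1 - 1) / (((5 : ℕ) : ℝ) - -1)) *
        Rr (B.erase (tb B)) (M + m - 5) (5 - 1) = -(-g1m m / (72 * (x - 3))) := by
      have h9 : kapA m 5 * ((-1 - 1) / (((5 : ℕ) : ℝ) - -1)) *
        Rr (B.erase (tb B)) (M + m - 5) (5 - 1) =
        (kapA m 5 * Rr (B.erase (tb B)) (M + m - 5) (5 - 1)) * (-1 / 3) := by
        push_cast
        ring
      rw [h9, t1]
      have g3 : x - 3 ≠ 0 := by
        have : (0 : ℝ) < x - 3 := by linarith
        exact this.ne'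
      field_simp
      ring
    rw [this, show ((-1 : ℝ)) ^ 5 = -1 by norm_num]
    ring
  have hx3 : (0 : ℝ) < x - 3 := by linarith
  have hx1 : (0 : ℝ) < x + 1 := by linarith
  have hf0 : f 0 = -((x - 8) / (480 * (x - 3)) +
      (6 + (1 - cm m) * (2 * x ^ 2 - 7 * x - 3)) / (144 * (x - 3) * (x + 1))) := by
    rw [hfk]
    unfold FA FB brk g1m g2m
    have f1 : (m.factorial : ℝ) ≠ 0 := by exact_mod_cast Nat.factorial_ne_zero _
    have h7 : ((m + 1 + 0).factorial : ℝ) = (x + 1) * (m.factorial : ℝ) := by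
      rw [add_zero, Nat.factorial_succ]
      push_cast
      rw [← hx]
    rw [h7, ← hx]
    norm_num [Nat.factorial]
    field_simp
    ring
  have hu0 : 0 ≤ 1 - cm m := by linarith
  have hu1 : 1 - cm m ≤ 1 := by linarith
  have hg1v : -g1m m = (1 - cm m) * (3 * x + 1) := by
    unfold g1m
    rw [← hx]
    ring
  rw [← abs_neg, hval, hf0, hg1v, abs_le]
  set u := 1 - cm m with hu
  have hp1 : 0 ≤ u * (3 * x + 1) / (72 * (x - 3)) := by positivity
  have hq : 0 < 144 * (x - 3) * (x + 1) := by positivity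
  have hpol : 0 ≤ 2 * x ^ 2 - 7 * x - 3 := by nlinarith
  constructor
  · have h1 : (x - 8) / (480 * (x - 3)) ≤ 1 / 480 := by
      rw [div_le_div_iff₀ (by positivity) (by norm_num)]
      linarith
    have h2 : (6 + u * (2 * x ^ 2 - 7 * x - 3)) / (144 * (x - 3) * (x + 1)) ≤ 1 / 70 := by
      rw [div_le_div_iff₀ hq (by norm_num)]
      nlinarith [mul_le_mul_of_nonneg_right hu1 hpol]
    linarith
  · have h1 : 0 ≤ (x - 8) / (480 * (x - 3)) := div_nonneg (by linarith) (by positivity)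
    have h2 : u * (3 * x + 1) / (72 * (x - 3)) -
        (6 + u * (2 * x ^ 2 - 7 * x - 3)) / (144 * (x - 3) * (x + 1)) ≤ 42 / 1000 := by
      have e : u * (3 * x + 1) / (72 * (x - 3)) -
          (6 + u * (2 * x ^ 2 - 7 * x - 3)) / (144 * (x - 3) * (x + 1)) =
          (u * (4 * x ^ 2 + 15 * x + 5) - 6) / (144 * (x - 3) * (x + 1)) := by
        field_simp
        ring
      rw [e, div_le_iff₀ hq]
      have h5 : u * (4 * x ^ 2 + 15 * x + 5) ≤ 4 * x ^ 2 + 15 * x + 5 :=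
        mul_le_of_le_one_left (by positivity) hu1
      nlinarith
    norm_num at hS1
    linarith

end Pool.JM.H5.BD51
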