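import Pool.Agent.Work.MP_46fa68_h5.Bridge
import Pool.Agent.Work.MP_46fa68_56.BD51

/-!
# MP_46fa68_co: `Stmt_CB`: the class `(5, -1)` beyond the wall
-/

set_option autoImplicit false

open Finset

namespace Pool.JM

open H5 in
theorem CB {m : ℕ} (hm : 21 ≤ m) : Stmt_CB m := by
  intro A M hA hM B hB hT hx
  obtain ⟨i, b, h⟩ := exists_R2 (by omega : 3 ≤ m) hM hB
  have hy : sb B = M + m - i := y_eq h
  have him := h.him
  have hi : i = 5 := by omega
  subst hi
  have hd : (M : ℝ) + m - tb B = -1 := by
    have : (tb B : ℝ) = M + m + 1 := by exact_mod_cast hT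
    linarith
  rw [hd] at h
  have hb : b = 0 := by
    have h1 := h.hbd
    have h2 : (b : ℝ) = 0 := by
      rw [h1]
      push_cast
      norm_num
    exact_mod_cast h2
  subst hb
  have := BD51.bd51 h hm (A := A) (by omega)
  rw [hy]
  linarith

end Pool.JM
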