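import Pool.Agent.Work.MP_46fa68_31.Star
import Pool.Agent.Work.MP_46fa68_T.Near2

/-!
# MP_46fa68_co: LEMMA R (interface)

`t = m - 3`, `N = m + t = 2 m - 3`, `K = M + 1` beads, `M > N` arbitrary.  The majorant of the boundary
values is `W_i(C) = ww (t - C_1) * ex C / (m * (N - i)!)`, `C_1` the first row of `C ∈ Lv M i`.

Row language for a bead `x` of a shape `B`: `rk B x` = number of the row, `gp B x` = length of the row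
(number of gaps below `x`), `bx B x` = number of boxes strictly below the row, `hk B x` = product of the
hooks of the row.  For `B ∈ Lv (M+1) N` the bead `x` of the row `r` of length `y` has `x = y + M + 1 - r`,
and `B.erase x ∈ Lv M (t + p)` with `p = m + M - x = m - y + r - 1`.

All blocks are Props `Stmt_...`; the numbers in square brackets are the true suprema over `m ≥ 16`
(computed for `16 ≤ m < 140` and `m = 200, 300, 1000`).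
-/

set_option autoImplicit false

open Finset

namespace Pool.JM.LR

/-! ### the weights -/

/-- the profile of the weights -/
noncomputable def ww (j : ℕ) : ℝ := if j = 0 then 14 / 25 else 3 / 25 * ((j : ℝ) + 2) * (3 / 4) ^ j

/-- the weight on the levels `i ≥ 1` -/
noncomputable def WB (m M i : ℕ) (C : Finset ℕ) : ℝ :=
  ww (m - 3 - (tb C + 1 - M)) * ex C / ((m : ℝ) * ((m + (m - 3) - i).factorial : ℝ))

/-- the weight on all levels (`W 0` is the constant which `LIFTX` wants) -/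
noncomputable def WR (m M : ℕ) (i : ℕ) (C : Finset ℕ) : ℝ :=
  if i = 0 then W0 M (m - 3) (WB m M) else WB m M i C

/-- the sum over `q = t - i` -/
noncomputable def Tq (m p j : ℕ) : ℝ :=
  ∑ q ∈ range (m - 3), ww (max q j) / ((q.factorial : ℝ) * ((p : ℝ) + q))

/-- the bound of `YR` on the level `t + p` (first row `≤ t - j`) -/
noncomputable def Yb (m p j : ℕ) : ℝ :=
  ((m - 3 + p).factorial : ℝ) /
    (((m - 3).factorial : ℝ) * (m.factorial : ℝ) * ((p - 1).factorial : ℝ) * m) *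
    (Tq m p j + 51 / 50 / ((m - 3 + p : ℕ) : ℝ))

/-! ### the rows -/

/-- the number of the row -/
def rk (B : Finset ℕ) (x : ℕ) : ℕ := (B.filter (x ≤ ·)).card

/-- the length of the row: gaps below `x` -/
def gp (B : Finset ℕ) (x : ℕ) : ℕ := ((range x).filter (· ∉ B)).card

/-- the number of boxes strictly below the row -/
def bx (B : Finset ℕ) (x : ℕ) : ℕ := ∑ z ∈ B.filter (· < x), gp B z

/-- the product of the hooks of the row, `∏ (x - g)` over the gaps `g < x` -/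
noncomputable def hk (B : Finset ℕ) (x : ℕ) : ℝ :=
  (x.factorial : ℝ) / ∏ z ∈ B.filter (· < x), ((x : ℝ) - z)

/-- the product over the rows above -/
noncomputable def up (B : Finset ℕ) (x : ℕ) : ℝ := ∏ z ∈ B.filter (x < ·), ((z : ℝ) - x)

/-! ### blocks on the weights -/

/-- WWA.  `∑ ww q / q! = 1.0186..`. -/
def Stmt_WWA : Prop := (∀ j, 0 < ww j) ∧ (∀ i j, i ≤ j → ww j ≤ ww i) ∧
  (∀ n, ∑ q ∈ range n, ww q / (q.factorial : ℝ) ≤ 51 / 50)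

/-- YBND, from `STAR` (helper31) with `b i c = ww (t - c) / (m (N-i)!)`: with `q = t - i`,
`C(t+p,t-q) C(p+q-1,q) / (m+q)! = (t+p)! / ((t-q)! (m+q)! q! (p-1)! (p+q)) ≤ (t+p)! / (t! m! q! (p-1)! (p+q))`
and the `W 0` term is `C(t+p-1,t) ∑_q C(t,q) ww q / (m (m+q)!) ≤ (t+p)!/(t! m! (p-1)! (t+p) m) ∑ ww q / q!`. -/
def Stmt_YBND : Prop := ∀ m M p j : ℕ, 16 ≤ m → m + (m - 3) < M → 1 ≤ p → j ≤ m - 3 →
  ∀ C ∈ Lv M (m - 3 + p), (j = 0 ∨ ∀ x ∈ C, x < M + (m - 3 - j)) →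
  YR (m - 3) (WR m M) (m - 3 + p) C ≤ Yb m p j * ex C

/-- TTN, numbers: `Tq ∞ p 0 = .752760, .414040, .289791, .223924` for `p = 1,2,3,4`; `Tq m p j ≤ 51/50/p`;
`Tq m 2 j ≤ ww j` because `∑ 1/(q! (q+2)) ≤ 1` (telescoping). -/
def Stmt_TTN : Prop := ∀ m : ℕ, Tq m 1 0 ≤ 7528 / 10000 ∧ Tq m 2 0 ≤ 41405 / 100000 ∧
  Tq m 3 0 ≤ 2898 / 10000 ∧ Tq m 4 0 ≤ 224 / 1000 ∧
  (∀ p j : ℕ, 1 ≤ p → Tq m p j ≤ 51 / 50 / p) ∧ (∀ j : ℕ, 1 ≤ j → Tq m 2 j ≤ ww j)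

/-! ### blocks on the rows (pure combinatorics, any number of beads) -/

/-- BASIC.  In order: position of the bead, the boxes in the rows `≤ r` and below, ranges, erasing a bead,
positivity, rows above are not shorter, `up ≥ (r-1)!`, and with the top bead `X` singled out. -/
def Stmt_BASIC : Prop := ∀ (K n : ℕ), ∀ B ∈ Lv K n, ∀ x ∈ B,
  gp B x + K = x + rk B x ∧ rk B x * gp B x + bx B x ≤ n ∧ 1 ≤ rk B x ∧ rk B x ≤ K ∧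
  ex (B.erase x) = hk B x / up B x * ex B ∧ 0 < up B x ∧ 0 < hk B x ∧
  (∀ z ∈ B, z ≤ x → gp B z ≤ gp B x) ∧ ((rk B x - 1).factorial : ℝ) ≤ up B x ∧
  (∀ X ∈ B, (∀ z ∈ B, z ≤ X) → x < X →
    ((X : ℝ) - x) * ((rk B x - 2).factorial : ℝ) ≤ up B x ∧
    gp B X + (rk B x - 1) * gp B x + bx B x ≤ n) ∧
  (∀ X ∈ B, (∀ z ∈ B, z ≤ X) → gp B X + bx B X = n) ∧
  (∀ X ∈ B, (∀ z ∈ B, z ≤ X) → ∀ y ∈ B, y < X → (∀ z ∈ B, z < X → z ≤ y) →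
    gp B X + gp B y + bx B y = n)

/-- RANK: summation over the rows -/
def Stmt_RANK : Prop := ∀ (B : Finset ℕ) (f : ℕ → ℝ),
  ∑ x ∈ B, f (rk B x) = ∑ r ∈ Icc 1 B.card, f r

/-- HD: arithmetic-geometric mean over the gaps: `hk B x = ∏_{gaps g < x} (x - g)`, `gp` factors with the
sum `gp (gp+1)/2 + bx`. -/
def Stmt_HD : Prop := ∀ (B : Finset ℕ) (x : ℕ), (gp B x = 0 → hk B x = 1) ∧
  (1 ≤ gp B x → hk B x ≤ (((gp B x : ℝ) + 1) / 2 + (bx B x : ℝ) / (gp B x : ℝ)) ^ gp B x)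

/-- HC: with `a = gp B x`: `hk B x = a! ∏_{z < x} (a + b_z) / (a + b_z - gp B z)`, `b_z` the number of beads
in `[z, x)`, `x - z = a + b_z - gp B z`; a factor is `≤ (a+1)/(a+1-y) ≤ (a+1)^(y/a)`, `y = gp B z ≤ a`
(weighted arithmetic-geometric mean: `a+1-y = ((a-y)/a) (a+1) + (y/a) 1`).  So `hk ≤ a! (a+1)^(bx/a)`. -/
def Stmt_HC : Prop := ∀ (B : Finset ℕ) (x : ℕ) (γ : ℝ), 1 ≤ gp B x → 1 ≤ γ →
  (gp B x : ℝ) + 1 ≤ γ ^ gp B x →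
  hk B x ≤ ((gp B x).factorial : ℝ) * γ ^ bx B x ∧
  (gp B x ≤ bx B x →
    hk B x ≤ ((gp B x).factorial : ℝ) * ((gp B x : ℝ) + 1) * γ ^ (bx B x - gp B x))

/-- HA: the same product; the first row below has length `c = gp B z`: its factor is `(a+1)/(a+1-c)`, the
others are `≤ 1/(1 - y/(a+2))`, and `∏ (1 - y/(a+2)) ≥ 1 - ∑ y/(a+2)` (Weierstrass), or
`(a+b)/(a+b-y) ≤ exp (y/(a+2-c))`. -/
def Stmt_HA : Prop := ∀ (B : Finset ℕ) (x : ℕ),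
  (bx B x < gp B x + 1 →
    hk B x ≤ ((gp B x).factorial : ℝ) * (((gp B x : ℝ) + 1) / ((gp B x : ℝ) + 1 - bx B x))) ∧
  (∀ z ∈ B, z < x → (∀ y ∈ B, y < x → y ≤ z) →
    (bx B x < gp B z + gp B x + 2 →
      hk B x ≤ ((gp B x).factorial : ℝ) * (((gp B x : ℝ) + 1) / ((gp B x : ℝ) + 1 - gp B z)) *
        (((gp B x : ℝ) + 2) / ((gp B x : ℝ) + 2 - ((bx B x : ℝ) - gp B z)))) ∧
    hk B x ≤ ((gp B x).factorial : ℝ) * (((gp B x : ℝ) + 1) / ((gp B x : ℝ) + 1 - gp B z)) *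
      Real.exp (((bx B x : ℝ) - gp B z) / ((gp B x : ℝ) + 2 - gp B z)))

/-! ### numbers -/

/-- coefficient of row 1, `i = m - λ_1`; without the factorial of the row -/
noncomputable def cA (m i : ℕ) : ℝ :=
  ((m - 3 + i).factorial : ℝ) * ((m - i).factorial : ℝ) /
    (((m - 3).factorial : ℝ) * (m.factorial : ℝ) * ((i - 1).factorial : ℝ) * m)

/-- coefficient of row 2, `p = m + 1 - λ_2` -/
noncomputable def cB (m p : ℕ) : ℝ :=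
  ((m - 3 + p).factorial : ℝ) * ((m + 1 - p).factorial : ℝ) /
    (((m - 3).factorial : ℝ) * (m.factorial : ℝ) * ((p - 1).factorial : ℝ) * m)

/-- bound of the bracket -/
noncomputable def TB (m p : ℕ) : ℝ :=
  (if p = 1 then 7528 / 10000 else if p = 2 then 41405 / 100000 else if p = 3 then 2898 / 10000
    else if p = 4 then 224 / 1000 else 51 / 50 / (p : ℝ)) + 51 / 50 / ((m : ℝ) - 3 + p)

/-- CF: closed forms and the ratios. -/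
def Stmt_CF : Prop := ∀ m : ℕ, 16 ≤ m → cA m 1 = ((m : ℝ) - 2) / m ^ 2 ∧ cA m 2 = ((m : ℝ) - 2) / m ^ 2 ∧
  cA m 3 = 1 / (2 * m) ∧ cB m 3 = ((m : ℝ) - 2) / (2 * m) ∧ cB m 4 = ((m : ℝ) + 1) / (6 * m) ∧
  (∀ i, 1 ≤ i → i < m → cA m (i + 1) * (i * ((m : ℝ) - i)) = cA m i * ((m : ℝ) - 2 + i)) ∧
  (∀ p, 1 ≤ p → p ≤ m → cB m (p + 1) * (p * ((m : ℝ) + 1 - p)) = cB m p * ((m : ℝ) - 2 + p)) ∧
  (∀ p, 4 ≤ p → p ≤ m + 1 → cB (m + 1) p ≤ cB m p) ∧ (∀ p, 1 ≤ p → 0 < cB m p) ∧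
  (∀ i, 1 ≤ i → 0 < cA m i)

/-- NR1, row 1. (a) [.3765] from `(m-x)(x+3) ≥ 2(m+1)`; (b) [.42180]; (c) [.22597]; (d) [.30211];
(e) [.23507 at m = 16, i = 4]: decreasing in `i` (ratio `≤ (2m-11)/(4(m-4)) * 16/9`). -/
def Stmt_NR1 : Prop := ∀ m : ℕ, 16 ≤ m →
  (∀ x : ℕ, 1 ≤ x → x + 2 ≤ m →
    cA m 1 * TB m 1 * (m * ((m : ℝ) + 1) / (((m : ℝ) - x) * ((x : ℝ) + 3))) ≤ 377 / 1000) ∧
  cA m 2 * TB m 2 * m ≤ 43 / 100 ∧
  cA m 2 * TB m 2 * (((m : ℝ) - 1) / 2 * (m / ((m : ℝ) - 2))) ≤ 227 / 1000 ∧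
  cA m 3 * TB m 3 * (((m : ℝ) - 2) * (5 / 4) ^ 3) ≤ 303 / 1000 ∧
  (∀ i : ℕ, 4 ≤ i → i + 8 ≤ m →
    cA m i * (51 / 50 / (i : ℝ) + 51 / 50 / ((m : ℝ) - 3 + i)) *
      (((m : ℝ) - i + 1) * (4 / 3) ^ (2 * i - 3)) ≤ 24 / 100)

/-- NR2, row 2. (a) [.0774]; (b) [.20624]; (c) [.02934]; (d) [.06401]; (e) [.06734 at m = 16, p = 5];
the ratio `cB m (p+1) / cB m p = (m-2+p)/(p(m+1-p))` is `≤ 2/3` (`p ≥ 3`) and `≤ 2/5` (`p ≥ 5`). -/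
def Stmt_NR2 : Prop := ∀ m : ℕ, 16 ≤ m →
  (∀ p : ℕ, 3 ≤ p → p + 7 ≤ m → cB m p * TB m p * ((4 / 3) ^ (p - 3) / ((p : ℝ) - 1)) ≤ 78 / 1000) ∧
  cB m 3 * TB m 3 * (4 / 3) ≤ 21 / 100 ∧
  cB m 4 * TB m 4 * (((m : ℝ) - 2) / ((m : ℝ) - 4) / 2) ≤ 3 / 100 ∧
  cB m 4 * TB m 4 * (((m : ℝ) - 2) / ((m : ℝ) - 5)) ≤ 65 / 1000 ∧
  (∀ p : ℕ, 5 ≤ p → p + 7 ≤ m → cB m p * TB m p * (4 / 3) ^ (2 * p - 5) ≤ 68 / 1000)

/-- NNU, the contraction, row 2 [.08453 at m = 16, j = 0; .0743 at j = 1, then ratio `≤ .711`]. -/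
def Stmt_NNU : Prop := ∀ m j : ℕ, 16 ≤ m → j + 11 ≤ m →
  cB m (j + 4) * (m / ((m : ℝ) + 1)) * TB m (j + 4) * ((4 / 3) ^ j / ww j) ≤ 85 / 1000

/-- NL2, layer 2, `λ_2 = m - 3 - j`, all three rows together, divided by `(m-1)/(m(j+2))`
[.449 at m = 16, j = 8; .41-.43 at m = 16, j = 1..7; .41 at j = 9]. (a) `λ_2 ≥ 8`, `j ≤ 8`;
(b) `λ_2 ≤ 7`, `j ≤ 8` (so `m ≤ 18`); (c) `λ_2 ≥ 8`, `j ≥ 9`; (d) `λ_2 ≤ 7`, `j ≥ 9`. -/
def Stmt_NL2 : Prop := ∀ m j : ℕ, 16 ≤ m → 1 ≤ j → j + 4 ≤ m →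
  (j ≤ 8 → j + 11 ≤ m → ((m : ℝ) - 2) / ((m : ℝ) - 2 - j) * (ww j + 51 / 50 / ((m : ℝ) - 1)) +
    cB m (j + 4) * TB m (j + 4) * (4 / 3) ^ (j + 2) * (m / ((m : ℝ) - 1)) +
    13 / 1000 * (((j : ℝ) + 2) / ((m : ℝ) - 1)) ≤ 22 / 45) ∧
  (j ≤ 8 → m ≤ j + 10 → ((m : ℝ) - 2) / ((m : ℝ) - 2 - j) * (ww j + 51 / 50 / ((m : ℝ) - 1)) +
    15 / 1000 * (((j : ℝ) + 2) / ((m : ℝ) - 1)) ≤ 22 / 45) ∧
  (9 ≤ j → j + 11 ≤ m → ((m : ℝ) - 2) / m * Real.exp 1 * (ww j + 51 / 50 / ((m : ℝ) - 1)) +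
    cB m (j + 4) * TB m (j + 4) * (4 / 3) ^ (j + 2) * (m / ((m : ℝ) - 1)) +
    13 / 1000 * (((j : ℝ) + 2) / ((m : ℝ) - 1)) ≤ 22 / 45) ∧
  (9 ≤ j → m ≤ j + 10 → ((m : ℝ) - 2) / m * Real.exp 1 * (ww j + 51 / 50 / ((m : ℝ) - 1)) +
    15 / 1000 * (((j : ℝ) + 2) / ((m : ℝ) - 1)) ≤ 22 / 45)

/-- NFS, short rows (length `y ≤ 7`) 1 and 2. [.002876, .002302, .001327, .00245, all at m = 16, y = 7].
For a fixed `y` all four decrease in `m` (ratio `≤ 4.3 e / m`, the last one `4.3 e * 4/3 / m`). -/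
def Stmt_NFS : Prop := ∀ m y : ℕ, 16 ≤ m → 1 ≤ y → y ≤ 7 →
  51 / 25 * ((2 * m - 3 - y).choose (m - 3) : ℝ) *
    (((y : ℝ) + 1) / 2 + (2 * (m : ℝ) - 3 - y) / y) ^ y / (m * (m.factorial : ℝ)) ≤ 3 / 1000 ∧
  51 / 25 * ((2 * m - 2 - y).choose (m - 3) : ℝ) *
    (((y : ℝ) + 1) / 2 + (2 * (m : ℝ) - 3 - 2 * y) / y) ^ y / (m * (m.factorial : ℝ)) ≤ 3 / 1000 ∧
  51 / 25 * ((2 * m - 2 - y).choose (m - 3) : ℝ) *
    (((y : ℝ) + 1) / 2 + ((m : ℝ) - 1 - y) / y) ^ y / ((m.factorial : ℝ) * ((m : ℝ) - 1 - y)) ≤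
    2 / 1000 ∧
  51 / 25 * ((2 * m - 2 - y).choose (m - 3) : ℝ) *
    (((y : ℝ) + 1) / 2 + ((m : ℝ) - 3 - y) / y) ^ y /
      ((m.factorial : ℝ) * ((m : ℝ) + 1) * ww (m - 3 - y)) ≤ 3 / 1000

/-- NF1, rows `≥ 3`, all shapes [.02694 at m = 18, y = 11].  Kernel check for `m < 70` (multiply by
`(2y)^y`), crude estimate for `m ≥ 70`. -/
def Stmt_NF1 : Prop := ∀ m y : ℕ, 16 ≤ m → 3 * y + 3 ≤ 2 * m →
  51 / 25 * 2 ^ (2 * m - 3 - y) *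
    (if y = 0 then 1 else (((y : ℝ) + 1) / 2 + (2 * (m : ℝ) - 3 - 3 * y) / y) ^ y) /
    (m * (m.factorial : ℝ)) ≤ 27 / 1000

/-- NF2, rows `≥ 3` in layer 2 [.00096 at m = 16, y = 7]. -/
def Stmt_NF2 : Prop := ∀ m y : ℕ, 16 ≤ m → 2 * y + 1 ≤ m →
  51 / 25 * 2 ^ (2 * m - 3 - y) *
    (if y = 0 then 1 else (((y : ℝ) + 1) / 2 + ((m : ℝ) - 1 - 2 * y) / y) ^ y) /
    ((m.factorial : ℝ) * ((m : ℝ) - y)) ≤ 1 / 1000

/-- NF3, rows `≥ 3`, contraction [.00115 at m = 16, y = 6]. -/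
def Stmt_NF3 : Prop := ∀ m y : ℕ, 16 ≤ m → 2 * y + 3 ≤ m →
  51 / 25 * 2 ^ (2 * m - 3 - y) *
    (if y = 0 then 1 else (((y : ℝ) + 1) / 2 + ((m : ℝ) - 3 - 2 * y) / y) ^ y) /
    ((m.factorial : ℝ) * ((m : ℝ) - y + 2) * ww (m - 3 - y)) ≤ 12 / 10000

/-- ESUM: `e^2 - 3 = 4.389`, `2 (e^2 - 1) = 12.778`. -/
def Stmt_ESUM : Prop := ∀ n : ℕ,
  ∑ r ∈ Icc 3 n, (2 : ℝ) ^ (r - 1) / ((r - 1).factorial : ℝ) ≤ 44 / 10 ∧
  ∑ r ∈ Icc 3 n, (2 : ℝ) ^ (r - 1) / ((r - 2).factorial : ℝ) ≤ 128 / 10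

/-! ### the results -/

/-- RNU, the contraction with `ν = 1/9` -/
def Stmt_RNU : Prop := ∀ m M i : ℕ, 16 ≤ m → m + (m - 3) < M → 1 ≤ i → i ≤ m - 3 → ∀ C ∈ Lv M i,
  ∑ x ∈ C, YR (m - 3) (WR m M) (m + (m - 3) + M - x)
    ((insert (m + (m - 3) + M - i) C).erase x) ≤ 1 / 9 * WR m M i C

/-- the bound of the lift without the factor `q / (1 - q ν)`; `a`, `b` the first two rows -/
noncomputable def Vh (m a b : ℕ) : ℝ :=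
  if a + 1 = m then 3 / 5
  else if a + 2 = m then
    (if b + 2 = m then 13 / 20 else if b + 3 = m then 13 / 50
      else 22 / 45 * (((m : ℝ) - 1) / (m * ((m : ℝ) - 1 - b))))
  else 1 / 2

/-- RVH, the size of the lift -/
def Stmt_RVH : Prop := ∀ m M : ℕ, 16 ≤ m → m + (m - 3) < M → ∀ B ∈ Lv (M + 1) (m + (m - 3)),
  ∀ X ∈ B, (∀ z ∈ B, z ≤ X) → X < M + m → ∀ y ∈ B, y < X → (∀ z ∈ B, z < X → z ≤ y) →
  ∑ x ∈ B, YR (m - 3) (WR m M) (m + (m - 3) + M - x) (B.erase x) ≤ Vh m (X - M) (y + 1 - M) * ex B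

/-- RW, the boundary bound in helper5's form implies the hypothesis of `LIFTX`: `β` bounded by
`δ(j) ex (insert X C)`, `δ(0) = 7/50`, `δ(j) = 3/50 (3/4)^j`, `j = t - C_1`, and
`ex (insert X C) ≤ ex C / (N-i)! * (1 - C_1/(N-i+1)) ≤ ex C / (N-i)! * (2j+4)/(m+1+j)`. -/
def Stmt_RW : Prop := ∀ m M i : ℕ, 16 ≤ m → m + (m - 3) < M → 1 ≤ i → i ≤ m - 3 → ∀ C ∈ Lv M i,
  (if tb C + 1 - M = m - 3 then 7 / 50 else 3 / 50 * (3 / 4 : ℝ) ^ (m - 3 - (tb C + 1 - M))) *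
    ex (insert (m + (m - 3) + M - i) C) ≤ WR m M i C

end Pool.JM.LR
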