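import Pool.Agent.Work.MP_46fa68_56.RDefs

/-!
# MP_46fa68_co, LEMMA R: blocks CF and NR2
-/

set_option autoImplicit false

open Finset

namespace Pool.JM.LR

theorem cA_succ {m i : ℕ} (hm : 16 ≤ m) (h1 : 1 ≤ i) (h2 : i < m) :
    cA m (i + 1) * (i * ((m : ℝ) - i)) = cA m i * ((m : ℝ) - 2 + i) := by
  have e1 : ((m - 3 + (i + 1)).factorial : ℝ) = ((m : ℝ) - 2 + i) * ((m - 3 + i).factorial : ℝ) := by
    have h : m - 3 + (i + 1) = (m - 3 + i) + 1 := by omega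
    rw [h, Nat.factorial_succ]
    push_cast [Nat.cast_sub (show 3 ≤ m by omega)]
    ring
  have e2 : ((m - i).factorial : ℝ) = ((m : ℝ) - i) * ((m - (i + 1)).factorial : ℝ) := by
    have h : m - i = (m - (i + 1)) + 1 := by omega
    rw [h, Nat.factorial_succ]
    push_cast [Nat.cast_sub (show i + 1 ≤ m by omega)]
    ring
  have e3 : ((i + 1 - 1).factorial : ℝ) = (i : ℝ) * ((i - 1).factorial : ℝ) := by
    have h : i + 1 - 1 = (i - 1) + 1 := by omega
    rw [h, Nat.factorial_succ]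
    push_cast [Nat.cast_sub h1]
    ring
  have p1 : (0 : ℝ) < i := by exact_mod_cast h1
  have p2 : (0 : ℝ) < m := by exact_mod_cast (by omega : 0 < m)
  have p3 : ((m - 3).factorial : ℝ) ≠ 0 := by exact_mod_cast (m - 3).factorial_ne_zero
  have p4 : (m.factorial : ℝ) ≠ 0 := by exact_mod_cast m.factorial_ne_zero
  have p5 : ((i - 1).factorial : ℝ) ≠ 0 := by exact_mod_cast (i - 1).factorial_ne_zero
  unfold cA
  rw [e1, e3, e2]
  field_simp

theorem cB_succ {m p : ℕ} (hm : 16 ≤ m) (h1 : 1 ≤ p) (h2 : p ≤ m) :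
    cB m (p + 1) * (p * ((m : ℝ) + 1 - p)) = cB m p * ((m : ℝ) - 2 + p) := by
  have e1 : ((m - 3 + (p + 1)).factorial : ℝ) = ((m : ℝ) - 2 + p) * ((m - 3 + p).factorial : ℝ) := by
    have h : m - 3 + (p + 1) = (m - 3 + p) + 1 := by omega
    rw [h, Nat.factorial_succ]
    push_cast [Nat.cast_sub (show 3 ≤ m by omega)]
    ring
  have e2 : ((m + 1 - p).factorial : ℝ) =
      ((m : ℝ) + 1 - p) * ((m + 1 - (p + 1)).factorial : ℝ) := by
    have h : m + 1 - p = (m - p) + 1 := by omega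
    have h' : m + 1 - (p + 1) = m - p := by omega
    rw [h, h', Nat.factorial_succ]
    push_cast [Nat.cast_sub h2]
    ring
  have e3 : ((p + 1 - 1).factorial : ℝ) = (p : ℝ) * ((p - 1).factorial : ℝ) := by
    have h : p + 1 - 1 = (p - 1) + 1 := by omega
    rw [h, Nat.factorial_succ]
    push_cast [Nat.cast_sub h1]
    ring
  have p1 : (0 : ℝ) < p := by exact_mod_cast h1
  have p2 : (0 : ℝ) < m := by exact_mod_cast (by omega : 0 < m)
  have p3 : ((m - 3).factorial : ℝ) ≠ 0 := by exact_mod_cast (m - 3).factorial_ne_zero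
  have p4 : (m.factorial : ℝ) ≠ 0 := by exact_mod_cast m.factorial_ne_zero
  have p5 : ((p - 1).factorial : ℝ) ≠ 0 := by exact_mod_cast (p - 1).factorial_ne_zero
  unfold cB
  rw [e1, e3, e2]
  field_simp

theorem cA_pos {m i : ℕ} (hm : 16 ≤ m) : 0 < cA m i := by
  have p2 : (0 : ℝ) < m := by exact_mod_cast (by omega : 0 < m)
  unfold cA
  positivity

theorem cB_pos {m p : ℕ} (hm : 16 ≤ m) : 0 < cB m p := by
  have p2 : (0 : ℝ) < m := by exact_mod_cast (by omega : 0 < m)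
  unfold cB
  positivity

/-- the comparison of `m` and `m + 1` -/
theorem cB_m {m p : ℕ} (hm : 16 ≤ m) (h1 : 4 ≤ p) (h2 : p ≤ m + 1) : cB (m + 1) p ≤ cB m p := by
  have e1 : ((m + 1 - 3 + p).factorial : ℝ) = ((m : ℝ) - 2 + p) * ((m - 3 + p).factorial : ℝ) := by
    have h : m + 1 - 3 + p = (m - 3 + p) + 1 := by omega
    rw [h, Nat.factorial_succ]
    push_cast [Nat.cast_sub (show 3 ≤ m by omega)]
    ring
  have e2 : ((m + 1 + 1 - p).factorial : ℝ) =
      ((m : ℝ) + 2 - p) * ((m + 1 - p).factorial : ℝ) := by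
    have h : m + 1 + 1 - p = (m + 1 - p) + 1 := by omega
    rw [h, Nat.factorial_succ]
    push_cast [Nat.cast_sub h2]
    ring
  have e3 : ((m + 1 - 3).factorial : ℝ) = ((m : ℝ) - 2) * ((m - 3).factorial : ℝ) := by
    have h : m + 1 - 3 = (m - 3) + 1 := by omega
    rw [h, Nat.factorial_succ]
    push_cast [Nat.cast_sub (show 3 ≤ m by omega)]
    ring
  have e4 : ((m + 1).factorial : ℝ) = ((m : ℝ) + 1) * (m.factorial : ℝ) := by
    rw [Nat.factorial_succ]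
    push_cast
    ring
  have hmr : (16 : ℝ) ≤ m := by exact_mod_cast hm
  have hpr : (4 : ℝ) ≤ p := by exact_mod_cast h1
  have p3 : (0 : ℝ) < ((m - 3).factorial : ℝ) := by exact_mod_cast (m - 3).factorial_pos
  have p4 : (0 : ℝ) < (m.factorial : ℝ) := by exact_mod_cast m.factorial_pos
  have p5 : (0 : ℝ) < ((p - 1).factorial : ℝ) := by exact_mod_cast (p - 1).factorial_pos
  have p6 : (0 : ℝ) < ((m - 3 + p).factorial : ℝ) := by exact_mod_cast (m - 3 + p).factorial_pos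
  have p7 : (0 : ℝ) < ((m + 1 - p).factorial : ℝ) := by exact_mod_cast (m + 1 - p).factorial_pos
  have key : ((m : ℝ) - 2 + p) * ((m : ℝ) + 2 - p) * m ≤ ((m : ℝ) - 2) * ((m : ℝ) + 1) * ((m : ℝ) + 1) := by
    have h4 : (4 : ℝ) ≤ ((p : ℝ) - 2) ^ 2 := by nlinarith
    nlinarith [mul_le_mul_of_nonneg_left h4 (by linarith : (0 : ℝ) ≤ m)]
  have hr : cB (m + 1) p * (((m : ℝ) - 2) * ((m : ℝ) + 1) * ((m : ℝ) + 1)) =
      cB m p * (((m : ℝ) - 2 + p) * ((m : ℝ) + 2 - p) * m) := by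
    have q1 : (m : ℝ) - 2 ≠ 0 := by linarith
    have q2 : (m : ℝ) + 1 ≠ 0 := by linarith
    have q3 : (m : ℝ) ≠ 0 := by linarith
    unfold cB
    rw [e1, e2, e3, e4]
    push_cast
    field_simp
  have hB : 0 < cB m p := cB_pos hm
  have hpos : 0 < ((m : ℝ) - 2) * ((m : ℝ) + 1) * ((m : ℝ) + 1) := by
    have q1 : 0 < (m : ℝ) - 2 := by linarith
    positivity
  refine le_of_mul_le_mul_right ?_ hpos
  rw [hr]
  exact mul_le_mul_of_nonneg_left key hB.le

theorem cA1 {m : ℕ} (hm : 16 ≤ m) : cA m 1 = ((m : ℝ) - 2) / m ^ 2 := by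
  obtain ⟨k, rfl⟩ : ∃ k, m = k + 3 := ⟨m - 3, by omega⟩
  unfold cA
  have h1 : k + 3 - 3 + 1 = k + 1 := by omega
  have h2 : k + 3 - 1 = k + 2 := by omega
  have h3 : k + 3 - 3 = k := by omega
  rw [h1, h2, h3]
  have p1 : (k.factorial : ℝ) ≠ 0 := by exact_mod_cast k.factorial_ne_zero
  have p2 : ((k + 2).factorial : ℝ) ≠ 0 := by exact_mod_cast (k + 2).factorial_ne_zero
  have p3 : (k : ℝ) + 3 ≠ 0 := by positivity
  rw [show ((k + 3).factorial : ℝ) = ((k : ℝ) + 3) * ((k + 2).factorial : ℝ) by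
      rw [Nat.factorial_succ]; push_cast; ring,
    show ((k + 1).factorial : ℝ) = ((k : ℝ) + 1) * (k.factorial : ℝ) by
      rw [Nat.factorial_succ]; push_cast; ring]
  push_cast
  simp only [Nat.factorial_zero, Nat.cast_one]
  field_simp
  ring

theorem cA2 {m : ℕ} (hm : 16 ≤ m) : cA m 2 = ((m : ℝ) - 2) / m ^ 2 := by
  have h := cA_succ hm (le_refl 1) (by omega : 1 < m)
  rw [cA1 hm] at h
  have hmr : (16 : ℝ) ≤ m := by exact_mod_cast hm
  have q : (m : ℝ) - 1 ≠ 0 := by linarith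
  have h' : cA m 2 * ((m : ℝ) - 1) = ((m : ℝ) - 2) / m ^ 2 * ((m : ℝ) - 1) := by
    have := h
    push_cast at this
    linarith
  exact mul_right_cancel₀ q h'

theorem cA3 {m : ℕ} (hm : 16 ≤ m) : cA m 3 = 1 / (2 * m) := by
  have h := cA_succ hm (by omega : 1 ≤ 2) (by omega : 2 < m)
  rw [cA2 hm] at h
  have hmr : (16 : ℝ) ≤ m := by exact_mod_cast hm
  have q : (m : ℝ) - 2 ≠ 0 := by linarith
  have q0 : (m : ℝ) ≠ 0 := by linarith
  have h' : cA m 3 * (2 * ((m : ℝ) - 2)) = 1 / (2 * m) * (2 * ((m : ℝ) - 2)) := by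
    have := h
    push_cast at this
    rw [this]
    field_simp
    ring
  exact mul_right_cancel₀ (mul_ne_zero two_ne_zero q) h'

theorem cB1 {m : ℕ} (hm : 16 ≤ m) : cB m 1 = ((m : ℝ) - 2) / m := by
  obtain ⟨k, rfl⟩ : ∃ k, m = k + 3 := ⟨m - 3, by omega⟩
  unfold cB
  have h1 : k + 3 - 3 + 1 = k + 1 := by omega
  have h2 : k + 3 + 1 - 1 = k + 3 := by omega
  have h3 : k + 3 - 3 = k := by omega
  rw [h1, h2, h3]
  have p1 : (k.factorial : ℝ) ≠ 0 := by exact_mod_cast k.factorial_ne_zero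
  have p2 : ((k + 3).factorial : ℝ) ≠ 0 := by exact_mod_cast (k + 3).factorial_ne_zero
  have p3 : (k : ℝ) + 3 ≠ 0 := by positivity
  rw [show ((k + 1).factorial : ℝ) = ((k : ℝ) + 1) * (k.factorial : ℝ) by
      rw [Nat.factorial_succ]; push_cast; ring]
  push_cast
  simp only [Nat.factorial_zero, Nat.cast_one]
  field_simp
  ring

theorem cB2 {m : ℕ} (hm : 16 ≤ m) : cB m 2 = ((m : ℝ) - 2) * ((m : ℝ) - 1) / m ^ 2 := by
  have h := cB_succ hm (le_refl 1) (by omega : 1 ≤ m)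
  rw [cB1 hm] at h
  have hmr : (16 : ℝ) ≤ m := by exact_mod_cast hm
  have q0 : (m : ℝ) ≠ 0 := by linarith
  have h' : cB m 2 * m = ((m : ℝ) - 2) * ((m : ℝ) - 1) / m ^ 2 * m := by
    have := h
    push_cast at this
    have e : cB m 2 * m = cB m (1 + 1) * (1 * ((m : ℝ) + 1 - 1)) := by norm_num
    rw [e, this]
    field_simp
    ring
  exact mul_right_cancel₀ q0 h'

theorem cB3 {m : ℕ} (hm : 16 ≤ m) : cB m 3 = ((m : ℝ) - 2) / (2 * m) := by
  have h := cB_succ hm (by omega : 1 ≤ 2) (by omega : 2 ≤ m)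
  rw [cB2 hm] at h
  have hmr : (16 : ℝ) ≤ m := by exact_mod_cast hm
  have q0 : (m : ℝ) ≠ 0 := by linarith
  have q : (m : ℝ) - 1 ≠ 0 := by linarith
  have h' : cB m 3 * (2 * ((m : ℝ) - 1)) = ((m : ℝ) - 2) / (2 * m) * (2 * ((m : ℝ) - 1)) := by
    have := h
    push_cast at this
    have e : cB m 3 * (2 * ((m : ℝ) - 1)) = cB m (2 + 1) * (2 * ((m : ℝ) + 1 - 2)) := by
      norm_num
      left
      ring
    rw [e, this]
    field_simp
    ring
  exact mul_right_cancel₀ (mul_ne_zero two_ne_zero q) h'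

theorem cB4 {m : ℕ} (hm : 16 ≤ m) : cB m 4 = ((m : ℝ) + 1) / (6 * m) := by
  have h := cB_succ hm (by omega : 1 ≤ 3) (by omega : 3 ≤ m)
  rw [cB3 hm] at h
  have hmr : (16 : ℝ) ≤ m := by exact_mod_cast hm
  have q0 : (m : ℝ) ≠ 0 := by linarith
  have q : (m : ℝ) - 2 ≠ 0 := by linarith
  have h' : cB m 4 * (3 * ((m : ℝ) - 2)) = ((m : ℝ) + 1) / (6 * m) * (3 * ((m : ℝ) - 2)) := by
    have := h
    push_cast at this
    have e : cB m 4 * (3 * ((m : ℝ) - 2)) = cB m (3 + 1) * (3 * ((m : ℝ) + 1 - 3)) := by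
      norm_num
      left
      ring
    rw [e, this]
    field_simp
    ring
  exact mul_right_cancel₀ (mul_ne_zero three_ne_zero q) h'

theorem cB5 {m : ℕ} (hm : 16 ≤ m) :
    cB m 5 = ((m : ℝ) + 1) * ((m : ℝ) + 2) / (24 * m * ((m : ℝ) - 3)) := by
  have h := cB_succ hm (by omega : 1 ≤ 4) (by omega : 4 ≤ m)
  rw [cB4 hm] at h
  have hmr : (16 : ℝ) ≤ m := by exact_mod_cast hm
  have q0 : (m : ℝ) ≠ 0 := by linarith
  have q : (m : ℝ) - 3 ≠ 0 := by linarith
  have h' : cB m 5 * (4 * ((m : ℝ) - 3)) =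
      ((m : ℝ) + 1) * ((m : ℝ) + 2) / (24 * m * ((m : ℝ) - 3)) * (4 * ((m : ℝ) - 3)) := by
    have := h
    push_cast at this
    have e : cB m 5 * (4 * ((m : ℝ) - 3)) = cB m (4 + 1) * (4 * ((m : ℝ) + 1 - 4)) := by
      norm_num
      left
      ring
    rw [e, this]
    field_simp
    ring
  exact mul_right_cancel₀ (mul_ne_zero four_ne_zero q) h'

theorem blk_CF : Stmt_CF := by
  intro m hm
  exact ⟨cA1 hm, cA2 hm, cA3 hm, cB3 hm, cB4 hm, fun i h1 h2 => cA_succ hm h1 h2,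
    fun p h1 h2 => cB_succ hm h1 h2, fun p h1 h2 => cB_m hm h1 h2, fun p _ => cB_pos hm,
    fun i _ => cA_pos hm⟩

end Pool.JM.LR
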