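import Pool.Agent.Work.MP_46fa68_56.RDefs

/-! Block HA (helper23): the hook product of a row, two-term and exponential bounds. -/

set_option autoImplicit false

open Finset

namespace Pool.JM.LR

namespace HAaux

theorem gp_add (B : Finset ℕ) (x : ℕ) : gp B x + (B.filter (· < x)).card = x := by
  unfold gp
  have h : (B.filter (· < x)) = (range x).filter (· ∈ B) := by
    ext z
    simp [and_comm]
  rw [h, add_comm]
  have := Finset.card_filter_add_card_filter_not (s := range x) (fun z => z ∈ B)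
  rw [card_range] at this
  exact this

theorem gp_mono (B : Finset ℕ) {z x : ℕ} (h : z ≤ x) : gp B z ≤ gp B x := by
  unfold gp
  refine card_le_card ?_
  intro w hw
  simp only [mem_filter, mem_range] at hw ⊢
  exact ⟨lt_of_lt_of_le hw.1 h, hw.2⟩

/-- the number of beads in `[z, x)` -/
def bz (B : Finset ℕ) (x z : ℕ) : ℕ := ((B.filter (· < x)).filter (z ≤ ·)).card

theorem key (B : Finset ℕ) {x z : ℕ} (h : z < x) : x + gp B z = z + gp B x + bz B x z := by
  have h1 := gp_add B x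
  have h2 := gp_add B z
  have h3 := Finset.card_filter_add_card_filter_not (s := B.filter (· < x)) (fun w => z ≤ w)
  have h4 : ((B.filter (· < x)).filter (fun w => ¬ z ≤ w)) = B.filter (· < z) := by
    ext w
    simp only [mem_filter, not_le]
    constructor
    · rintro ⟨⟨a, _⟩, c⟩
      exact ⟨a, c⟩
    · rintro ⟨a, c⟩
      exact ⟨⟨a, c.trans h⟩, c⟩
  rw [h4] at h3
  unfold bz
  omega

theorem prod_rk (f : ℕ → ℝ) (Z : Finset ℕ) :
    ∏ z ∈ Z, f ((Z.filter (z ≤ ·)).card) = ∏ r ∈ range Z.card, f (r + 1) := by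
  induction Z using Finset.induction_on_min with
  | empty => simp
  | insert a s ha ih =>
    have hn : a ∉ s := fun h => lt_irrefl _ (ha a h)
    rw [prod_insert hn, card_insert_of_notMem hn, prod_range_succ, mul_comm]
    congr 1
    · rw [← ih]
      refine prod_congr rfl fun z hz => ?_
      rw [filter_insert, if_neg (not_le.2 (ha z hz))]
    · have h1 : (insert a s).filter (a ≤ ·) = insert a s := by
        refine filter_true_of_mem fun w hw => ?_
        rcases mem_insert.1 hw with rfl | hw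
        · exact le_rfl
        · exact (ha w hw).le
      rw [h1, card_insert_of_notMem hn]

theorem fact_prod (a n : ℕ) :
    ((a + n).factorial : ℝ) = (a.factorial : ℝ) * ∏ r ∈ range n, ((a : ℝ) + ((r + 1 : ℕ) : ℝ)) := by
  induction n with
  | zero => simp
  | succ n ih =>
    rw [prod_range_succ, ← mul_assoc, ← ih, ← Nat.add_assoc, Nat.factorial_succ]
    push_cast
    ring

theorem hk_eq (B : Finset ℕ) (x : ℕ) :
    hk B x = ((gp B x).factorial : ℝ) * ∏ z ∈ B.filter (· < x),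
      (((gp B x : ℝ) + (bz B x z : ℝ)) / ((gp B x : ℝ) + (bz B x z : ℝ) - (gp B z : ℝ))) := by
  rw [prod_div_distrib, ← mul_div_assoc]
  have h1 : ((gp B x).factorial : ℝ) * ∏ z ∈ B.filter (· < x), ((gp B x : ℝ) + (bz B x z : ℝ))
      = (x.factorial : ℝ) := by
    have h2 := prod_rk (fun r => (gp B x : ℝ) + (r : ℝ)) (B.filter (· < x))
    have h3 : ∏ z ∈ B.filter (· < x), ((gp B x : ℝ) + (bz B x z : ℝ))
        = ∏ r ∈ range (B.filter (· < x)).card, ((gp B x : ℝ) + ((r + 1 : ℕ) : ℝ)) := h2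
    rw [h3, ← fact_prod, gp_add]
  have h4 : ∏ z ∈ B.filter (· < x), ((gp B x : ℝ) + (bz B x z : ℝ) - (gp B z : ℝ))
      = ∏ z ∈ B.filter (· < x), ((x : ℝ) - z) := by
    refine prod_congr rfl fun z hz => ?_
    have h5 := key B (mem_filter.1 hz).2
    have h6 : (x : ℝ) + (gp B z : ℝ) = (z : ℝ) + (gp B x : ℝ) + (bz B x z : ℝ) := by
      exact_mod_cast h5
    linarith
  rw [h1, h4]
  rfl

theorem prod_le (A : ℝ) (s : Finset ℕ) (y : ℕ → ℝ) (hy : ∀ z ∈ s, 0 ≤ y z)
    (hs : ∑ z ∈ s, y z < A) : 0 < A →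
    ∏ z ∈ s, (A / (A - y z)) ≤ A / (A - ∑ z ∈ s, y z) := by
  intro hA
  induction s using Finset.induction_on with
  | empty => simp [div_self hA.ne']
  | insert a s ha ih =>
    rw [prod_insert ha, sum_insert ha]
    rw [sum_insert ha] at hs
    have h0 : 0 ≤ y a := hy a (mem_insert_self a s)
    have h1 : ∀ z ∈ s, 0 ≤ y z := fun z hz => hy z (mem_insert_of_mem hz)
    have h2 : 0 ≤ ∑ z ∈ s, y z := sum_nonneg h1
    have h3 := ih h1 (by linarith)
    have h4 : 0 < A - y a := by linarith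
    have h5 : 0 < A - ∑ z ∈ s, y z := by linarith
    have h6 : 0 < A - (y a + ∑ z ∈ s, y z) := by linarith
    calc A / (A - y a) * ∏ z ∈ s, (A / (A - y z))
        ≤ A / (A - y a) * (A / (A - ∑ z ∈ s, y z)) :=
          mul_le_mul_of_nonneg_left h3 (div_nonneg hA.le h4.le)
      _ ≤ A / (A - (y a + ∑ z ∈ s, y z)) := by
          rw [div_mul_div_comm, div_le_div_iff₀ (mul_pos h4 h5) h6]
          nlinarith [mul_nonneg hA.le (mul_nonneg h0 h2)]

theorem bz_pos (B : Finset ℕ) {x z : ℕ} (hz : z ∈ B.filter (· < x)) : 1 ≤ bz B x z := by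
  unfold bz
  refine Nat.succ_le_of_lt (card_pos.2 ⟨z, ?_⟩)
  exact mem_filter.2 ⟨hz, le_rfl⟩

theorem den_pos (B : Finset ℕ) {x z : ℕ} (hz : z ∈ B.filter (· < x)) :
    (0 : ℝ) < (gp B x : ℝ) + (bz B x z : ℝ) - (gp B z : ℝ) := by
  have h5 := key B (mem_filter.1 hz).2
  have h6 : (x : ℝ) + (gp B z : ℝ) = (z : ℝ) + (gp B x : ℝ) + (bz B x z : ℝ) := by
    exact_mod_cast h5
  have h7 : (z : ℝ) < (x : ℝ) := by exact_mod_cast (mem_filter.1 hz).2
  linarith

theorem fac_le (a b y c : ℝ) (hy : 0 ≤ y) (hcb : c ≤ b) (hc : 0 < a + c - y) (_ha : 0 ≤ a)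
    (_hc0 : 0 ≤ c) :
    (a + b) / (a + b - y) ≤ (a + c) / (a + c - y) := by
  rw [div_le_div_iff₀ (by linarith) hc]
  nlinarith [mul_nonneg hy (sub_nonneg.2 hcb)]

theorem gp_le (B : Finset ℕ) {x z : ℕ} (hz : z ∈ B.filter (· < x)) :
    (gp B z : ℝ) ≤ (gp B x : ℝ) := by
  exact_mod_cast gp_mono B (mem_filter.1 hz).2.le

theorem bx_cast (B : Finset ℕ) (x : ℕ) :
    (bx B x : ℝ) = ∑ z ∈ B.filter (· < x), (gp B z : ℝ) := by
  unfold bx
  push_cast
  rfl

end HAaux

open HAaux in
theorem blk_HA : Stmt_HA := by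
  intro B x
  have ha : (0 : ℝ) ≤ (gp B x : ℝ) := Nat.cast_nonneg _
  have hf : (0 : ℝ) ≤ ((gp B x).factorial : ℝ) := Nat.cast_nonneg _
  constructor
  · intro hlt
    rw [hk_eq]
    refine mul_le_mul_of_nonneg_left ?_ hf
    have hlt' : ∑ z ∈ B.filter (· < x), (gp B z : ℝ) < (gp B x : ℝ) + 1 := by
      rw [← bx_cast]
      exact_mod_cast hlt
    rw [bx_cast]
    refine le_trans ?_ (prod_le ((gp B x : ℝ) + 1) (B.filter (· < x)) (fun z => (gp B z : ℝ))
      (fun z _ => Nat.cast_nonneg _) hlt' (by linarith))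
    refine prod_le_prod (fun z hz => ?_) fun z hz => ?_
    · exact div_nonneg (add_nonneg ha (Nat.cast_nonneg _)) (den_pos B hz).le
    · have h1 : (1 : ℝ) ≤ (bz B x z : ℝ) := by exact_mod_cast bz_pos B hz
      have h2 := gp_le B hz
      exact fac_le _ _ _ 1 (Nat.cast_nonneg _) h1 (by linarith) ha zero_le_one
  · intro z hzB hzx hz
    have hzZ : z ∈ B.filter (· < x) := mem_filter.2 ⟨hzB, hzx⟩
    have hb1 : bz B x z = 1 := by
      unfold bz
      rw [card_eq_one]
      refine ⟨z, ?_⟩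
      ext w
      simp only [mem_filter, mem_singleton]
      constructor
      · rintro ⟨⟨h1, h2⟩, h3⟩
        exact le_antisymm (hz w h1 h2) h3
      · rintro rfl
        exact ⟨⟨hzB, hzx⟩, le_rfl⟩
    have hb2 : ∀ w ∈ (B.filter (· < x)).erase z, (2 : ℝ) ≤ (bz B x w : ℝ) := by
      intro w hw
      have h1 := mem_erase.1 hw
      have h2 : ({w, z} : Finset ℕ) ⊆ (B.filter (· < x)).filter (w ≤ ·) := by
        intro v hv
        simp only [mem_insert, mem_singleton] at hv
        rcases hv with rfl | rfl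
        · exact mem_filter.2 ⟨h1.2, le_rfl⟩
        · exact mem_filter.2 ⟨hzZ, hz w (mem_filter.1 h1.2).1 (mem_filter.1 h1.2).2⟩
      have h3 := card_le_card h2
      rw [card_pair h1.1] at h3
      unfold bz
      exact_mod_cast h3
    have hc := gp_le B hzZ
    have hc0 : (0 : ℝ) ≤ (gp B z : ℝ) := Nat.cast_nonneg _
    have hsum : ∑ w ∈ (B.filter (· < x)).erase z, (gp B w : ℝ) = (bx B x : ℝ) - (gp B z : ℝ) := by
      rw [bx_cast, ← add_sum_erase _ _ hzZ]
      ring
    have hprod : hk B x = ((gp B x).factorial : ℝ) *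
        (((gp B x : ℝ) + 1) / ((gp B x : ℝ) + 1 - gp B z)) *
        ∏ w ∈ (B.filter (· < x)).erase z,
          (((gp B x : ℝ) + (bz B x w : ℝ)) / ((gp B x : ℝ) + (bz B x w : ℝ) - (gp B w : ℝ))) := by
      rw [hk_eq, ← mul_prod_erase _ _ hzZ, hb1, Nat.cast_one, mul_assoc]
    have hpos : (0 : ℝ) ≤ ((gp B x).factorial : ℝ) *
        (((gp B x : ℝ) + 1) / ((gp B x : ℝ) + 1 - gp B z)) :=
      mul_nonneg hf (div_nonneg (by linarith) (by linarith))
    have hnn : ∀ w ∈ (B.filter (· < x)).erase z, (0 : ℝ) ≤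
        ((gp B x : ℝ) + (bz B x w : ℝ)) / ((gp B x : ℝ) + (bz B x w : ℝ) - (gp B w : ℝ)) := by
      intro w hw
      exact div_nonneg (add_nonneg ha (Nat.cast_nonneg _)) (den_pos B (mem_of_mem_erase hw)).le
    constructor
    · intro hlt
      rw [hprod]
      refine mul_le_mul_of_nonneg_left ?_ hpos
      have hlt' : ∑ w ∈ (B.filter (· < x)).erase z, (gp B w : ℝ) < (gp B x : ℝ) + 2 := by
        rw [hsum]
        have : (bx B x : ℝ) < (gp B z : ℝ) + (gp B x : ℝ) + 2 := by exact_mod_cast hlt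
        linarith
      rw [← hsum]
      refine le_trans ?_ (prod_le ((gp B x : ℝ) + 2) ((B.filter (· < x)).erase z)
        (fun z => (gp B z : ℝ)) (fun z _ => Nat.cast_nonneg _) hlt' (by linarith))
      refine prod_le_prod hnn fun w hw => ?_
      have h2 := gp_le B (mem_of_mem_erase hw)
      exact fac_le _ _ _ 2 (Nat.cast_nonneg _) (hb2 w hw) (by linarith) ha (by norm_num)
    · rw [hprod]
      refine mul_le_mul_of_nonneg_left ?_ hpos
      rw [← hsum, sum_div, Real.exp_sum]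
      refine prod_le_prod hnn fun w hw => ?_
      have hwZ := mem_of_mem_erase hw
      have h1 : (gp B w : ℝ) ≤ (gp B z : ℝ) := by
        exact_mod_cast gp_mono B (hz w (mem_filter.1 hwZ).1 (mem_filter.1 hwZ).2)
      have h2 := hb2 w hw
      have h3 := den_pos B hwZ
      have h0 : (0 : ℝ) ≤ (gp B w : ℝ) := Nat.cast_nonneg _
      have h4 : ((gp B x : ℝ) + (bz B x w : ℝ)) / ((gp B x : ℝ) + (bz B x w : ℝ) - (gp B w : ℝ))
          = (gp B w : ℝ) / ((gp B x : ℝ) + (bz B x w : ℝ) - (gp B w : ℝ)) + 1 := by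
        field_simp
        ring
      rw [h4]
      refine le_trans (Real.add_one_le_exp _) (Real.exp_le_exp.2 ?_)
      exact div_le_div_of_nonneg_left h0 (by linarith) (by linarith)

end Pool.JM.LR
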