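import Pool.Agent.Work.MP_46fa68_56.RDefs

/-!
# MP_46fa68_co, LEMMA R: block NFS (short rows)

Kernel check for `16 ≤ m < 32`, crude estimate for `m ≥ 32`.
-/

set_option autoImplicit false

open Finset

namespace Pool.JM.LR

namespace NFS

/-- the kernel-checked form: `choose n k * (A / (2y))^y * X ≤ Y` -/
def chk (n k y A X Y : ℕ) : Bool :=
  A ^ y * n.factorial * X ≤ (2 * y) ^ y * k.factorial * (n - k).factorial * Y

theorem of_chk {n k y A X Y : ℕ} (hk : k ≤ n) (hy : 1 ≤ y) (h : chk n k y A X Y = true) :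
    (n.choose k : ℝ) * ((A : ℝ) / (2 * y)) ^ y * X ≤ Y := by
  have h1 := of_decide_eq_true h
  have h2 : (A : ℝ) ^ y * (n.factorial : ℝ) * X ≤
      (2 * (y : ℝ)) ^ y * (k.factorial : ℝ) * ((n - k).factorial : ℝ) * Y := by
    exact_mod_cast h1
  have hy0 : (0 : ℝ) < y := by exact_mod_cast hy
  have p1 : (0 : ℝ) < (k.factorial : ℝ) := by exact_mod_cast Nat.factorial_pos _
  have p2 : (0 : ℝ) < ((n - k).factorial : ℝ) := by exact_mod_cast Nat.factorial_pos _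
  have p3 : (0 : ℝ) < (2 * (y : ℝ)) ^ y := by positivity
  rw [Nat.cast_choose ℝ hk, div_pow, div_mul_div_comm, div_mul_eq_mul_div, div_le_iff₀ (by positivity)]
  nlinarith [h2]

/-- the four checks for one pair `m`, `y` -/
def chkAll (m y : ℕ) : Bool :=
  chk (2 * m - 3 - y) (m - 3) y (y * (y + 1) + 2 * (2 * m - 3 - y)) 51000 (75 * m * m.factorial) &&
  chk (2 * m - 2 - y) (m - 3) y (y * (y + 1) + 2 * (2 * m - 3 - 2 * y)) 51000
    (75 * m * m.factorial) &&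
  chk (2 * m - 2 - y) (m - 3) y (y * (y + 1) + 2 * (m - 1 - y)) 51000
    (50 * m.factorial * (m - 1 - y)) &&
  chk (2 * m - 2 - y) (m - 3) y (y * (y + 1) + 2 * (m - 3 - y)) (51000 * 25 * 4 ^ (m - 3 - y))
    (75 * m.factorial * (m + 1) * (3 * (m - 1 - y) * 3 ^ (m - 3 - y)))

def chkRange : Bool :=
  (List.range 16).all fun a => (List.range 7).all fun b => chkAll (16 + a) (b + 1)

theorem range_ok : chkRange = true := by decide +kernel

theorem all_ok {m y : ℕ} (h1 : 16 ≤ m) (h2 : m < 32) (h3 : 1 ≤ y) (h4 : y ≤ 7) :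
    chkAll m y = true := by
  have h := range_ok
  unfold chkRange at h
  rw [List.all_eq_true] at h
  have h5 := h (m - 16) (List.mem_range.2 (by omega))
  rw [List.all_eq_true] at h5
  rw [show 16 + (m - 16) = m by omega] at h5
  have h6 := h5 (y - 1) (List.mem_range.2 (by omega))
  rwa [show y - 1 + 1 = y by omega] at h6

/-! ### large `m` -/

theorem pow_succ_le {m : ℕ} (hm : 32 ≤ m) : ((m : ℝ) + 1) ^ 7 ≤ 2 * (m : ℝ) ^ 7 := by
  have hm' : (32 : ℝ) ≤ m := by exact_mod_cast hm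
  have h1 : (m : ℝ) + 1 ≤ 33 / 32 * m := by linarith
  calc ((m : ℝ) + 1) ^ 7 ≤ (33 / 32 * (m : ℝ)) ^ 7 := pow_le_pow_left₀ (by positivity) h1 7
    _ = (33 / 32) ^ 7 * (m : ℝ) ^ 7 := by rw [mul_pow]
    _ ≤ 2 * (m : ℝ) ^ 7 := mul_le_mul_of_nonneg_right (by norm_num) (by positivity)

theorem bigA {m : ℕ} (hm : 32 ≤ m) : 11 * ((4 : ℝ) ^ m * (m : ℝ) ^ 7) ≤ (m.factorial : ℝ) := by
  induction m, hm using Nat.le_induction with
  | base =>
    have h : (Nat.factorial 32 : ℝ) = ((Nat.factorial 32 : ℕ) : ℝ) := rfl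
    norm_num [Nat.factorial]
  | succ n hn ih =>
    have hn' : (32 : ℝ) ≤ n := by exact_mod_cast hn
    have h1 := pow_succ_le hn
    have hp : (0 : ℝ) ≤ (4 : ℝ) ^ n * (n : ℝ) ^ 7 := by positivity
    have hf : (0 : ℝ) ≤ (n.factorial : ℝ) := by positivity
    rw [Nat.factorial_succ]
    push_cast
    calc 11 * ((4 : ℝ) ^ (n + 1) * ((n : ℝ) + 1) ^ 7)
        ≤ 11 * ((4 : ℝ) ^ (n + 1) * (2 * (n : ℝ) ^ 7)) := by gcongr
      _ = 8 * (11 * ((4 : ℝ) ^ n * (n : ℝ) ^ 7)) := by rw [pow_succ]; ring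
      _ ≤ ((n : ℝ) + 1) * (n.factorial : ℝ) := by nlinarith

theorem bigB {m : ℕ} (hm : 32 ≤ m) :
    2 * ((16 / 3 : ℝ) ^ m * (m : ℝ) ^ 7) ≤ (m.factorial : ℝ) := by
  induction m, hm using Nat.le_induction with
  | base => norm_num [Nat.factorial]
  | succ n hn ih =>
    have hn' : (32 : ℝ) ≤ n := by exact_mod_cast hn
    have h1 := pow_succ_le hn
    have hp : (0 : ℝ) ≤ (16 / 3 : ℝ) ^ n * (n : ℝ) ^ 7 := by positivity
    have hf : (0 : ℝ) ≤ (n.factorial : ℝ) := by positivity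
    rw [Nat.factorial_succ]
    push_cast
    calc 2 * ((16 / 3 : ℝ) ^ (n + 1) * ((n : ℝ) + 1) ^ 7)
        ≤ 2 * ((16 / 3 : ℝ) ^ (n + 1) * (2 * (n : ℝ) ^ 7)) := by gcongr
      _ = 32 / 3 * (2 * ((16 / 3 : ℝ) ^ n * (n : ℝ) ^ 7)) := by rw [pow_succ]; ring
      _ ≤ ((n : ℝ) + 1) * (n.factorial : ℝ) := by nlinarith

/-- the crude bound of `choose * base^y` -/
theorem crude {n k m y : ℕ} {b : ℝ} (hm : 32 ≤ m) (h1 : 1 ≤ y) (h2 : y ≤ 7) (hn : n + 3 ≤ 2 * m)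
    (hb0 : 0 ≤ b) (hb : b ≤ ((y : ℝ) + 1) / 2 + (2 * (m : ℝ) - 3 - y) / y) :
    (n.choose k : ℝ) * b ^ y ≤ 4 ^ m * (m : ℝ) ^ 7 / 4 := by
  have hm' : (32 : ℝ) ≤ m := by exact_mod_cast hm
  have hc : (n.choose k : ℝ) ≤ 4 ^ m / 8 := by
    have e1 : n.choose k ≤ 2 ^ (2 * m - 3) :=
      (Nat.choose_le_two_pow _ _).trans (Nat.pow_le_pow_right (by norm_num) (by omega))
    have e2 : (n.choose k : ℝ) ≤ (2 : ℝ) ^ (2 * m - 3) := by exact_mod_cast e1
    have e3 : (4 : ℝ) ^ m = 2 ^ (2 * m - 3) * 8 := by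
      rw [show (8 : ℝ) = 2 ^ 3 by norm_num, ← pow_add, show 2 * m - 3 + 3 = 2 * m by omega, pow_mul]
      norm_num
    rw [e3]
    linarith
  have hm1 : (1 : ℝ) ≤ m := by linarith
  have hbp : b ^ y ≤ 2 * (m : ℝ) ^ 7 := by
    rcases Nat.lt_or_ge y 2 with h | h
    · have hy : y = 1 := by omega
      subst hy
      rw [pow_one]
      have e1 : b ≤ 2 * m := by
        push_cast at hb
        linarith
      have e2 : (m : ℝ) ≤ (m : ℝ) ^ 7 := le_self_pow₀ hm1 (by norm_num)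
      linarith
    · have e1 : b ≤ m := by
        refine hb.trans ?_
        interval_cases y <;> push_cast <;> linarith
      calc b ^ y ≤ (m : ℝ) ^ y := pow_le_pow_left₀ hb0 e1 y
        _ ≤ (m : ℝ) ^ 7 := pow_le_pow_right₀ hm1 h2
        _ ≤ 2 * (m : ℝ) ^ 7 := by linarith [pow_nonneg (le_trans zero_le_one hm1) 7]
  calc (n.choose k : ℝ) * b ^ y ≤ 4 ^ m / 8 * (2 * (m : ℝ) ^ 7) :=
        mul_le_mul hc hbp (pow_nonneg hb0 y) (by positivity)
    _ = 4 ^ m * (m : ℝ) ^ 7 / 4 := by ring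

/-- the crude bound for all four parts -/
theorem tail {n k m y : ℕ} {b : ℝ} (hm : 32 ≤ m) (h1 : 1 ≤ y) (h2 : y ≤ 7) (hn : n + 3 ≤ 2 * m)
    (hb0 : 0 ≤ b) (hb : b ≤ ((y : ℝ) + 1) / 2 + (2 * (m : ℝ) - 3 - y) / y) :
    (n.choose k : ℝ) * b ^ y * 51000 ≤ 1200 * (m.factorial : ℝ) := by
  have e1 := crude (k := k) hm h1 h2 hn hb0 hb
  have e2 := bigA hm
  nlinarith

theorem tail4 {n k m y : ℕ} {b : ℝ} (hm : 32 ≤ m) (h1 : 1 ≤ y) (h2 : y ≤ 7) (hn : n + 3 ≤ 2 * m)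
    (hb0 : 0 ≤ b) (hb : b ≤ ((y : ℝ) + 1) / 2 + (2 * (m : ℝ) - 3 - y) / y) :
    (n.choose k : ℝ) * b ^ y * (1275000 * (4 / 3) ^ (m - 3 - y)) ≤ 178200 * (m.factorial : ℝ) := by
  have e1 := crude (k := k) hm h1 h2 hn hb0 hb
  have e2 := bigB hm
  have e3 : (4 / 3 : ℝ) ^ (m - 3 - y) ≤ (4 / 3) ^ m :=
    pow_le_pow_right₀ (by norm_num) (by omega)
  have e4 : (0 : ℝ) ≤ (n.choose k : ℝ) * b ^ y := by positivity
  have e5 : (16 / 3 : ℝ) ^ m = 4 ^ m * (4 / 3) ^ m := by rw [← mul_pow]; norm_num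
  calc (n.choose k : ℝ) * b ^ y * (1275000 * (4 / 3) ^ (m - 3 - y))
      ≤ (4 ^ m * (m : ℝ) ^ 7 / 4) * (1275000 * (4 / 3) ^ m) := by gcongr
    _ = 318750 * ((16 / 3 : ℝ) ^ m * (m : ℝ) ^ 7) := by rw [e5]; ring
    _ ≤ 178200 * (m.factorial : ℝ) := by
        have e6 : (0 : ℝ) ≤ (m.factorial : ℝ) := by positivity
        nlinarith

theorem base_eq {y a : ℕ} (hy : 1 ≤ y) :
    (((y : ℝ) + 1) / 2 + (a : ℝ) / y) = ((y * (y + 1) + 2 * a : ℕ) : ℝ) / (2 * y) := by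
  have hy0 : (0 : ℝ) < y := by exact_mod_cast hy
  push_cast
  field_simp

theorem part1 {m y : ℕ} (hm : 16 ≤ m) (h1 : 1 ≤ y) (h2 : y ≤ 7) :
    ((2 * m - 3 - y).choose (m - 3) : ℝ) *
      (((y : ℝ) + 1) / 2 + (2 * (m : ℝ) - 3 - y) / y) ^ y * 51000 ≤ 75 * m * (m.factorial : ℝ) := by
  have hm' : (16 : ℝ) ≤ m := by exact_mod_cast hm
  have hy0 : (0 : ℝ) < y := by exact_mod_cast h1
  have hy7 : (y : ℝ) ≤ 7 := by exact_mod_cast h2
  have hf : (0 : ℝ) ≤ (m.factorial : ℝ) := by positivity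
  rcases Nat.lt_or_ge m 32 with h | h
  · have hc := all_ok hm h h1 h2
    unfold chkAll at hc
    rw [Bool.and_eq_true, Bool.and_eq_true, Bool.and_eq_true] at hc
    have e := of_chk (by omega) h1 hc.1.1.1
    have e2 : (2 * (m : ℝ) - 3 - y) = ((2 * m - 3 - y : ℕ) : ℝ) := by
      rw [Nat.cast_sub (by omega), Nat.cast_sub (by omega)]
      push_cast
      ring
    rw [e2, base_eq h1]
    push_cast at e ⊢
    linarith
  · have e := tail (n := 2 * m - 3 - y) (k := m - 3) h h1 h2 (by omega)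
      (b := ((y : ℝ) + 1) / 2 + (2 * (m : ℝ) - 3 - y) / y)
      (by
        have : 0 ≤ (2 * (m : ℝ) - 3 - y) / y := div_nonneg (by linarith) hy0.le
        linarith) le_rfl
    have h32 : (32 : ℝ) ≤ m := by exact_mod_cast h
    nlinarith

theorem part2 {m y : ℕ} (hm : 16 ≤ m) (h1 : 1 ≤ y) (h2 : y ≤ 7) :
    ((2 * m - 2 - y).choose (m - 3) : ℝ) *
      (((y : ℝ) + 1) / 2 + (2 * (m : ℝ) - 3 - 2 * y) / y) ^ y * 51000 ≤
      75 * m * (m.factorial : ℝ) := by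
  have hm' : (16 : ℝ) ≤ m := by exact_mod_cast hm
  have hy0 : (0 : ℝ) < y := by exact_mod_cast h1
  have hy7 : (y : ℝ) ≤ 7 := by exact_mod_cast h2
  have hf : (0 : ℝ) ≤ (m.factorial : ℝ) := by positivity
  rcases Nat.lt_or_ge m 32 with h | h
  · have hc := all_ok hm h h1 h2
    unfold chkAll at hc
    rw [Bool.and_eq_true, Bool.and_eq_true, Bool.and_eq_true] at hc
    have e := of_chk (by omega) h1 hc.1.1.2
    have e2 : (2 * (m : ℝ) - 3 - 2 * y) = ((2 * m - 3 - 2 * y : ℕ) : ℝ) := by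
      rw [Nat.cast_sub (by omega), Nat.cast_sub (by omega)]
      push_cast
      ring
    rw [e2, base_eq h1]
    push_cast at e ⊢
    linarith
  · have e := tail (n := 2 * m - 2 - y) (k := m - 3) h h1 h2 (by omega)
      (b := ((y : ℝ) + 1) / 2 + (2 * (m : ℝ) - 3 - 2 * y) / y)
      (by
        have : 0 ≤ (2 * (m : ℝ) - 3 - 2 * y) / y := div_nonneg (by linarith) hy0.le
        linarith)
      (by
        have : (2 * (m : ℝ) - 3 - 2 * y) / y ≤ (2 * (m : ℝ) - 3 - y) / y :=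
          div_le_div_of_nonneg_right (by linarith) hy0.le
        linarith)
    have h32 : (32 : ℝ) ≤ m := by exact_mod_cast h
    nlinarith

theorem part3 {m y : ℕ} (hm : 16 ≤ m) (h1 : 1 ≤ y) (h2 : y ≤ 7) :
    ((2 * m - 2 - y).choose (m - 3) : ℝ) *
      (((y : ℝ) + 1) / 2 + ((m : ℝ) - 1 - y) / y) ^ y * 51000 ≤
      50 * (m.factorial : ℝ) * ((m : ℝ) - 1 - y) := by
  have hm' : (16 : ℝ) ≤ m := by exact_mod_cast hm
  have hy0 : (0 : ℝ) < y := by exact_mod_cast h1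
  have hy7 : (y : ℝ) ≤ 7 := by exact_mod_cast h2
  have hf : (0 : ℝ) ≤ (m.factorial : ℝ) := by positivity
  rcases Nat.lt_or_ge m 32 with h | h
  · have hc := all_ok hm h h1 h2
    unfold chkAll at hc
    rw [Bool.and_eq_true, Bool.and_eq_true, Bool.and_eq_true] at hc
    have e := of_chk (by omega) h1 hc.1.2
    have e2 : ((m : ℝ) - 1 - y) = ((m - 1 - y : ℕ) : ℝ) := by
      rw [Nat.cast_sub (by omega), Nat.cast_sub (by omega)]
      push_cast
      ring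
    rw [e2, base_eq h1]
    push_cast at e ⊢
    linarith
  · have e := tail (n := 2 * m - 2 - y) (k := m - 3) h h1 h2 (by omega)
      (b := ((y : ℝ) + 1) / 2 + ((m : ℝ) - 1 - y) / y)
      (by
        have : 0 ≤ ((m : ℝ) - 1 - y) / y := div_nonneg (by linarith) hy0.le
        linarith)
      (by
        have : ((m : ℝ) - 1 - y) / y ≤ (2 * (m : ℝ) - 3 - y) / y :=
          div_le_div_of_nonneg_right (by linarith) hy0.le
        linarith)
    have h32 : (32 : ℝ) ≤ m := by exact_mod_cast h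
    nlinarith

theorem part4 {m y : ℕ} (hm : 16 ≤ m) (h1 : 1 ≤ y) (h2 : y ≤ 7) :
    ((2 * m - 2 - y).choose (m - 3) : ℝ) *
      (((y : ℝ) + 1) / 2 + ((m : ℝ) - 3 - y) / y) ^ y * (1275000 * (4 / 3) ^ (m - 3 - y)) ≤
      225 * (m.factorial : ℝ) * ((m : ℝ) + 1) * ((m : ℝ) - 1 - y) := by
  have hm' : (16 : ℝ) ≤ m := by exact_mod_cast hm
  have hy0 : (0 : ℝ) < y := by exact_mod_cast h1
  have hy7 : (y : ℝ) ≤ 7 := by exact_mod_cast h2
  have hf : (0 : ℝ) ≤ (m.factorial : ℝ) := by positivity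
  rcases Nat.lt_or_ge m 32 with h | h
  · have hc := all_ok hm h h1 h2
    unfold chkAll at hc
    rw [Bool.and_eq_true, Bool.and_eq_true, Bool.and_eq_true] at hc
    have e := of_chk (by omega) h1 hc.2
    have e2 : ((m : ℝ) - 3 - y) = ((m - 3 - y : ℕ) : ℝ) := by
      rw [Nat.cast_sub (by omega), Nat.cast_sub (by omega)]
      push_cast
      ring
    have e3 : ((m : ℝ) - 1 - y) = ((m - 1 - y : ℕ) : ℝ) := by
      rw [Nat.cast_sub (by omega), Nat.cast_sub (by omega)]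
      push_cast
      ring
    rw [e2, e3, base_eq h1, div_pow (4 : ℝ) 3]
    rw [← mul_div_assoc, ← mul_div_assoc, div_le_iff₀ (by positivity)]
    push_cast at e ⊢
    linarith
  · have e := tail4 (n := 2 * m - 2 - y) (k := m - 3) h h1 h2 (by omega)
      (b := ((y : ℝ) + 1) / 2 + ((m : ℝ) - 3 - y) / y)
      (by
        have : 0 ≤ ((m : ℝ) - 3 - y) / y := div_nonneg (by linarith) hy0.le
        linarith)
      (by
        have : ((m : ℝ) - 3 - y) / y ≤ (2 * (m : ℝ) - 3 - y) / y :=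
          div_le_div_of_nonneg_right (by linarith) hy0.le
        linarith)
    have h32 : (32 : ℝ) ≤ m := by exact_mod_cast h
    refine e.trans ?_
    have e4 : (178200 : ℝ) ≤ 225 * (((m : ℝ) + 1) * ((m : ℝ) - 1 - y)) := by nlinarith
    calc 178200 * (m.factorial : ℝ)
        ≤ 225 * (((m : ℝ) + 1) * ((m : ℝ) - 1 - y)) * (m.factorial : ℝ) :=
          mul_le_mul_of_nonneg_right e4 hf
      _ = 225 * (m.factorial : ℝ) * ((m : ℝ) + 1) * ((m : ℝ) - 1 - y) := by ring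

end NFS

theorem blk_NFS : Stmt_NFS := by
  intro m y hm h1 h2
  have hm' : (16 : ℝ) ≤ m := by exact_mod_cast hm
  have hy7 : (y : ℝ) ≤ 7 := by exact_mod_cast h2
  have hf : (0 : ℝ) < (m.factorial : ℝ) := by exact_mod_cast Nat.factorial_pos m
  refine ⟨?_, ?_, ?_, ?_⟩
  · have e := NFS.part1 hm h1 h2
    rw [div_le_iff₀ (by positivity)]
    linarith
  · have e := NFS.part2 hm h1 h2
    rw [div_le_iff₀ (by positivity)]
    linarith
  · have e := NFS.part3 hm h1 h2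
    have h3 : (0 : ℝ) < (m : ℝ) - 1 - y := by linarith
    rw [div_le_iff₀ (by positivity)]
    linarith
  · have e := NFS.part4 hm h1 h2
    have h3 : (0 : ℝ) < (m : ℝ) - 1 - y := by linarith
    have hw : ww (m - 3 - y) = 3 / 25 * ((m : ℝ) - 1 - y) * (3 / 4) ^ (m - 3 - y) := by
      unfold ww
      rw [if_neg (by omega)]
      rw [Nat.cast_sub (by omega), Nat.cast_sub (by omega)]
      push_cast
      ring
    rw [hw]
    have hp : (4 / 3 : ℝ) ^ (m - 3 - y) * (3 / 4) ^ (m - 3 - y) = 1 := by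
      rw [← mul_pow]
      norm_num
    set P := (4 / 3 : ℝ) ^ (m - 3 - y) with hP
    set R := (3 / 4 : ℝ) ^ (m - 3 - y) with hR
    have hR0 : 0 < R := by positivity
    rw [div_le_iff₀ (by positivity)]
    set Z := ((2 * m - 2 - y).choose (m - 3) : ℝ) *
      (((y : ℝ) + 1) / 2 + ((m : ℝ) - 3 - y) / y) ^ y with hZ
    have e' := mul_le_mul_of_nonneg_right e hR0.le
    have e2 : Z * (1275000 * P) * R = 1275000 * Z := by
      calc Z * (1275000 * P) * R = 1275000 * Z * (P * R) := by ring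
        _ = 1275000 * Z := by rw [hp, mul_one]
    rw [e2] at e'
    have e3 : 51 / 25 * ((2 * m - 2 - y).choose (m - 3) : ℝ) *
        (((y : ℝ) + 1) / 2 + ((m : ℝ) - 3 - y) / y) ^ y = 51 / 25 * Z := by rw [hZ]; ring
    rw [e3]
    linarith

end Pool.JM.LR
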