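import Pool.Agent.Work.MP_46fa68_56.NR2

/-!
# MP_46fa68_co, LEMMA R: block NL2 (layer 2)
-/

set_option autoImplicit false

open Finset

namespace Pool.JM.LR

namespace NL2

/-- the first term decreases in `m` -/
theorem first {x a j w : ℝ} (hax : a ≤ x) (hj : 0 ≤ j) (ha : 0 < a - 2 - j) (hw : 0 ≤ w) :
    (x - 2) / (x - 2 - j) * (w + 51 / 50 / (x - 1)) ≤
      (a - 2) / (a - 2 - j) * (w + 51 / 50 / (a - 1)) := by
  have h1 : (x - 2) / (x - 2 - j) ≤ (a - 2) / (a - 2 - j) := by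
    rw [div_le_div_iff₀ (by linarith) ha]
    nlinarith
  have h2 : 51 / 50 / (x - 1) ≤ 51 / 50 / (a - 1) :=
    div_le_div_of_nonneg_left (by norm_num) (by linarith) (by linarith)
  have h3 : 0 ≤ 51 / 50 / (x - 1) := div_nonneg (by norm_num) (by linarith)
  have h4 : 0 ≤ (a - 2) / (a - 2 - j) := div_nonneg (by linarith) ha.le
  exact mul_le_mul h1 (by linarith) (by linarith) h4

theorem second (hN : Stmt_NR2) {m j : ℕ} {c : ℝ} (hm : 16 ≤ m) (hj : 1 ≤ j) (h : j + 11 ≤ m)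
    (hc0 : 0 < c) (e2 : c ≤ (4 / 3) ^ (j + 1)) :
    cB m (j + 4) * TB m (j + 4) * (4 / 3) ^ (j + 2) * (m / ((m : ℝ) - 1)) ≤
      68 / 1000 / c * (16 / 15) := by
  have hm' : (16 : ℝ) ≤ m := by exact_mod_cast hm
  have e := (hN m hm).2.2.2.2 (j + 4) (by omega) (by omega)
  have hS : 0 ≤ cB m (j + 4) * TB m (j + 4) * (4 / 3) ^ (j + 2) :=
    mul_nonneg (mul_nonneg (cB_pos hm).le (TB_pos hm (by omega)).le) (by positivity)
  have e1 : (4 / 3 : ℝ) ^ (2 * (j + 4) - 5) = (4 / 3) ^ (j + 2) * (4 / 3) ^ (j + 1) := by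
    rw [← pow_add]
    congr 1
    omega
  rw [e1, ← mul_assoc] at e
  set S := cB m (j + 4) * TB m (j + 4) * (4 / 3) ^ (j + 2) with hSd
  have e3 : S ≤ 68 / 1000 / c := by
    rw [le_div_iff₀ hc0]
    exact (mul_le_mul_of_nonneg_left e2 hS).trans e
  have e4 : (m : ℝ) / ((m : ℝ) - 1) ≤ 16 / 15 := by
    rw [div_le_div_iff₀ (by linarith) (by norm_num)]
    linarith
  calc S * ((m : ℝ) / ((m : ℝ) - 1)) ≤ S * (16 / 15) := mul_le_mul_of_nonneg_left e4 hS
    _ ≤ 68 / 1000 / c * (16 / 15) := mul_le_mul_of_nonneg_right e3 (by norm_num)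

theorem third {m j : ℕ} (hm : 16 ≤ m) (h : j + 4 ≤ m) :
    ((j : ℝ) + 2) / ((m : ℝ) - 1) ≤ 1 := by
  have hm' : (16 : ℝ) ≤ m := by exact_mod_cast hm
  have h' : (j : ℝ) + 4 ≤ m := by exact_mod_cast h
  rw [div_le_one (by linarith)]
  linarith

theorem ww_val {j : ℕ} (hj : 1 ≤ j) : ww j = 3 / 25 * ((j : ℝ) + 2) * (3 / 4) ^ j := by
  unfold ww
  rw [if_neg (by omega)]

theorem long (hA : Stmt_WWA) {m j : ℕ} (hm : 16 ≤ m) (hj : 9 ≤ j) :
    ((m : ℝ) - 2) / m * Real.exp 1 * (ww j + 51 / 50 / ((m : ℝ) - 1)) ≤ 4545 / 10000 := by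
  have hm' : (16 : ℝ) ≤ m := by exact_mod_cast hm
  have h1 : ((m : ℝ) - 2) / m ≤ 1 := by
    rw [div_le_one (by linarith)]
    linarith
  have h1' : 0 ≤ ((m : ℝ) - 2) / m := div_nonneg (by linarith) (by linarith)
  have h2 : Real.exp 1 ≤ 27183 / 10000 := by linarith [Real.exp_one_lt_d9]
  have h3 : ww j ≤ 9912 / 100000 := by
    refine (hA.2.1 9 j hj).trans ?_
    rw [ww_val (by norm_num)]
    norm_num
  have h4 : 51 / 50 / ((m : ℝ) - 1) ≤ 68 / 1000 := by
    rw [div_le_iff₀ (by linarith)]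
    linarith
  have h5 : 0 ≤ 51 / 50 / ((m : ℝ) - 1) := div_nonneg (by norm_num) (by linarith)
  have h6 : 0 ≤ ww j := (hA.1 j).le
  calc ((m : ℝ) - 2) / m * Real.exp 1 * (ww j + 51 / 50 / ((m : ℝ) - 1))
      ≤ 1 * (27183 / 10000) * (9912 / 100000 + 68 / 1000) := by
        refine mul_le_mul (mul_le_mul h1 h2 (Real.exp_pos 1).le (by norm_num)) (by linarith)
          (by linarith) (by norm_num)
    _ ≤ 4545 / 10000 := by norm_num

theorem short {m j : ℕ} (hm : 16 ≤ m) (h1 : 1 ≤ j) (h8 : j ≤ 8) (h : j + 11 ≤ m) :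
    ((m : ℝ) - 2) / ((m : ℝ) - 2 - j) * (ww j + 51 / 50 / ((m : ℝ) - 1)) ≤ 435 / 1000 := by
  have hm' : (16 : ℝ) ≤ m := by exact_mod_cast hm
  have h' : (j : ℝ) + 11 ≤ m := by exact_mod_cast h
  rw [ww_val h1]
  interval_cases j
  · refine (first hm' (by norm_num) (by norm_num) (by norm_num)).trans ?_
    norm_num
  · refine (first hm' (by norm_num) (by norm_num) (by norm_num)).trans ?_
    norm_num
  · refine (first hm' (by norm_num) (by norm_num) (by norm_num)).trans ?_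
    norm_num
  · refine (first hm' (by norm_num) (by norm_num) (by norm_num)).trans ?_
    norm_num
  · refine (first hm' (by norm_num) (by norm_num) (by norm_num)).trans ?_
    norm_num
  · refine (first (a := 17) (by push_cast at h'; linarith) (by norm_num) (by norm_num)
      (by norm_num)).trans ?_
    norm_num
  · refine (first (a := 18) (by push_cast at h'; linarith) (by norm_num) (by norm_num)
      (by norm_num)).trans ?_
    norm_num
  · refine (first (a := 19) (by push_cast at h'; linarith) (by norm_num) (by norm_num)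
      (by norm_num)).trans ?_
    norm_num

theorem middle {m j : ℕ} (hm : 16 ≤ m) (h1 : 1 ≤ j) (h8 : j ≤ 8) (h : m ≤ j + 10) :
    ((m : ℝ) - 2) / ((m : ℝ) - 2 - j) * (ww j + 51 / 50 / ((m : ℝ) - 1)) +
      15 / 1000 * (((j : ℝ) + 2) / ((m : ℝ) - 1)) ≤ 22 / 45 := by
  rw [ww_val h1]
  have h6 : 6 ≤ j := by omega
  have h18 : m ≤ 18 := by omega
  interval_cases j <;> interval_cases m <;> first | omega | norm_num

end NL2

theorem blk_NL2 (hA : Stmt_WWA) (_hC : Stmt_CF) (hN : Stmt_NR2) : Stmt_NL2 := by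
  intro m j hm h1 h4
  have e3 := NL2.third hm h4
  refine ⟨fun h8 h => ?_, fun h8 h => NL2.middle hm h1 h8 h, fun h9 h => ?_, fun h9 _ => ?_⟩
  · have e1 := NL2.short hm h1 h8 h
    have e2 := NL2.second (c := (4 / 3) ^ 2) hN hm h1 h (by norm_num)
      (pow_le_pow_right₀ (by norm_num) (by omega))
    norm_num at e2
    linarith
  · have e1 := NL2.long hA hm h9
    have e2 := NL2.second (c := (4 / 3) ^ 10) hN hm h1 h (by norm_num)
      (pow_le_pow_right₀ (by norm_num) (by omega))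
    have e4 : (68 / 1000 / (4 / 3) ^ 10 * (16 / 15) : ℝ) ≤ 5 / 1000 := by norm_num
    have : ((m : ℝ) - 2) / m * Real.exp 1 * (ww j + 51 / 50 / ((m : ℝ) - 1)) +
        cB m (j + 4) * TB m (j + 4) * (4 / 3) ^ (j + 2) * (m / ((m : ℝ) - 1)) +
        13 / 1000 * (((j : ℝ) + 2) / ((m : ℝ) - 1)) ≤ 4545 / 10000 + 5 / 1000 + 13 / 1000 := by
      linarith
    refine this.trans ?_
    norm_num
  · have e1 := NL2.long hA hm h9
    linarith

end Pool.JM.LR
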