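import Pool.Agent.Work.MP_46fa68_56.CF

/-!
# MP_46fa68_co, LEMMA R: block NR2
-/

set_option autoImplicit false

open Finset

namespace Pool.JM.LR

theorem TB3 (m : ℕ) : TB m 3 = 2898 / 10000 + 51 / 50 / (m : ℝ) := by
  unfold TB
  norm_num

theorem TB4 (m : ℕ) : TB m 4 = 224 / 1000 + 51 / 50 / ((m : ℝ) + 1) := by
  unfold TB
  norm_num
  congr 1
  ring

theorem TB_ge5 {m p : ℕ} (hp : 5 ≤ p) : TB m p = 51 / 50 / (p : ℝ) + 51 / 50 / ((m : ℝ) - 3 + p) := by
  unfold TB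
  rw [if_neg (by omega), if_neg (by omega), if_neg (by omega), if_neg (by omega)]

theorem TB_pos {m p : ℕ} (hm : 16 ≤ m) (hp : 5 ≤ p) : 0 < TB m p := by
  have hmr : (16 : ℝ) ≤ m := by exact_mod_cast hm
  have hpr : (5 : ℝ) ≤ p := by exact_mod_cast hp
  rw [TB_ge5 hp]
  have h1 : 0 < (m : ℝ) - 3 + p := by linarith
  have h2 : 0 < (p : ℝ) := by linarith
  positivity

theorem TB_anti {m p : ℕ} (hm : 16 ≤ m) (hp : 5 ≤ p) : TB m (p + 1) ≤ TB m p := by
  have hmr : (16 : ℝ) ≤ m := by exact_mod_cast hm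
  have hpr : (5 : ℝ) ≤ p := by exact_mod_cast hp
  rw [TB_ge5 hp, TB_ge5 (by omega : 5 ≤ p + 1)]
  push_cast
  have h1 : 0 < (m : ℝ) - 3 + p := by linarith
  have h2 : 0 < (p : ℝ) := by linarith
  have a1 : 51 / 50 / ((p : ℝ) + 1) ≤ 51 / 50 / (p : ℝ) :=
    div_le_div_of_nonneg_left (by norm_num) h2 (by linarith)
  have a2 : 51 / 50 / ((m : ℝ) - 3 + (p + 1)) ≤ 51 / 50 / ((m : ℝ) - 3 + p) :=
    div_le_div_of_nonneg_left (by norm_num) h1 (by linarith)
  linarith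

/-- the ratio -/
theorem cB_ratio {m p : ℕ} (hm : 16 ≤ m) (hp : 5 ≤ p) (h : p + 8 ≤ m) :
    cB m (p + 1) ≤ 2 / 5 * cB m p := by
  have hs := cB_succ hm (by omega : 1 ≤ p) (by omega : p ≤ m)
  obtain ⟨a, rfl⟩ : ∃ a, p = a + 5 := ⟨p - 5, by omega⟩
  obtain ⟨b, rfl⟩ : ∃ b, m = a + 5 + 8 + b := ⟨m - (a + 5 + 8), by omega⟩
  have hB : 0 < cB (a + 5 + 8 + b) (a + 5) := cB_pos hm
  have ha : (0 : ℝ) ≤ a := Nat.cast_nonneg a
  have hb : (0 : ℝ) ≤ b := Nat.cast_nonneg b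
  have hpos : (0 : ℝ) < ((a : ℝ) + 5) * (b + 9) := by positivity
  refine le_of_mul_le_mul_right ?_ hpos
  have e : cB (a + 5 + 8 + b) (a + 5 + 1) * (((a : ℝ) + 5) * (b + 9)) =
      cB (a + 5 + 8 + b) (a + 5) * (2 * a + b + 16) := by
    have := hs
    push_cast at this
    have e1 : ((a : ℝ) + 5 + 8 + b + 1 - (a + 5)) = b + 9 := by ring
    have e2 : ((a : ℝ) + 5 + 8 + b - 2 + (a + 5)) = 2 * a + b + 16 := by ring
    rw [e1, e2] at this
    exact this
  rw [e]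
  have key : 2 * (a : ℝ) + b + 16 ≤ 2 / 5 * (((a : ℝ) + 5) * (b + 9)) := by nlinarith [mul_nonneg ha hb]
  nlinarith [mul_le_mul_of_nonneg_left key hB.le]

theorem prod5 {m : ℕ} (hm : 16 ≤ m) :
    cB m 5 * TB m 5 = ((m : ℝ) + 1) * ((m : ℝ) + 7) / (m * ((m : ℝ) - 3)) * (51 / 6000) := by
  have hmr : (16 : ℝ) ≤ m := by exact_mod_cast hm
  rw [cB5 hm, TB_ge5 (le_refl 5)]
  have q0 : (m : ℝ) ≠ 0 := by linarith
  have q1 : (m : ℝ) - 3 ≠ 0 := by linarith
  have q2 : (m : ℝ) + 2 ≠ 0 := by linarith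
  have e : (m : ℝ) - 3 + ((5 : ℕ) : ℝ) = m + 2 := by push_cast; ring
  rw [e]
  push_cast
  field_simp
  ring

theorem prod5_le {m : ℕ} (hm : 16 ≤ m) : cB m 5 * TB m 5 ≤ 16 / 1000 := by
  have hmr : (16 : ℝ) ≤ m := by exact_mod_cast hm
  rw [prod5 hm]
  have h : ((m : ℝ) + 1) * ((m : ℝ) + 7) / (m * ((m : ℝ) - 3)) ≤ 391 / 208 := by
    rw [div_le_div_iff₀ (mul_pos (by linarith) (by linarith)) (by norm_num)]
    nlinarith
  linarith

/-- the chain in `p` -/
theorem chain_e {m : ℕ} (hm : 16 ≤ m) : ∀ p : ℕ, 5 ≤ p → p + 7 ≤ m →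
    cB m p * TB m p * (4 / 3) ^ (2 * p - 5) ≤ 68 / 1000 := by
  intro p hp
  induction p, hp using Nat.le_induction with
  | base =>
    intro _
    have h := prod5_le hm
    have h5 := prod5 hm
    have hmr : (16 : ℝ) ≤ m := by exact_mod_cast hm
    have h' : ((m : ℝ) + 1) * ((m : ℝ) + 7) / (m * ((m : ℝ) - 3)) ≤ 391 / 208 := by
      rw [div_le_div_iff₀ (mul_pos (by linarith) (by linarith)) (by norm_num)]
      nlinarith
    rw [h5]
    norm_num
    linarith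
  | succ p hp ih =>
    intro h
    have ih' := ih (by omega)
    have hr := cB_ratio hm hp (by omega)
    have ht := TB_anti hm hp
    have hT : 0 < TB m p := TB_pos hm hp
    have hT' : 0 < TB m (p + 1) := TB_pos hm (by omega)
    have hB : 0 < cB m p := cB_pos hm
    have e : 2 * (p + 1) - 5 = (2 * p - 5) + 2 := by omega
    rw [e, pow_add]
    have hq : (0 : ℝ) < (4 / 3) ^ (2 * p - 5) := by positivity
    calc cB m (p + 1) * TB m (p + 1) * ((4 / 3) ^ (2 * p - 5) * (4 / 3) ^ 2)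
        ≤ (2 / 5 * cB m p) * TB m p * ((4 / 3) ^ (2 * p - 5) * (4 / 3) ^ 2) := by
          refine mul_le_mul_of_nonneg_right ?_ (by positivity)
          exact mul_le_mul hr ht hT'.le (by positivity)
      _ = (32 / 45) * (cB m p * TB m p * (4 / 3) ^ (2 * p - 5)) := by ring
      _ ≤ 68 / 1000 := by
          have : 0 ≤ cB m p * TB m p * (4 / 3) ^ (2 * p - 5) := by positivity
          linarith

theorem chain_a {m : ℕ} (hm : 16 ≤ m) : ∀ p : ℕ, 5 ≤ p → p + 7 ≤ m →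
    cB m p * TB m p * (4 / 3) ^ (p - 3) ≤ 78 / 1000 := by
  intro p hp
  induction p, hp using Nat.le_induction with
  | base =>
    intro _
    have h := prod5_le hm
    norm_num
    linarith
  | succ p hp ih =>
    intro h
    have ih' := ih (by omega)
    have hr := cB_ratio hm hp (by omega)
    have ht := TB_anti hm hp
    have hT : 0 < TB m p := TB_pos hm hp
    have hT' : 0 < TB m (p + 1) := TB_pos hm (by omega)
    have hB : 0 < cB m p := cB_pos hm
    have e : (p + 1) - 3 = (p - 3) + 1 := by omega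
    rw [e, pow_add]
    calc cB m (p + 1) * TB m (p + 1) * ((4 / 3) ^ (p - 3) * (4 / 3) ^ 1)
        ≤ (2 / 5 * cB m p) * TB m p * ((4 / 3) ^ (p - 3) * (4 / 3) ^ 1) := by
          refine mul_le_mul_of_nonneg_right ?_ (by positivity)
          exact mul_le_mul hr ht hT'.le (by positivity)
      _ = (8 / 15) * (cB m p * TB m p * (4 / 3) ^ (p - 3)) := by ring
      _ ≤ 78 / 1000 := by
          have : 0 ≤ cB m p * TB m p * (4 / 3) ^ (p - 3) := by positivity
          linarith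

theorem p34 {m : ℕ} (hm : 16 ≤ m) :
    cB m 3 * TB m 3 ≤ 15468 / 100000 ∧ cB m 4 * TB m 4 ≤ 5030 / 100000 := by
  have hmr : (16 : ℝ) ≤ m := by exact_mod_cast hm
  have h0 : (0 : ℝ) < m := by linarith
  constructor
  · rw [cB3 hm, TB3]
    have e : ((m : ℝ) - 2) / (2 * m) * (2898 / 10000 + 51 / 50 / (m : ℝ)) =
        (((m : ℝ) - 2) * (2898 / 10000 * m + 51 / 50)) / (2 * m ^ 2) := by
      field_simp
    rw [e, div_le_iff₀ (by positivity)]
    nlinarith
  · rw [cB4 hm, TB4]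
    have h1 : (m : ℝ) + 1 ≠ 0 := by linarith
    have e : ((m : ℝ) + 1) / (6 * m) * (224 / 1000 + 51 / 50 / ((m : ℝ) + 1)) =
        (224 / 1000 * ((m : ℝ) + 1) + 51 / 50) / (6 * m) := by
      field_simp
    rw [e, div_le_iff₀ (by positivity)]
    linarith

theorem blk_NR2 (_ : Stmt_CF) : Stmt_NR2 := by
  intro m hm
  have hmr : (16 : ℝ) ≤ m := by exact_mod_cast hm
  have h0 : (0 : ℝ) < m := by linarith
  obtain ⟨h3, h4⟩ := p34 hm
  refine ⟨?_, ?_, ?_, ?_, chain_e hm⟩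
  · intro p hp hpm
    rcases Nat.lt_or_ge p 5 with h | h
    · interval_cases p
      · norm_num
        linarith
      · norm_num
        linarith
    · have hc := chain_a hm p h hpm
      have hpr : (5 : ℝ) ≤ p := by exact_mod_cast h
      have e : cB m p * TB m p * ((4 / 3) ^ (p - 3) / ((p : ℝ) - 1)) =
          cB m p * TB m p * (4 / 3) ^ (p - 3) / ((p : ℝ) - 1) := by ring
      rw [e, div_le_iff₀ (by linarith)]
      nlinarith
  · linarith
  · rw [cB4 hm, TB4]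
    have h1 : (m : ℝ) + 1 ≠ 0 := by linarith
    have h2 : (m : ℝ) - 4 ≠ 0 := by linarith
    have e : ((m : ℝ) + 1) / (6 * m) * (224 / 1000 + 51 / 50 / ((m : ℝ) + 1)) *
        (((m : ℝ) - 2) / ((m : ℝ) - 4) / 2) =
        ((224 / 1000 * ((m : ℝ) + 1) + 51 / 50) * ((m : ℝ) - 2)) / (12 * m * ((m : ℝ) - 4)) := by
      field_simp
      ring
    rw [e, div_le_iff₀ (mul_pos (by positivity) (by linarith))]
    nlinarith
  · rw [cB4 hm, TB4]
    have h1 : (m : ℝ) + 1 ≠ 0 := by linarith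
    have h2 : (m : ℝ) - 5 ≠ 0 := by linarith
    have e : ((m : ℝ) + 1) / (6 * m) * (224 / 1000 + 51 / 50 / ((m : ℝ) + 1)) *
        (((m : ℝ) - 2) / ((m : ℝ) - 5)) =
        ((224 / 1000 * ((m : ℝ) + 1) + 51 / 50) * ((m : ℝ) - 2)) / (6 * m * ((m : ℝ) - 5)) := by
      field_simp
    rw [e, div_le_iff₀ (mul_pos (by positivity) (by linarith))]
    nlinarith

end Pool.JM.LR
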