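import Pool.Agent.Work.MP_46fa68_56.RDefs19

/-!
# MP_46fa68_co, block T1
-/

set_option autoImplicit false

open Finset

namespace Pool.JM.LR.RV

open Pool.JM.LR

theorem T1_sum (hA : Stmt_WWA) (n : ℕ) :
    ∑ q ∈ range n, ww (max q 1) / (q.factorial : ℝ) ≤ 73 / 100 := by
  rcases n with - | n
  · norm_num
  · have h1 := hA.2.2 (n + 1)
    rw [sum_range_succ'] at h1 ⊢
    have h2 : ∑ q ∈ range n, ww (max (q + 1) 1) / ((q + 1).factorial : ℝ) =
        ∑ q ∈ range n, ww (q + 1) / ((q + 1).factorial : ℝ) :=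
      sum_congr rfl fun q _ => by rw [Nat.max_eq_left (Nat.le_add_left 1 q)]
    rw [h2]
    have h3 : ww (max 0 1) = 27 / 100 := by
      unfold ww
      norm_num
    have h4 : ww 0 = 14 / 25 := by
      unfold ww
      norm_num
    rw [h3]
    rw [h4] at h1
    norm_num at h1 ⊢
    linarith

theorem blk_T1 (hA : Stmt_WWA) : Stmt_T1 := by
  intro m p hp
  have hp0 : (0 : ℝ) < p := by exact_mod_cast hp
  have h1 := T1_sum hA (m - 3)
  unfold Tq
  rw [le_div_iff₀ hp0, sum_mul]
  refine le_trans (sum_le_sum fun q _ => ?_) h1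
  have h2 := hA.1 (max q 1)
  have hf : (0 : ℝ) < (q.factorial : ℝ) := by exact_mod_cast q.factorial_pos
  have hq : (0 : ℝ) ≤ q := by positivity
  rw [div_mul_eq_mul_div, div_le_div_iff₀ (by positivity) hf]
  nlinarith [mul_nonneg (mul_nonneg h2.le hf.le) hq]

end Pool.JM.LR.RV
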