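import Pool.Agent.Work.MP_46fa68_31.NU1
import Pool.Agent.Work.MP_46fa68_56.RDefs

/-!
# MP_46fa68_co, LEMMA R: block WWA (the weights)
-/

set_option autoImplicit false

open Finset

namespace Pool.JM.LR

theorem WWA.wok : WOK ww := by
  constructor
  · unfold ww
    rw [if_pos rfl]
  · intro j hj
    unfold ww
    rw [if_neg (by omega)]

theorem blk_WWA : Stmt_WWA :=
  ⟨WWA.wok.pos, fun _ _ h => WWA.wok.anti h, fun n => (WWA.wok.sum_le n).trans (by norm_num)⟩

end Pool.JM.LR
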