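import Pool.Agent.Work.MP_46fa68_31.NU2
import Pool.Agent.Work.MP_46fa68_56.RDefs

/-!
# MP_46fa68_co, LEMMA R: block YBND (the bound of `YR` for the weights)
-/

set_option autoImplicit false

open Finset

namespace Pool.JM.LR

namespace YBND

/-- the one-body terms -/
theorem term1 {t p q : ℕ} (hp : 1 ≤ p) (hq : q ≤ t) {v m : ℝ} (hv : 0 ≤ v) (hm : 0 < m) :
    ((t + p).choose (t - q) : ℝ) * ((p + q - 1).choose q : ℝ) *
      (v / (m * ((t + 3 + q).factorial : ℝ))) ≤
    ((t + p).factorial : ℝ) / ((t.factorial : ℝ) * ((t + 3).factorial : ℝ) *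
      ((p - 1).factorial : ℝ) * m) * (v / ((q.factorial : ℝ) * ((p : ℝ) + q))) := by
  obtain ⟨r, rfl⟩ : ∃ r, p = r + 1 := ⟨p - 1, by omega⟩
  have c1 : ((t + (r + 1)).choose (t - q) : ℝ) =
      ((t + (r + 1)).factorial : ℝ) / (((t - q).factorial : ℝ) * ((r + 1 + q).factorial : ℝ)) := by
    rw [Nat.cast_choose ℝ (by omega), show t + (r + 1) - (t - q) = r + 1 + q by omega]
  have c2 : ((r + 1 + q - 1).choose q : ℝ) =
      ((r + q).factorial : ℝ) / ((q.factorial : ℝ) * (r.factorial : ℝ)) := by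
    rw [show r + 1 + q - 1 = r + q by omega, Nat.cast_choose ℝ (by omega),
      show r + q - q = r by omega]
  have f2 : ((r + 1 + q).factorial : ℝ) = ((r : ℝ) + 1 + q) * ((r + q).factorial : ℝ) := by
    rw [show r + 1 + q = (r + q) + 1 by omega, Nat.factorial_succ]
    push_cast
    ring
  have p0 : (0 : ℝ) < (t.factorial : ℝ) := by exact_mod_cast Nat.factorial_pos _
  have p1 : (0 : ℝ) < (q.factorial : ℝ) := by exact_mod_cast q.factorial_pos
  have p2 : (0 : ℝ) < ((t + 3).factorial : ℝ) := by exact_mod_cast Nat.factorial_pos _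
  have p3 : (0 : ℝ) < ((t + 3 + q).factorial : ℝ) := by exact_mod_cast Nat.factorial_pos _
  have p4 : (0 : ℝ) < ((t - q).factorial : ℝ) := by exact_mod_cast Nat.factorial_pos _
  have p5 : (0 : ℝ) < (r.factorial : ℝ) := by exact_mod_cast Nat.factorial_pos _
  have p6 : (0 : ℝ) < ((r + q).factorial : ℝ) := by exact_mod_cast Nat.factorial_pos _
  have p7 : (0 : ℝ) < ((t + (r + 1)).factorial : ℝ) := by exact_mod_cast Nat.factorial_pos _
  have p8 : (0 : ℝ) < ((r : ℝ) + 1 + q) := by positivity
  have g : (t.factorial : ℝ) * ((t + 3).factorial : ℝ) ≤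
      ((t - q).factorial : ℝ) * ((t + 3 + q).factorial : ℝ) := by
    exact_mod_cast fac_fac hq
  rw [c1, c2, f2, Nat.add_sub_cancel, Nat.cast_add, Nat.cast_one]
  have e1 : ((t + (r + 1)).factorial : ℝ) / (((t - q).factorial : ℝ) *
      (((r : ℝ) + 1 + q) * ((r + q).factorial : ℝ))) *
      (((r + q).factorial : ℝ) / ((q.factorial : ℝ) * (r.factorial : ℝ))) *
      (v / (m * ((t + 3 + q).factorial : ℝ))) =
      (((t + (r + 1)).factorial : ℝ) / ((r.factorial : ℝ) * m) *
        (v / ((q.factorial : ℝ) * ((r : ℝ) + 1 + q)))) *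
        (1 / (((t - q).factorial : ℝ) * ((t + 3 + q).factorial : ℝ))) := by
    field_simp
  have e2 : ((t + (r + 1)).factorial : ℝ) / ((t.factorial : ℝ) * ((t + 3).factorial : ℝ) *
      (r.factorial : ℝ) * m) * (v / ((q.factorial : ℝ) * ((r : ℝ) + 1 + q))) =
      (((t + (r + 1)).factorial : ℝ) / ((r.factorial : ℝ) * m) *
        (v / ((q.factorial : ℝ) * ((r : ℝ) + 1 + q)))) *
        (1 / ((t.factorial : ℝ) * ((t + 3).factorial : ℝ))) := by
    field_simp
  rw [e1, e2]
  refine mul_le_mul_of_nonneg_left ?_ (by positivity)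
  exact one_div_le_one_div_of_le (by positivity) g

/-- the terms of `W 0` -/
theorem term2 {t q : ℕ} {v m : ℝ} (hv : 0 ≤ v) (hm : 0 < m) :
    (t.choose q : ℝ) * (v / (m * ((t + 3 + q).factorial : ℝ))) ≤
      1 / (m * ((t + 3).factorial : ℝ)) * (v / (q.factorial : ℝ)) := by
  have a4 : (t.choose q : ℝ) * (q.factorial : ℝ) * ((t + 3).factorial : ℝ) ≤
    ((t + 3 + q).factorial : ℝ) := by exact_mod_cast choose_fac t q
  have p1 : (0 : ℝ) < (q.factorial : ℝ) := by exact_mod_cast q.factorial_pos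
  have p2 : (0 : ℝ) < ((t + 3).factorial : ℝ) := by exact_mod_cast Nat.factorial_pos _
  have p3 : (0 : ℝ) < ((t + 3 + q).factorial : ℝ) := by exact_mod_cast Nat.factorial_pos _
  have e1 : (t.choose q : ℝ) * (v / (m * ((t + 3 + q).factorial : ℝ))) =
      (v / m) * ((t.choose q : ℝ) / ((t + 3 + q).factorial : ℝ)) := by
    field_simp
  have e2 : 1 / (m * ((t + 3).factorial : ℝ)) * (v / (q.factorial : ℝ)) =
      (v / m) * (1 / ((q.factorial : ℝ) * ((t + 3).factorial : ℝ))) := by
    field_simp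
  rw [e1, e2]
  refine mul_le_mul_of_nonneg_left ?_ (by positivity)
  rw [div_le_div_iff₀ p3 (by positivity)]
  linarith

end YBND

theorem blk_YBND (hA : Stmt_WWA) : Stmt_YBND := by
  obtain ⟨hpos, hanti, hsum⟩ := hA
  intro m M p j hm hM hp hj C hC hCj
  obtain ⟨t, rfl⟩ : ∃ t, m = t + 3 := ⟨m - 3, by omega⟩
  rw [Nat.add_sub_cancel] at hM hj hC hCj ⊢
  have hW : ∀ i, 1 ≤ i → WR (t + 3) M i = WB (t + 3) M i := by
    intro i hi
    funext D
    unfold WR
    rw [if_neg (by omega)]
  have hW0 : WR (t + 3) M 0 (range M) = W0 M t (WR (t + 3) M) := by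
    have h1 : WR (t + 3) M 0 (range M) = W0 M (t + 3 - 3) (WB (t + 3) M) := by
      unfold WR
      rw [if_pos rfl]
    rw [h1, Nat.add_sub_cancel]
    unfold W0
    refine sum_congr rfl fun k _ => ?_
    rw [hW (k + 1) (by omega)]
  have hmp : (0 : ℝ) < ((t + 3 : ℕ) : ℝ) := by positivity
  obtain ⟨c, hc⟩ : ∃ c, c = if j = 0 then t + p else t - j := ⟨_, rfl⟩
  have hcC : ∀ x ∈ C, x < M + c := by
    intro x hx
    rw [hc]
    split_ifs with h0
    · exact (Lv_spec hC).2.2.1 x hx
    · rcases hCj with h | h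
      · exact absurd h h0
      · exact h x hx
  have h1 := STAR (T := t) (by omega) (W := WR (t + 3) M)
    (b := fun i c => ww (t - c) / (((t + 3 : ℕ) : ℝ) * ((t + 3 + t - i).factorial : ℝ)))
    (fun i hi1 hi2 c hc D hD hDc => by
      rw [hW i hi1]
      unfold WB
      rw [Nat.add_sub_cancel, mul_div_right_comm]
      refine mul_le_mul_of_nonneg_right ?_ (ex_pos D).le
      refine div_le_div_of_nonneg_right ?_ (by positivity)
      refine hanti _ _ ?_
      have h2 : tb D ∈ D := by
        refine (tb_mem' ?_).1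
        have := (Lv_spec hD).1
        omega
      have := hDc _ h2
      omega) hW0 (by omega : t < t + p) hC hcC
  refine h1.trans (mul_le_mul_of_nonneg_right ?_ (ex_pos C).le)
  unfold Yb
  rw [Nat.add_sub_cancel, mul_add]
  have hre : ∀ f : ℕ → ℝ, ∑ i ∈ Icc 1 t, f i = ∑ q ∈ range t, f (t - q) := by
    intro f
    refine sum_nbij' (fun i => t - i) (fun q => t - q) ?_ ?_ ?_ ?_ ?_
    · intro i hi
      rw [mem_Icc] at hi
      rw [mem_range]
      omega
    · intro q hq
      rw [mem_range] at hq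
      rw [mem_Icc]
      omega
    · intro i hi
      rw [mem_Icc] at hi
      omega
    · intro q hq
      rw [mem_range] at hq
      omega
    · intro i hi
      rw [mem_Icc] at hi
      rw [show t - (t - i) = i by omega]
  refine add_le_add ?_ ?_
  · rw [hre]
    unfold Tq
    rw [Nat.add_sub_cancel, mul_sum]
    refine sum_le_sum fun q hq => ?_
    have hq' := mem_range.1 hq
    have e1 : t - min c (t - q) = max q j := by
      rw [hc]
      split_ifs with h0
      · subst h0
        omega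
      · omega
    have e2 : t + p - (t - q) - 1 = p + q - 1 := by omega
    have e3 : t - (t - q) = q := by omega
    have e4 : t + 3 + t - (t - q) = t + 3 + q := by omega
    simp only [e1, e2, e3, e4]
    exact YBND.term1 hp hq'.le (hpos _).le hmp
  · rw [hre]
    have h2 : ∑ q ∈ range t, (t.choose (t - q) : ℝ) *
        (ww (t - (t - q)) / (((t + 3 : ℕ) : ℝ) * ((t + 3 + t - (t - q)).factorial : ℝ))) ≤
        1 / (((t + 3 : ℕ) : ℝ) * ((t + 3).factorial : ℝ)) * (51 / 50) := by
      refine le_trans ?_ (mul_le_mul_of_nonneg_left (hsum t) (by positivity))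
      rw [mul_sum]
      refine sum_le_sum fun q hq => ?_
      have hq' := mem_range.1 hq
      rw [show t - (t - q) = q by omega, show t + 3 + t - (t - q) = t + 3 + q by omega,
        Nat.choose_symm hq'.le]
      exact YBND.term2 (hpos _).le hmp
    have h3 : ((t + p - 1).choose t : ℝ) =
        ((t + p).factorial : ℝ) / (((t + p : ℕ) : ℝ) * (t.factorial : ℝ) *
          ((p - 1).factorial : ℝ)) := by
      obtain ⟨r, rfl⟩ : ∃ r, p = r + 1 := ⟨p - 1, by omega⟩
      rw [show t + (r + 1) - 1 = t + r by omega, Nat.cast_choose ℝ (by omega),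
        show t + r - t = r by omega, show t + (r + 1) = (t + r) + 1 by omega, Nat.factorial_succ,
        Nat.add_sub_cancel]
      have p1 : (t.factorial : ℝ) ≠ 0 := by exact_mod_cast Nat.factorial_ne_zero _
      have p2 : (r.factorial : ℝ) ≠ 0 := by exact_mod_cast Nat.factorial_ne_zero _
      have p3 : ((t + r + 1 : ℕ) : ℝ) ≠ 0 := by positivity
      rw [Nat.cast_mul]
      field_simp
    refine (mul_le_mul_of_nonneg_left h2 (by positivity)).trans (le_of_eq ?_)
    rw [h3]
    have p1 : (t.factorial : ℝ) ≠ 0 := by exact_mod_cast Nat.factorial_ne_zero _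
    have p2 : ((p - 1).factorial : ℝ) ≠ 0 := by exact_mod_cast Nat.factorial_ne_zero _
    have p3 : ((t + p : ℕ) : ℝ) ≠ 0 := by
      have : 0 < t + p := by omega
      positivity
    have p4 : ((t + 3).factorial : ℝ) ≠ 0 := by exact_mod_cast Nat.factorial_ne_zero _
    field_simp

end Pool.JM.LR
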