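import Pool.Agent.Work.MP_46fa68_56.VHW
import Pool.Agent.Work.MP_46fa68_56.WWA
import Pool.Agent.Work.MP_46fa68_56.YBND
import Pool.Agent.Work.MP_46fa68_56.HA
import Pool.Agent.Work.MP_46fa68_56.CF
import Pool.Agent.Work.MP_46fa68_56.NR2
import Pool.Agent.Work.MP_46fa68_56.NR3
import Pool.Agent.Work.MP_46fa68_56.NL2
import Pool.Agent.Work.MP_46fa68_56.NFS
import Pool.Agent.Work.MP_46fa68_56.T1
import Pool.Agent.Work.MP_46fa68_kr.TTN
import Pool.Agent.Work.MP_46fa68_kr.BASIC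
import Pool.Agent.Work.MP_46fa68_kr.HC
import Pool.Agent.Work.MP_46fa68_kr.HD
import Pool.Agent.Work.MP_46fa68_kr.NR1
import Pool.Agent.Work.MP_46fa68_67.NF1X
import Pool.Agent.Work.MP_46fa68_62.NF2

/-!
# MP_46fa68_co: the size of the lift, unconditional
-/

set_option autoImplicit false

open Finset

namespace Pool.JM.LR

theorem RVH_final : Stmt_RVH' :=
  RV.blk_RVH' blk_WWA (blk_YBND blk_WWA) (blk_TTN blk_WWA) (RV.blk_T1 blk_WWA) blk_BASIC blk_RANK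
    blk_HD blk_HC blk_HA blk_CF (blk_NR1 blk_CF) (blk_NR2 blk_CF) (RV.blk_NR3 blk_CF)
    (blk_NL2 blk_WWA blk_CF (blk_NR2 blk_CF)) blk_NFS blk_NF1 blk_NF1X blk_NF2 blk_ESUM

/-- **the size of the lift** (field `hVH` of `threshold_of`) -/
theorem VH_final {m : ℕ} (hm : 19 ≤ m) : Stmt_VH m (m - 3) (1 / 12) 2 (WR m) (VhB m) :=
  VH_of_RVH' RVH_final hm

end Pool.JM.LR
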