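import Pool.Agent.Work.MP_46fa68_56.RDefs

/-!
# MP_46fa68_co: LEMMA R, sharper constants for `m ≥ 19` in the layers `≥ 3` (interface)
-/

set_option autoImplicit false

open Finset

namespace Pool.JM.LR

/-- T1: `∑ ww (max q 1) / q! = .72861` -/
def Stmt_T1 : Prop := ∀ m p : ℕ, 1 ≤ p → Tq m p 1 ≤ 73 / 100 / p

/-- NR3, `m ≥ 19`. (a) [.18440 at m = 19]; (b) [.02769 at m = 19]; (c) [.17263 at m = 19, i = 4],
ratio in `i` as in NR1 (e). -/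
def Stmt_NR3 : Prop := ∀ m : ℕ, 19 ≤ m →
  cA m 3 * TB m 3 * ((((m : ℝ) - 2) * ((m : ℝ) - 1)) / ((m : ℝ) - 4)) ≤ 185 / 1000 ∧
  cA m 3 * TB m 3 * (((m : ℝ) - 2) / ((m : ℝ) - 3) * Real.exp (((m : ℝ) - 1) / ((m : ℝ) - 2))) ≤
    3 / 100 ∧
  (∀ i : ℕ, 4 ≤ i → i + 8 ≤ m →
    cA m i * (73 / 100 / (i : ℝ) + 51 / 50 / ((m : ℝ) - 3 + i)) *
      (((m : ℝ) - i + 1) * (4 / 3) ^ (2 * i - 3)) ≤ 175 / 1000)

/-- NF1X, `m ≥ 19`. (a) [.012363 at m = 21, y = 13]; (b) [.000505 at m = 19, y = 9]. -/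
def Stmt_NF1X : Prop := ∀ m y : ℕ, 19 ≤ m → 3 * y + 3 ≤ 2 * m →
  51 / 25 * 2 ^ (2 * m - 3 - y) *
    (if y = 0 then 1 else (((y : ℝ) + 1) / 2 + (2 * (m : ℝ) - 3 - 3 * y) / y) ^ y) /
    (m * (m.factorial : ℝ)) ≤ 125 / 10000 ∧
  (2 * y ≤ m → 51 / 25 * 2 ^ (2 * m - 3 - y) *
    (if y = 0 then 1 else (((y : ℝ) + 1) / 2 + (2 * (m : ℝ) - 3 - 3 * y) / y) ^ y) /
    (m * (m.factorial : ℝ)) ≤ 1 / 1000)

/-- the bound of the lift without the factor `q / (1 - q ν)` for `m ≥ 19`; `a`, `b` the first two rows -/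
noncomputable def Vh' (m a b : ℕ) : ℝ :=
  if a + 1 = m then 3 / 5
  else if a + 2 = m then
    (if b + 2 = m then 13 / 20 else if b + 3 = m then 13 / 50
      else 22 / 45 * (((m : ℝ) - 1) / (m * ((m : ℝ) - 1 - b))))
  else if a + 3 = m then 11 / 40 else 8 / 25

/-- RVH for `m ≥ 19` -/
def Stmt_RVH' : Prop := ∀ m M : ℕ, 19 ≤ m → m + (m - 3) < M → ∀ B ∈ Lv (M + 1) (m + (m - 3)),
  ∀ X ∈ B, (∀ z ∈ B, z ≤ X) → X < M + m → ∀ y ∈ B, y < X → (∀ z ∈ B, z < X → z ≤ y) →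
  ∑ x ∈ B, YR (m - 3) (WR m M) (m + (m - 3) + M - x) (B.erase x) ≤
    Vh' m (X - M) (y + 1 - M) * ex B

end Pool.JM.LR
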