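import Pool.Agent.Work.MP_46fa68_56.RDefs
import Pool.Agent.Work.MP_46fa68_T.LiftY

/-!
# MP_46fa68_co: LEMMA R, the size of the lift: one bead, the rows `≥ 3`
-/

set_option autoImplicit false

open Finset

namespace Pool.JM.LR.RV

open Pool.JM.LR

variable {m M : ℕ} {B : Finset ℕ}

theorem Yb_nonneg (hA : Stmt_WWA) (m p j : ℕ) : 0 ≤ Yb m p j := by
  unfold Yb Tq
  have h : 0 ≤ ∑ q ∈ range (m - 3), ww (max q j) / ((q.factorial : ℝ) * ((p : ℝ) + q)) :=
    sum_nonneg fun q _ => div_nonneg (hA.1 _).le (by positivity)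
  refine mul_nonneg (by positivity) (add_nonneg h (by positivity))

theorem cast_m3 (hm : 16 ≤ m) (p : ℕ) : ((m - 3 + p : ℕ) : ℝ) = (m : ℝ) - 3 + p := by
  rw [Nat.cast_add, Nat.cast_sub (by omega)]
  norm_num

theorem br_le (hT : Stmt_TTN) (hm : 16 ≤ m) {p : ℕ} (hp : 1 ≤ p) :
    Tq m p 0 + 51 / 50 / ((m - 3 + p : ℕ) : ℝ) ≤ TB m p := by
  obtain ⟨h1, h2, h3, h4, h5, -⟩ := hT m
  unfold TB
  rw [cast_m3 hm]
  have : Tq m p 0 ≤ (if p = 1 then 7528 / 10000 else if p = 2 then 41405 / 100000 else if p = 3 then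
      2898 / 10000 else if p = 4 then 224 / 1000 else 51 / 50 / (p : ℝ)) := by
    split_ifs with a b c d
    · rw [a]; exact h1
    · rw [b]; exact h2
    · rw [c]; exact h3
    · rw [d]; exact h4
    · exact h5 p 0 hp
  linarith

/-- the bound of the weight without cancellation -/
theorem Yb_far (hT : Stmt_TTN) (hm : 16 ≤ m) {p : ℕ} (hp : 1 ≤ p) :
    Yb m p 0 ≤ 51 / 25 * ((m - 3 + p).choose (m - 3) : ℝ) / (m * (m.factorial : ℝ)) := by
  obtain ⟨-, -, -, -, h5, -⟩ := hT m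
  have h1 := h5 p 0 hp
  have hp0 : (0 : ℝ) < p := by exact_mod_cast hp
  have h2 : (51 : ℝ) / 50 / ((m - 3 + p : ℕ) : ℝ) ≤ 51 / 50 / p := by
    refine div_le_div_of_nonneg_left (by norm_num) hp0 ?_
    exact_mod_cast Nat.le_add_left p (m - 3)
  have h3 : Tq m p 0 + 51 / 50 / ((m - 3 + p : ℕ) : ℝ) ≤ 51 / 25 / p := by
    have : (51 : ℝ) / 25 / p = 51 / 50 / p + 51 / 50 / p := by ring
    rw [this]
    exact add_le_add h1 h2
  unfold Yb
  refine (mul_le_mul_of_nonneg_left h3 (by positivity)).trans (le_of_eq ?_)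
  have h4 : ((m - 3 + p).choose (m - 3) : ℝ) =
      ((m - 3 + p).factorial : ℝ) / (((m - 3).factorial : ℝ) * (p.factorial : ℝ)) := by
    rw [Nat.cast_choose ℝ (Nat.le_add_right _ _), Nat.add_sub_cancel_left]
  have h6 : (p.factorial : ℝ) = p * ((p - 1).factorial : ℝ) := by
    exact_mod_cast (Nat.mul_factorial_pred (by omega : p ≠ 0)).symm
  rw [h4, h6]
  have a1 : ((m - 3).factorial : ℝ) ≠ 0 := by exact_mod_cast (m - 3).factorial_ne_zero
  have a2 : (m.factorial : ℝ) ≠ 0 := by exact_mod_cast m.factorial_ne_zero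
  have a3 : ((p - 1).factorial : ℝ) ≠ 0 := by exact_mod_cast (p - 1).factorial_ne_zero
  have a4 : (m : ℝ) ≠ 0 := by
    have : m ≠ 0 := by omega
    exact_mod_cast this
  field_simp

/-- one bead -/
theorem bead (hY : Stmt_YBND) (hS : Stmt_BASIC) (hm : 16 ≤ m) (hM : m + (m - 3) < M)
    (hB : B ∈ Lv (M + 1) (m + (m - 3))) {x : ℕ} (hx : x ∈ B) (hxw : x < M + m) {j : ℕ}
    (hj : j ≤ m - 3) (hc : j = 0 ∨ ∀ z ∈ B.erase x, z < M + (m - 3 - j)) :
    YR (m - 3) (WR m M) (m + (m - 3) + M - x) (B.erase x) ≤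
      Yb m (m + M - x) j * (hk B x / up B x) * ex B := by
  have h1 : m + (m - 3) + M - x = m - 3 + (m + M - x) := by omega
  have h2 : B.erase x ∈ Lv M (m - 3 + (m + M - x)) := by
    rw [← h1]
    exact erase_mem hB hx
  have h3 := hY m M (m + M - x) j hm hM (by omega) hj (B.erase x) h2 hc
  rw [h1]
  refine h3.trans (le_of_eq ?_)
  rw [(hS (M + 1) _ B hB x hx).2.2.2.2.1]
  ring

theorem rk_top {X : ℕ} (hX : X ∈ B) (ht : ∀ z ∈ B, z ≤ X) : rk B X = 1 := by
  unfold rk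
  have : B.filter (X ≤ ·) = {X} := by
    ext z
    simp only [mem_filter, mem_singleton]
    constructor
    · rintro ⟨h1, h2⟩
      exact le_antisymm (ht z h1) h2
    · rintro rfl
      exact ⟨hX, le_rfl⟩
  rw [this, card_singleton]

theorem up_top {X : ℕ} (ht : ∀ z ∈ B, z ≤ X) : up B X = 1 := by
  unfold up
  rw [filter_false_of_mem fun z hz => not_lt.2 (ht z hz), prod_empty]

theorem rk_second {X y : ℕ} (hX : X ∈ B) (ht : ∀ z ∈ B, z ≤ X) (hy : y ∈ B) (hyX : y < X)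
    (hs : ∀ z ∈ B, z < X → z ≤ y) : rk B y = 2 := by
  unfold rk
  have : B.filter (y ≤ ·) = {y, X} := by
    ext z
    simp only [mem_filter, mem_singleton, mem_insert]
    constructor
    · rintro ⟨h1, h2⟩
      rcases lt_or_eq_of_le (ht z h1) with h | h
      · exact Or.inl (le_antisymm (hs z h1 h) h2)
      · exact Or.inr h
    · rintro (rfl | rfl)
      · exact ⟨hy, le_rfl⟩
      · exact ⟨hX, hyX.le⟩
  rw [this, card_pair hyX.ne]

theorem rk_three {X y x : ℕ} (hX : X ∈ B) (hy : y ∈ B) (hyX : y < X) (hx : x ∈ B) (hxy : x < y) :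
    3 ≤ rk B x := by
  unfold rk
  have h1 : ({x, y, X} : Finset ℕ) ⊆ B.filter (x ≤ ·) := by
    intro z hz
    simp only [mem_insert, mem_singleton] at hz
    rcases hz with rfl | rfl | rfl
    · exact mem_filter.2 ⟨hx, le_rfl⟩
    · exact mem_filter.2 ⟨hy, hxy.le⟩
    · exact mem_filter.2 ⟨hX, (hxy.trans hyX).le⟩
  have h2 : ({x, y, X} : Finset ℕ).card = 3 := by
    rw [card_insert_of_notMem, card_pair hyX.ne]
    simp only [mem_insert, mem_singleton]
    omega
  rw [← h2]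
  exact card_le_card h1

theorem split {X y : ℕ} (hX : X ∈ B) (ht : ∀ z ∈ B, z ≤ X) (hy : y ∈ B) (hyX : y < X)
    (hs : ∀ z ∈ B, z < X → z ≤ y) (f : ℕ → ℝ) :
    ∑ x ∈ B, f x = f X + f y + ∑ x ∈ B.filter (· < y), f x := by
  have h1 : B = insert X (insert y (B.filter (· < y))) := by
    ext z
    simp only [mem_insert, mem_filter]
    constructor
    · intro hz
      rcases lt_or_eq_of_le (ht z hz) with h | h
      · rcases lt_or_eq_of_le (hs z hz h) with h' | h'
        · exact Or.inr (Or.inr ⟨hz, h'⟩)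
        · exact Or.inr (Or.inl h')
      · exact Or.inl h
    · rintro (rfl | rfl | h)
      · exact hX
      · exact hy
      · exact h.1
  conv_lhs => rw [h1]
  rw [sum_insert, sum_insert, add_assoc]
  · simp
  · simp only [mem_insert, mem_filter, not_or]
    refine ⟨hyX.ne', fun h => ?_⟩
    omega

/-- the sum over the rows `≥ 3` of a function of the number of the row -/
theorem sum_rows (hR : Stmt_RANK) {X y : ℕ} (hX : X ∈ B) (hy : y ∈ B) (hyX : y < X)
    (g : ℕ → ℝ) (hg : ∀ r, 0 ≤ g r) :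
    ∑ x ∈ B.filter (· < y), g (rk B x) ≤ ∑ r ∈ Icc 3 B.card, g r := by
  have h1 : ∑ x ∈ B.filter (· < y), g (rk B x) ≤ ∑ x ∈ B, (if 3 ≤ rk B x then g (rk B x) else 0) := by
    calc ∑ x ∈ B.filter (· < y), g (rk B x)
        = ∑ x ∈ B.filter (· < y), (if 3 ≤ rk B x then g (rk B x) else 0) := by
          refine sum_congr rfl fun x hx => ?_
          obtain ⟨h2, h3⟩ := mem_filter.1 hx
          rw [if_pos (rk_three hX hy hyX h2 h3)]
      _ ≤ _ := by
          refine sum_le_sum_of_subset_of_nonneg (filter_subset _ _) fun x _ _ => ?_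
          split_ifs
          · exact hg _
          · exact le_rfl
  refine h1.trans ?_
  rw [hR B fun r => if 3 ≤ r then g r else 0, ← sum_filter]
  refine le_of_eq (sum_congr ?_ fun _ _ => rfl)
  ext r
  simp only [mem_filter, mem_Icc]
  omega

/-- the hooks of a row, arithmetic-geometric mean, with a bound of the boxes below -/
theorem hk_le (hD : Stmt_HD) {x a : ℕ} (ha : gp B x = a) {L : ℝ} (hL : (bx B x : ℝ) ≤ L) :
    hk B x ≤ if a = 0 then 1 else (((a : ℝ) + 1) / 2 + L / a) ^ a := by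
  obtain ⟨h1, h2⟩ := hD B x
  split_ifs with h
  · rw [h1 (ha.trans h)]
  · have h3 := h2 (by omega)
    rw [ha] at h3
    refine h3.trans ?_
    have h4 : (0 : ℝ) < a := by
      have : 0 < a := by omega
      exact_mod_cast this
    gcongr

/-- **the rows `≥ 3`** -/
theorem rest (hA : Stmt_WWA) (hY : Stmt_YBND) (hT : Stmt_TTN) (hS : Stmt_BASIC) (hR : Stmt_RANK)
    (hD : Stmt_HD) (hF : Stmt_NF1) (hE : Stmt_ESUM) (hm : 16 ≤ m) (hM : m + (m - 3) < M)
    (hB : B ∈ Lv (M + 1) (m + (m - 3))) {X y : ℕ} (hX : X ∈ B) (ht : ∀ z ∈ B, z ≤ X)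
    (hXw : X < M + m) (hy : y ∈ B) (hyX : y < X) (hs : ∀ z ∈ B, z < X → z ≤ y) :
    ∑ x ∈ B.filter (· < y), YR (m - 3) (WR m M) (m + (m - 3) + M - x) (B.erase x) ≤
      12 / 100 * ex B := by
  have hex := ex_pos B
  have hbd : ∀ x ∈ B.filter (· < y), YR (m - 3) (WR m M) (m + (m - 3) + M - x) (B.erase x) ≤
      27 / 1000 * ex B * ((2 : ℝ) ^ (rk B x - 1) / ((rk B x - 1).factorial : ℝ)) := by
    intro x hx
    obtain ⟨hxB, hxy⟩ := mem_filter.1 hx
    have hr3 := rk_three hX hy hyX hxB hxy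
    obtain ⟨b1, b2, b3, b4, b5, b6, b7, b8, b9, -⟩ := hS (M + 1) _ B hB x hxB
    have h1 := bead hY hS hm hM hB hxB (by omega) (j := 0) (by omega) (Or.inl rfl)
    refine h1.trans ?_
    set a := gp B x with ha
    set r := rk B x with hr
    have h3a : 3 * a + bx B x ≤ 2 * m - 3 := by
      have : 3 * a ≤ r * a := Nat.mul_le_mul_right _ hr3
      omega
    have hp : m + M - x = m + (r - 1) - a := by omega
    have h2 : Yb m (m + M - x) 0 ≤ 51 / 25 * 2 ^ (2 * m - 3 - a) * 2 ^ (r - 1) /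
        (m * (m.factorial : ℝ)) := by
      refine (Yb_far hT hm (by omega)).trans ?_
      have h4 : ((m - 3 + (m + M - x)).choose (m - 3) : ℝ) ≤ 2 ^ (2 * m - 3 - a) * 2 ^ (r - 1) := by
        rw [← pow_add]
        have h5 := Nat.choose_le_two_pow (m - 3 + (m + M - x)) (m - 3)
        have h6 : m - 3 + (m + M - x) = 2 * m - 3 - a + (r - 1) := by omega
        rw [h6] at h5 ⊢
        exact_mod_cast h5
      rw [mul_assoc (51 / 25 : ℝ)]
      gcongr
    have h3 : hk B x ≤ if a = 0 then 1 else (((a : ℝ) + 1) / 2 + (2 * (m : ℝ) - 3 - 3 * a) / a) ^ a := by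
      refine hk_le hD ha.symm ?_
      have h4 : ((3 * a + bx B x : ℕ) : ℝ) ≤ ((2 * m - 3 : ℕ) : ℝ) := by exact_mod_cast h3a
      rw [Nat.cast_sub (by omega)] at h4
      push_cast at h4
      linarith
    have h4 := hF m a hm (by omega)
    set Z : ℝ := if a = 0 then 1 else (((a : ℝ) + 1) / 2 + (2 * (m : ℝ) - 3 - 3 * a) / a) ^ a with hZ
    have hZ0 : 0 ≤ Z := b7.le.trans h3
    have h5 : hk B x / up B x ≤ Z / ((r - 1).factorial : ℝ) := by
      have : (0 : ℝ) < ((r - 1).factorial : ℝ) := by exact_mod_cast Nat.factorial_pos _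
      gcongr
    have h6 : Yb m (m + M - x) 0 * (hk B x / up B x) ≤
        (51 / 25 * 2 ^ (2 * m - 3 - a) * 2 ^ (r - 1) / (m * (m.factorial : ℝ))) *
          (Z / ((r - 1).factorial : ℝ)) :=
      mul_le_mul h2 h5 (div_nonneg b7.le b6.le) (by positivity)
    calc Yb m (m + M - x) 0 * (hk B x / up B x) * ex B
        ≤ (51 / 25 * 2 ^ (2 * m - 3 - a) * 2 ^ (r - 1) / (m * (m.factorial : ℝ))) *
          (Z / ((r - 1).factorial : ℝ)) * ex B := mul_le_mul_of_nonneg_right h6 hex.le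
      _ = (51 / 25 * 2 ^ (2 * m - 3 - a) * Z / (m * (m.factorial : ℝ))) * ex B *
          ((2 : ℝ) ^ (r - 1) / ((r - 1).factorial : ℝ)) := by ring
      _ ≤ _ := by gcongr
  refine (sum_le_sum hbd).trans ?_
  rw [← mul_sum]
  have h1 := sum_rows hR hX hy hyX (fun r => (2 : ℝ) ^ (r - 1) / ((r - 1).factorial : ℝ))
    fun r => by positivity
  have h2 := h1.trans (hE B.card).1
  have h3 : (0 : ℝ) ≤ 27 / 1000 * ex B := by positivity
  nlinarith [mul_le_mul_of_nonneg_left h2 h3]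

/-- **the rows `≥ 3` in layer 2** -/
theorem rest2 (hA : Stmt_WWA) (hY : Stmt_YBND) (hT : Stmt_TTN) (hS : Stmt_BASIC) (hR : Stmt_RANK)
    (hD : Stmt_HD) (hF : Stmt_NF2) (hE : Stmt_ESUM) (hm : 16 ≤ m) (hM : m + (m - 3) < M)
    (hB : B ∈ Lv (M + 1) (m + (m - 3))) {X y : ℕ} (hX : X ∈ B) (ht : ∀ z ∈ B, z ≤ X)
    (hXw : X + 2 = M + m) (hy : y ∈ B) (hyX : y < X) (hs : ∀ z ∈ B, z < X → z ≤ y) :
    ∑ x ∈ B.filter (· < y), YR (m - 3) (WR m M) (m + (m - 3) + M - x) (B.erase x) ≤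
      13 / 1000 / m * ex B := by
  have hex := ex_pos B
  have hm0 : (0 : ℝ) < m := by
    have : 0 < m := by omega
    exact_mod_cast this
  obtain ⟨c1, -⟩ := hS (M + 1) _ B hB X hX
  rw [rk_top hX ht] at c1
  have hbd : ∀ x ∈ B.filter (· < y), YR (m - 3) (WR m M) (m + (m - 3) + M - x) (B.erase x) ≤
      1 / 1000 / m * ex B * ((2 : ℝ) ^ (rk B x - 1) / ((rk B x - 2).factorial : ℝ)) := by
    intro x hx
    obtain ⟨hxB, hxy⟩ := mem_filter.1 hx
    have hr3 := rk_three hX hy hyX hxB hxy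
    obtain ⟨b1, b2, b3, b4, b5, b6, b7, b8, b9, b10, -⟩ := hS (M + 1) _ B hB x hxB
    obtain ⟨d1, d2⟩ := b10 X hX ht (by omega)
    have h1 := bead hY hS hm hM hB hxB (by omega) (j := 0) (by omega) (Or.inl rfl)
    refine h1.trans ?_
    set a := gp B x with ha
    set r := rk B x with hr
    have h3a : 2 * a + bx B x + 1 ≤ m := by
      have : 2 * a ≤ (r - 1) * a := Nat.mul_le_mul_right _ (by omega)
      omega
    have h2 : Yb m (m + M - x) 0 ≤ 51 / 25 * 2 ^ (2 * m - 3 - a) * 2 ^ (r - 1) /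
        (m * (m.factorial : ℝ)) := by
      refine (Yb_far hT hm (by omega)).trans ?_
      have h4 : ((m - 3 + (m + M - x)).choose (m - 3) : ℝ) ≤ 2 ^ (2 * m - 3 - a) * 2 ^ (r - 1) := by
        rw [← pow_add]
        have h5 := Nat.choose_le_two_pow (m - 3 + (m + M - x)) (m - 3)
        have h6 : m - 3 + (m + M - x) = 2 * m - 3 - a + (r - 1) := by omega
        rw [h6] at h5 ⊢
        exact_mod_cast h5
      rw [mul_assoc (51 / 25 : ℝ)]
      gcongr
    have h3 : hk B x ≤ if a = 0 then 1 else (((a : ℝ) + 1) / 2 + ((m : ℝ) - 1 - 2 * a) / a) ^ a := by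
      refine hk_le hD ha.symm ?_
      have h4 : ((2 * a + bx B x + 1 : ℕ) : ℝ) ≤ (m : ℝ) := by exact_mod_cast h3a
      push_cast at h4
      linarith
    have h4 := hF m a hm (by omega)
    set Z : ℝ := if a = 0 then 1 else (((a : ℝ) + 1) / 2 + ((m : ℝ) - 1 - 2 * a) / a) ^ a with hZ
    have hZ0 : 0 ≤ Z := b7.le.trans h3
    have hma : (0 : ℝ) < (m : ℝ) - a := by
      have h5 : ((2 * a + bx B x + 1 : ℕ) : ℝ) ≤ (m : ℝ) := by exact_mod_cast h3a
      push_cast at h5
      have : (0 : ℝ) ≤ a := by positivity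
      have : (0 : ℝ) ≤ bx B x := by positivity
      linarith
    have hXx : (m : ℝ) - a ≤ (X : ℝ) - x := by
      have h5 : m + x ≤ X + a := by omega
      have h6 : ((m + x : ℕ) : ℝ) ≤ ((X + a : ℕ) : ℝ) := by exact_mod_cast h5
      push_cast at h6
      linarith
    have h5 : hk B x / up B x ≤ Z / (((m : ℝ) - a) * ((r - 2).factorial : ℝ)) := by
      have h7 : (0 : ℝ) < ((r - 2).factorial : ℝ) := by exact_mod_cast Nat.factorial_pos _
      have h8 : ((m : ℝ) - a) * ((r - 2).factorial : ℝ) ≤ up B x :=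
        (mul_le_mul_of_nonneg_right hXx h7.le).trans d1
      have h9 : 0 < ((m : ℝ) - a) * ((r - 2).factorial : ℝ) := mul_pos hma h7
      gcongr
    have h6 : Yb m (m + M - x) 0 * (hk B x / up B x) ≤
        (51 / 25 * 2 ^ (2 * m - 3 - a) * 2 ^ (r - 1) / (m * (m.factorial : ℝ))) *
          (Z / (((m : ℝ) - a) * ((r - 2).factorial : ℝ))) :=
      mul_le_mul h2 h5 (div_nonneg b7.le b6.le) (by positivity)
    calc Yb m (m + M - x) 0 * (hk B x / up B x) * ex B
        ≤ (51 / 25 * 2 ^ (2 * m - 3 - a) * 2 ^ (r - 1) / (m * (m.factorial : ℝ))) *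
          (Z / (((m : ℝ) - a) * ((r - 2).factorial : ℝ))) * ex B :=
          mul_le_mul_of_nonneg_right h6 hex.le
      _ = (51 / 25 * 2 ^ (2 * m - 3 - a) * Z / ((m.factorial : ℝ) * ((m : ℝ) - a))) / m * ex B *
          ((2 : ℝ) ^ (r - 1) / ((r - 2).factorial : ℝ)) := by
          field_simp
      _ ≤ _ := by gcongr
  refine (sum_le_sum hbd).trans ?_
  rw [← mul_sum]
  have h1 := sum_rows hR hX hy hyX (fun r => (2 : ℝ) ^ (r - 1) / ((r - 2).factorial : ℝ))
    fun r => by positivity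
  have h2 := h1.trans (hE B.card).2
  have h3 : (0 : ℝ) ≤ 1 / 1000 / m * ex B := by positivity
  have h4 := mul_le_mul_of_nonneg_left h2 h3
  have h5 : 1 / 1000 / m * ex B * (128 / 10) ≤ 13 / 1000 / m * ex B := by
    have : 1 / 1000 / (m : ℝ) * ex B * (128 / 10) = (128 / 10000) / m * ex B := by ring
    rw [this]
    refine mul_le_mul_of_nonneg_right (div_le_div_of_nonneg_right ?_ hm0.le) hex.le
    norm_num
  exact h4.trans h5

end Pool.JM.LR.RV
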