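import Pool.Agent.Work.MP_46fa68_56.RVH2
import Pool.Agent.Work.MP_46fa68_56.RDefs19

/-!
# MP_46fa68_co: LEMMA R for `m ≥ 19`, sharper constants in the layers `≥ 3`
-/

set_option autoImplicit false

open Finset

namespace Pool.JM.LR.RV

open Pool.JM.LR

variable {m M : ℕ} {B : Finset ℕ} {X y a b : ℕ}

/-- the rows `≥ 3`, any constant -/
theorem rest_gen (hY : Stmt_YBND) (hT : Stmt_TTN) (hS : Stmt_BASIC) (hR : Stmt_RANK)
    (hD : Stmt_HD) (hE : Stmt_ESUM) (hm : 16 ≤ m) (hM : m + (m - 3) < M)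
    (hB : B ∈ Lv (M + 1) (m + (m - 3))) {X y : ℕ} (hX : X ∈ B) (ht : ∀ z ∈ B, z ≤ X)
    (hXw : X < M + m) (hy : y ∈ B) (hyX : y < X) {E : ℝ} (hE0 : 0 ≤ E)
    (hF : ∀ x ∈ B.filter (· < y), 51 / 25 * 2 ^ (2 * m - 3 - gp B x) *
      (if gp B x = 0 then 1 else
        (((gp B x : ℝ) + 1) / 2 + (2 * (m : ℝ) - 3 - 3 * gp B x) / gp B x) ^ gp B x) /
      (m * (m.factorial : ℝ)) ≤ E) :
    ∑ x ∈ B.filter (· < y), YR (m - 3) (WR m M) (m + (m - 3) + M - x) (B.erase x) ≤
      E * (44 / 10) * ex B := by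
  have hex := ex_pos B
  have hbd : ∀ x ∈ B.filter (· < y), YR (m - 3) (WR m M) (m + (m - 3) + M - x) (B.erase x) ≤
      E * ex B * ((2 : ℝ) ^ (rk B x - 1) / ((rk B x - 1).factorial : ℝ)) := by
    intro x hx
    obtain ⟨hxB, hxy⟩ := mem_filter.1 hx
    have hr3 := rk_three hX hy hyX hxB hxy
    obtain ⟨b1, b2, b3, b4, b5, b6, b7, b8, b9, -⟩ := hS (M + 1) _ B hB x hxB
    have h1 := bead hY hS hm hM hB hxB (by omega) (j := 0) (by omega) (Or.inl rfl)
    refine h1.trans ?_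
    set a := gp B x with ha
    set r := rk B x with hr
    have h3a : 3 * a + bx B x ≤ 2 * m - 3 := by
      have : 3 * a ≤ r * a := Nat.mul_le_mul_right _ hr3
      omega
    have hp : m + M - x = m + (r - 1) - a := by omega
    have h2 : Yb m (m + M - x) 0 ≤ 51 / 25 * 2 ^ (2 * m - 3 - a) * 2 ^ (r - 1) /
        (m * (m.factorial : ℝ)) := by
      refine (Yb_far hT hm (by omega)).trans ?_
      have h4 : ((m - 3 + (m + M - x)).choose (m - 3) : ℝ) ≤ 2 ^ (2 * m - 3 - a) * 2 ^ (r - 1) := by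
        rw [← pow_add]
        have h5 := Nat.choose_le_two_pow (m - 3 + (m + M - x)) (m - 3)
        have h6 : m - 3 + (m + M - x) = 2 * m - 3 - a + (r - 1) := by omega
        rw [h6] at h5 ⊢
        exact_mod_cast h5
      rw [mul_assoc (51 / 25 : ℝ)]
      gcongr
    have h3 : hk B x ≤ if a = 0 then 1 else (((a : ℝ) + 1) / 2 + (2 * (m : ℝ) - 3 - 3 * a) / a) ^ a := by
      refine hk_le hD ha.symm ?_
      have h4 : ((3 * a + bx B x : ℕ) : ℝ) ≤ ((2 * m - 3 : ℕ) : ℝ) := by exact_mod_cast h3a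
      rw [Nat.cast_sub (by omega)] at h4
      push_cast at h4
      linarith
    have h4 := hF x hx
    rw [← ha] at h4
    set Z : ℝ := if a = 0 then 1 else (((a : ℝ) + 1) / 2 + (2 * (m : ℝ) - 3 - 3 * a) / a) ^ a with hZ
    have hZ0 : 0 ≤ Z := b7.le.trans h3
    have h5 : hk B x / up B x ≤ Z / ((r - 1).factorial : ℝ) := by
      have : (0 : ℝ) < ((r - 1).factorial : ℝ) := by exact_mod_cast Nat.factorial_pos _
      gcongr
    have h6 : Yb m (m + M - x) 0 * (hk B x / up B x) ≤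
        (51 / 25 * 2 ^ (2 * m - 3 - a) * 2 ^ (r - 1) / (m * (m.factorial : ℝ))) *
          (Z / ((r - 1).factorial : ℝ)) :=
      mul_le_mul h2 h5 (div_nonneg b7.le b6.le) (by positivity)
    calc Yb m (m + M - x) 0 * (hk B x / up B x) * ex B
        ≤ (51 / 25 * 2 ^ (2 * m - 3 - a) * 2 ^ (r - 1) / (m * (m.factorial : ℝ))) *
          (Z / ((r - 1).factorial : ℝ)) * ex B := mul_le_mul_of_nonneg_right h6 hex.le
      _ = (51 / 25 * 2 ^ (2 * m - 3 - a) * Z / (m * (m.factorial : ℝ))) * ex B *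
          ((2 : ℝ) ^ (r - 1) / ((r - 1).factorial : ℝ)) := by ring
      _ ≤ _ := by gcongr
  refine (sum_le_sum hbd).trans ?_
  rw [← mul_sum]
  have h1 := sum_rows hR hX hy hyX (fun r => (2 : ℝ) ^ (r - 1) / ((r - 1).factorial : ℝ))
    fun r => by positivity
  have h2 := h1.trans (hE B.card).1
  have h3 : (0 : ℝ) ≤ E * ex B := by positivity
  exact (mul_le_mul_of_nonneg_left h2 h3).trans (le_of_eq (by ring))

/-- row 1, with a bound of the second row -/
theorem row1' (hA : Stmt_WWA) (hY : Stmt_YBND) (hS : Stmt_BASIC) (hC : Stmt_CF)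
    (c : Cx m M B X y a b) {i j : ℕ} (hi : a + i = m) (hj : b + j ≤ m - 3) {H br : ℝ}
    (hbr : Tq m i j + 51 / 50 / ((m - 3 + i : ℕ) : ℝ) ≤ br)
    (hH : hk B X ≤ (a.factorial : ℝ) * H) :
    YR (m - 3) (WR m M) (m + (m - 3) + M - X) (B.erase X) ≤ cA m i * br * H * ex B := by
  have hi1 : 1 ≤ i := by have := c.ham; omega
  have hex := ex_pos B
  obtain ⟨-, -, -, -, -, -, b7, -⟩ := hS (M + 1) _ B c.hB X c.hX
  have h1 := bead hY hS c.hm c.hM c.hB c.hX (by have := c.hXa; have := c.ham; omega) (j := j)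
    (by omega) (by
      refine Or.inr fun z hz => ?_
      obtain ⟨h2, h3⟩ := mem_erase.1 hz
      have h4 := c.hs z h3 (lt_of_le_of_ne (c.ht z h3) h2)
      have := c.hyb
      omega)
  rw [up_top c.ht, div_one, show m + M - X = i by have := c.hXa; omega] at h1
  refine h1.trans (mul_le_mul_of_nonneg_right ?_ hex.le)
  have h2 : Yb m i j * hk B X ≤ Yb m i j * ((a.factorial : ℝ) * H) :=
    mul_le_mul_of_nonneg_left hH (Yb_nonneg hA m i j)
  have hH0 : 0 ≤ H := by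
    have h3 : 0 < (a.factorial : ℝ) * H := b7.trans_le hH
    have h4 : (0 : ℝ) < a.factorial := by exact_mod_cast a.factorial_pos
    exact ((mul_pos_iff_of_pos_left h4).1 h3).le
  have h5 : a = m - i := by omega
  have h6 : Yb m i j * ((a.factorial : ℝ) * H) =
      cA m i * (Tq m i j + 51 / 50 / ((m - 3 + i : ℕ) : ℝ)) * H := by
    rw [← mul_assoc, h5, Yb_cA]
  rw [h6] at h2
  refine h2.trans (mul_le_mul_of_nonneg_right (mul_le_mul_of_nonneg_left hbr ?_) hH0)
  exact ((hC m c.hm).2.2.2.2.2.2.2.2.2 i hi1).le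

/-- row 1, layer 3 -/
theorem r1_L3' (hA : Stmt_WWA) (hY : Stmt_YBND) (hT : Stmt_TTN) (hS : Stmt_BASIC) (hC : Stmt_CF)
    (hH : Stmt_HA) (hN : Stmt_NR3) (hm : 19 ≤ m) (c : Cx m M B X y a b) (h1 : a + 3 = m) :
    YR (m - 3) (WR m M) (m + (m - 3) + M - X) (B.erase X) ≤ 185 / 1000 * ex B := by
  have hm16 := c.hm
  have e1 := c.hbX
  have hb1 := c.hb1
  have hba := c.hba
  have hmr : (19 : ℝ) ≤ m := by exact_mod_cast hm
  have hbX : bx B X = m := by omega
  obtain ⟨-, h2⟩ := hH B X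
  obtain ⟨h3, h3'⟩ := h2 y c.hy c.hyX c.hs
  rw [c.ha, c.hb, hbX] at h3 h3'
  have har : (a : ℝ) = (m : ℝ) - 3 := by
    have : (a : ℝ) + 3 = m := by exact_mod_cast h1
    linarith
  have hbr' : Tq m 3 0 + 51 / 50 / ((m - 3 + 3 : ℕ) : ℝ) ≤ TB m 3 := br_le hT hm16 (by norm_num)
  have hex := (ex_pos B).le
  obtain ⟨n1, n2, -⟩ := hN m hm
  have hcT : 0 ≤ cA m 3 * TB m 3 :=
    mul_nonneg ((hC m hm16).2.2.2.2.2.2.2.2.2 3 (by norm_num)).le (TB_nonneg hm16 3)
  rcases Nat.lt_or_ge b 2 with hb2 | hb2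
  · have hb : b = 1 := by omega
    subst hb
    rw [har, Nat.cast_one, show (m : ℝ) - 3 + 1 - 1 = m - 3 by ring,
      show (m : ℝ) - 3 + 2 - 1 = m - 2 by ring, show (m : ℝ) - 3 + 1 = m - 2 by ring] at h3'
    have r := row1 hA hY hS hC c h1 (Or.inl rfl) hbr' (H := _) (by
      rw [mul_assoc] at h3'
      exact h3')
    refine r.trans (mul_le_mul_of_nonneg_right ?_ hex)
    exact n2.trans (by norm_num)
  · have h4 := h3 (by omega)
    have hb2r : (2 : ℝ) ≤ b := by exact_mod_cast hb2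
    have hbar : (b : ℝ) ≤ (m : ℝ) - 3 := by
      rw [← har]
      exact_mod_cast hba
    rw [har, show (m : ℝ) - 3 + 1 - (b : ℝ) = m - 2 - b by ring,
      show (m : ℝ) - 3 + 2 - ((m : ℝ) - b) = b - 1 by ring,
      show (m : ℝ) - 3 + 1 = m - 2 by ring, show (m : ℝ) - 3 + 2 = m - 1 by ring] at h4
    have r := row1 hA hY hS hC c h1 (Or.inl rfl) hbr' (H := _) (by
      rw [mul_assoc] at h4
      exact h4)
    refine r.trans (mul_le_mul_of_nonneg_right ?_ hex)
    refine (mul_le_mul_of_nonneg_left ?_ hcT).trans n1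
    have h5 : (0 : ℝ) < (m : ℝ) - 2 - b := by linarith
    have h6 : (0 : ℝ) < (b : ℝ) - 1 := by linarith
    have h7 : (0 : ℝ) < (m : ℝ) - 4 := by linarith
    rw [div_mul_div_comm]
    refine div_le_div_of_nonneg_left (by nlinarith) h7 ?_
    nlinarith

/-- row 1, layers `≥ 4` -/
theorem r1_L4' (hA : Stmt_WWA) (hY : Stmt_YBND) (hT1 : Stmt_T1) (hS : Stmt_BASIC) (hC : Stmt_CF)
    (hH : Stmt_HC) (hN : Stmt_NR3) (hm : 19 ≤ m) (c : Cx m M B X y a b) (h1 : a + 4 ≤ m)
    (h8 : 8 ≤ a) :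
    YR (m - 3) (WR m M) (m + (m - 3) + M - X) (B.erase X) ≤ 175 / 1000 * ex B := by
  have hm16 := c.hm
  have e1 := c.hbX
  obtain ⟨i, hi⟩ : ∃ i, a + i = m := ⟨m - a, by omega⟩
  have hbX : bx B X = a + (2 * i - 3) := by omega
  have h2 := (hH B X (4 / 3) (by rw [c.ha]; omega) (by norm_num) (by
    rw [c.ha]
    exact pow43 h8)).2 (by rw [c.ha]; omega)
  rw [c.ha, hbX, Nat.add_sub_cancel_left] at h2
  have har : (a : ℝ) + 1 = (m : ℝ) - i + 1 := by
    have : (a : ℝ) + i = m := by exact_mod_cast hi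
    linarith
  have r := row1' hA hY hS hC c hi (j := 1) (by have := c.hba; omega)
    (br := 73 / 100 / (i : ℝ) + 51 / 50 / ((m : ℝ) - 3 + i)) (by
      rw [cast_m3 hm16]
      have := hT1 m i (by omega)
      linarith) (H := _) (by
    rw [mul_assoc] at h2
    exact h2)
  refine r.trans (mul_le_mul_of_nonneg_right ?_ (ex_pos B).le)
  have h5 := (hN m hm).2.2 i (by omega) (by omega)
  rw [har]
  exact h5

/-- **RVH'** -/
theorem blk_RVH' (hA : Stmt_WWA) (hY : Stmt_YBND) (hT : Stmt_TTN) (hT1 : Stmt_T1) (hS : Stmt_BASIC)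
    (hR : Stmt_RANK) (hD : Stmt_HD) (hHC : Stmt_HC) (hHA : Stmt_HA) (hC : Stmt_CF) (hN1 : Stmt_NR1)
    (hN2 : Stmt_NR2) (hN3 : Stmt_NR3) (hNL : Stmt_NL2) (hFS : Stmt_NFS) (hF1 : Stmt_NF1)
    (hF1X : Stmt_NF1X) (hF2 : Stmt_NF2) (hE : Stmt_ESUM) : Stmt_RVH' := by
  intro m M hm hM B hB X hX ht hXw y hy hyX hs
  have hm16 : 16 ≤ m := by omega
  have c := mkCx hS hm16 hM hB hX ht hXw hy hyX hs
  have hold := blk_RVH hA hY hT hS hR hD hHC hHA hC hN1 hN2 hNL hFS hF1 hF2 hE m M hm16 hM B hB X hX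
    ht hXw y hy hyX hs
  set a := X - M with ha
  set b := y + 1 - M with hb
  have hex := (ex_pos B).le
  have e1 := c.hbX
  have e2 := c.hbY
  have hba := c.hba
  have hb1 := c.hb1
  have ham := c.ham
  by_cases h3 : a + 3 ≤ m
  · unfold Vh'
    rw [if_neg (by omega), if_neg (by omega), split hX ht hy hyX hs]
    have r2 := r2_L3 hA hY hT hS hC hHA hHC hD hFS hN2 c h3
    by_cases h4 : a + 3 = m
    · rw [if_pos h4]
      have r1 := r1_L3' hA hY hT hS hC hHA hN3 hm c h4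
      have r3 := rest_gen hY hT hS hR hD hE hm16 hM hB hX ht hXw hy hyX (E := 1 / 1000)
        (by norm_num) (fun x hx => by
          obtain ⟨hxB, hxy⟩ := mem_filter.1 hx
          have hr3 := rk_three hX hy hyX hxB hxy
          obtain ⟨-, b2, -, -, -, -, -, -, -, b10, -⟩ := hS (M + 1) _ B hB x hxB
          obtain ⟨-, d2⟩ := b10 X hX ht (by omega)
          have h5 : 2 * gp B x ≤ (rk B x - 1) * gp B x := Nat.mul_le_mul_right _ (by omega)
          have h6 : gp B X = a := c.ha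
          have h7 : 3 * gp B x ≤ rk B x * gp B x := Nat.mul_le_mul_right _ hr3
          exact (hF1X m (gp B x) hm (by omega)).2 (by omega))
      have h6 : 1 / 1000 * (44 / 10) * ex B ≤ 5 / 1000 * ex B :=
        mul_le_mul_of_nonneg_right (by norm_num) hex
      linarith
    · rw [if_neg h4]
      have r3 := rest_gen hY hT hS hR hD hE hm16 hM hB hX ht hXw hy hyX (E := 125 / 10000)
        (by norm_num) (fun x hx => by
          obtain ⟨hxB, hxy⟩ := mem_filter.1 hx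
          have hr3 := rk_three hX hy hyX hxB hxy
          obtain ⟨-, b2, -⟩ := hS (M + 1) _ B hB x hxB
          have h7 : 3 * gp B x ≤ rk B x * gp B x := Nat.mul_le_mul_right _ hr3
          exact (hF1X m (gp B x) hm (by omega)).1)
      rcases Nat.lt_or_ge a 8 with h8 | h8
      · have r1 := r1_far hA hY hT hS hD hFS c (by omega)
        linarith
      · have r1 := r1_L4' hA hY hT1 hS hC hHC hN3 hm c (by omega) h8
        linarith
  · refine hold.trans (le_of_eq ?_)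
    congr 1
    unfold Vh Vh'
    by_cases h1 : a + 1 = m
    · rw [if_pos h1, if_pos h1]
    · have h2 : a + 2 = m := by omega
      rw [if_neg h1, if_neg h1, if_pos h2, if_pos h2]

end Pool.JM.LR.RV
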