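import Pool.Agent.Work.MP_46fa68_56.RVH1

/-!
# MP_46fa68_co: LEMMA R, the size of the lift: rows 1 and 2
-/

set_option autoImplicit false

open Finset

namespace Pool.JM.LR.RV

open Pool.JM.LR

variable {m M : ℕ} {B : Finset ℕ} {X y a b : ℕ}

/-- the data of a shape below the wall: two top beads, lengths of two rows -/
structure Cx (m M : ℕ) (B : Finset ℕ) (X y a b : ℕ) : Prop where
  hm : 16 ≤ m
  hM : m + (m - 3) < M
  hB : B ∈ Lv (M + 1) (m + (m - 3))
  hX : X ∈ B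
  ht : ∀ z ∈ B, z ≤ X
  hy : y ∈ B
  hyX : y < X
  hs : ∀ z ∈ B, z < X → z ≤ y
  hXa : X = a + M
  hyb : y + 1 = b + M
  ha : gp B X = a
  hb : gp B y = b
  hba : b ≤ a
  hb1 : 1 ≤ b
  ham : a < m
  hbX : a + bx B X = 2 * m - 3
  hbY : a + b + bx B y = 2 * m - 3

theorem mkCx (hS : Stmt_BASIC) (hm : 16 ≤ m) (hM : m + (m - 3) < M)
    (hB : B ∈ Lv (M + 1) (m + (m - 3))) (hX : X ∈ B) (ht : ∀ z ∈ B, z ≤ X)
    (hXw : X < M + m) (hy : y ∈ B) (hyX : y < X) (hs : ∀ z ∈ B, z < X → z ≤ y) :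
    Cx m M B X y (X - M) (y + 1 - M) := by
  obtain ⟨b1, -, -, -, -, -, -, b8, -, -, b11, b12⟩ := hS (M + 1) _ B hB X hX
  obtain ⟨c1, -, -, -, -, -, -, c8, -⟩ := hS (M + 1) _ B hB y hy
  have b8' := b8 y hy hyX.le
  have e1 := b11 X hX ht
  have e2 := b12 X hX ht y hy hyX hs
  rw [rk_top hX ht] at b1
  rw [rk_second hX ht hy hyX hs] at c1
  have hb1 : 1 ≤ gp B y := by
    by_contra h
    have h0 : gp B y = 0 := by omega
    have h1 : bx B y = 0 := by
      unfold bx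
      refine sum_eq_zero fun z hz => ?_
      obtain ⟨h2, h3⟩ := mem_filter.1 hz
      have := c8 z h2 h3.le
      omega
    omega
  exact ⟨hm, hM, hB, hX, ht, hy, hyX, hs, by omega, by omega, by omega, by omega, by omega, by omega,
    by omega, by omega, by omega⟩

theorem Yb_cA (i j : ℕ) : Yb m i j * ((m - i).factorial : ℝ) =
    cA m i * (Tq m i j + 51 / 50 / ((m - 3 + i : ℕ) : ℝ)) := by
  unfold Yb cA
  ring

theorem Yb_cB (p j : ℕ) : Yb m p j * ((m + 1 - p).factorial : ℝ) =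
    cB m p * (Tq m p j + 51 / 50 / ((m - 3 + p : ℕ) : ℝ)) := by
  unfold Yb cB
  ring

/-- row 1 -/
theorem row1 (hA : Stmt_WWA) (hY : Stmt_YBND) (hS : Stmt_BASIC) (hC : Stmt_CF)
    (c : Cx m M B X y a b) {i j : ℕ} (hi : a + i = m) (hj : j = 0 ∨ b + j = m - 3) {H br : ℝ}
    (hbr : Tq m i j + 51 / 50 / ((m - 3 + i : ℕ) : ℝ) ≤ br)
    (hH : hk B X ≤ (a.factorial : ℝ) * H) :
    YR (m - 3) (WR m M) (m + (m - 3) + M - X) (B.erase X) ≤ cA m i * br * H * ex B := by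
  have hi1 : 1 ≤ i := by have := c.ham; omega
  have hex := ex_pos B
  obtain ⟨-, -, -, -, -, -, b7, -⟩ := hS (M + 1) _ B c.hB X c.hX
  have h1 := bead hY hS c.hm c.hM c.hB c.hX (by have := c.hXa; have := c.ham; omega) (j := j)
    (by rcases hj with h | h <;> omega) (by
      rcases hj with h | h
      · exact Or.inl h
      · refine Or.inr fun z hz => ?_
        obtain ⟨h2, h3⟩ := mem_erase.1 hz
        have h4 := c.hs z h3 (lt_of_le_of_ne (c.ht z h3) h2)
        have := c.hyb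
        omega)
  rw [up_top c.ht, div_one, show m + M - X = i by have := c.hXa; omega] at h1
  refine h1.trans (mul_le_mul_of_nonneg_right ?_ hex.le)
  have h2 : Yb m i j * hk B X ≤ Yb m i j * ((a.factorial : ℝ) * H) :=
    mul_le_mul_of_nonneg_left hH (Yb_nonneg hA m i j)
  have hH0 : 0 ≤ H := by
    have h3 : 0 < (a.factorial : ℝ) * H := b7.trans_le hH
    have h4 : (0 : ℝ) < a.factorial := by exact_mod_cast a.factorial_pos
    exact ((mul_pos_iff_of_pos_left h4).1 h3).le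
  have h5 : a = m - i := by omega
  have h6 : Yb m i j * ((a.factorial : ℝ) * H) =
      cA m i * (Tq m i j + 51 / 50 / ((m - 3 + i : ℕ) : ℝ)) * H := by
    rw [← mul_assoc, h5, Yb_cA]
  rw [h6] at h2
  refine h2.trans (mul_le_mul_of_nonneg_right (mul_le_mul_of_nonneg_left hbr ?_) hH0)
  exact ((hC m c.hm).2.2.2.2.2.2.2.2.2 i hi1).le

/-- row 2 -/
theorem row2 (hA : Stmt_WWA) (hY : Stmt_YBND) (hS : Stmt_BASIC) (hC : Stmt_CF) (hT : Stmt_TTN)
    (c : Cx m M B X y a b) {p : ℕ} (hp : b + p = m + 1) {H : ℝ}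
    (hH : hk B y ≤ (b.factorial : ℝ) * H) :
    YR (m - 3) (WR m M) (m + (m - 3) + M - y) (B.erase y) ≤
      cB m p * TB m p * (H / ((a : ℝ) - b + 1)) * ex B := by
  have hex := ex_pos B
  have hp1 : 1 ≤ p := by have := c.ham; have := c.hba; omega
  obtain ⟨-, -, -, -, -, b6, b7, -, -, b10, -⟩ := hS (M + 1) _ B c.hB y c.hy
  have h1 := bead hY hS c.hm c.hM c.hB c.hy (by have := c.hXa; have := c.ham; have := c.hyX; omega)
    (j := 0) (by omega) (Or.inl rfl)
  rw [show m + M - y = p by have := c.hyb; have := c.hb1; omega] at h1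
  refine h1.trans (mul_le_mul_of_nonneg_right ?_ hex.le)
  have hbf : (0 : ℝ) < b.factorial := by exact_mod_cast b.factorial_pos
  have hH0 : 0 ≤ H := by
    have h3 : 0 < (b.factorial : ℝ) * H := b7.trans_le hH
    exact ((mul_pos_iff_of_pos_left hbf).1 h3).le
  have hD0 : (0 : ℝ) < (a : ℝ) - b + 1 := by
    have : (b : ℝ) ≤ a := by exact_mod_cast c.hba
    linarith
  have hup : (a : ℝ) - b + 1 ≤ up B y := by
    obtain ⟨d1, -⟩ := b10 X c.hX c.ht c.hyX
    rw [rk_second c.hX c.ht c.hy c.hyX c.hs] at d1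
    simp only [Nat.sub_self, Nat.factorial_zero, Nat.cast_one, mul_one] at d1
    have h3 : (X : ℝ) - y = (a : ℝ) - b + 1 := by
      have e1 : (X : ℝ) = a + M := by exact_mod_cast c.hXa
      have e2 : (y : ℝ) + 1 = b + M := by exact_mod_cast c.hyb
      linarith
    rwa [h3] at d1
  have h2 : hk B y / up B y ≤ (b.factorial : ℝ) * H / ((a : ℝ) - b + 1) :=
    div_le_div₀ (by positivity) hH hD0 hup
  have h3 : Yb m p 0 * (hk B y / up B y) ≤ Yb m p 0 * ((b.factorial : ℝ) * H / ((a : ℝ) - b + 1)) :=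
    mul_le_mul_of_nonneg_left h2 (Yb_nonneg hA m p 0)
  refine h3.trans ?_
  have h5 : b = m + 1 - p := by omega
  have h6 : Yb m p 0 * ((b.factorial : ℝ) * H / ((a : ℝ) - b + 1)) =
      cB m p * (Tq m p 0 + 51 / 50 / ((m - 3 + p : ℕ) : ℝ)) * (H / ((a : ℝ) - b + 1)) := by
    rw [← Yb_cB, ← h5]
    ring
  rw [h6]
  refine mul_le_mul_of_nonneg_right (mul_le_mul_of_nonneg_left (br_le hT c.hm hp1) ?_) (by positivity)
  exact ((hC m c.hm).2.2.2.2.2.2.2.2.1 p hp1).le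

/-! ### the factor `(a+1) ≤ γ^a` -/

theorem pow43 {n : ℕ} (hn : 8 ≤ n) : (n : ℝ) + 1 ≤ (4 / 3) ^ n := by
  induction n, hn using Nat.le_induction with
  | base => norm_num
  | succ n hn ih =>
    rw [pow_succ]
    have : (8 : ℝ) ≤ n := by exact_mod_cast hn
    push_cast
    nlinarith

theorem pow54 {n : ℕ} (hn : 13 ≤ n) : (n : ℝ) + 1 ≤ (5 / 4) ^ n := by
  induction n, hn using Nat.le_induction with
  | base => norm_num
  | succ n hn ih =>
    rw [pow_succ]
    have : (13 : ℝ) ≤ n := by exact_mod_cast hn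
    push_cast
    nlinarith

/-! ### row 1 by layers -/

theorem r1_L1 (hA : Stmt_WWA) (hY : Stmt_YBND) (hT : Stmt_TTN) (hS : Stmt_BASIC) (hC : Stmt_CF)
    (hH : Stmt_HA) (hN : Stmt_NR1) (c : Cx m M B X y a b) (h1 : a + 1 = m) :
    YR (m - 3) (WR m M) (m + (m - 3) + M - X) (B.erase X) ≤ 377 / 1000 * ex B := by
  have hm := c.hm
  have e1 := c.hbX
  have e2 := c.hbY
  have hb1 := c.hb1
  have hb2 : b + 2 ≤ m := by omega
  have hbX : bx B X = m - 2 := by omega
  obtain ⟨-, h2⟩ := hH B X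
  obtain ⟨h3, -⟩ := h2 y c.hy c.hyX c.hs
  rw [c.ha, c.hb] at h3
  have h4 := h3 (by omega)
  have r := row1 hA hY hS hC c h1 (Or.inl rfl) (br_le hT hm le_rfl) (H := _) (by
    rw [mul_assoc] at h4
    exact h4)
  refine r.trans (mul_le_mul_of_nonneg_right ?_ (ex_pos B).le)
  have h5 := (hN m hm).1 b hb1 hb2
  refine (le_of_eq ?_).trans h5
  have hbxr : (bx B X : ℝ) = (m : ℝ) - 2 := by
    rw [hbX, Nat.cast_sub (by omega)]
    norm_num
  have har : (a : ℝ) = (m : ℝ) - 1 := by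
    have : (a : ℝ) + 1 = m := by exact_mod_cast h1
    linarith
  have hmb : (0 : ℝ) < (m : ℝ) - b := by
    have : (b : ℝ) + 2 ≤ m := by exact_mod_cast hb2
    linarith
  have hb3 : (0 : ℝ) < (b : ℝ) + 3 := by positivity
  rw [hbxr, har]
  congr 1
  rw [show (m : ℝ) - 1 + 1 = m by ring, show (m : ℝ) - 1 + 2 = m + 1 by ring,
    show (m : ℝ) + 1 - ((m : ℝ) - 2 - b) = b + 3 by ring]
  rw [div_mul_div_comm]

theorem r1_L2a (hA : Stmt_WWA) (hY : Stmt_YBND) (hT : Stmt_TTN) (hS : Stmt_BASIC) (hC : Stmt_CF)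
    (hH : Stmt_HA) (hN : Stmt_NR1) (c : Cx m M B X y a b) (h1 : a + 2 = m) (hb2 : b + 2 = m) :
    YR (m - 3) (WR m M) (m + (m - 3) + M - X) (B.erase X) ≤ 43 / 100 * ex B := by
  have hm := c.hm
  have e1 := c.hbX
  have hb1 := c.hb1
  have hbX : bx B X = m - 1 := by omega
  obtain ⟨-, h2⟩ := hH B X
  obtain ⟨h3, -⟩ := h2 y c.hy c.hyX c.hs
  rw [c.ha, c.hb] at h3
  have h4 := h3 (by omega)
  have r := row1 hA hY hS hC c h1 (Or.inl rfl) (br_le hT hm (by norm_num)) (H := _) (by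
    rw [mul_assoc] at h4
    exact h4)
  refine r.trans (mul_le_mul_of_nonneg_right ?_ (ex_pos B).le)
  have h5 := (hN m hm).2.1
  refine (le_of_eq ?_).trans h5
  have hbxr : (bx B X : ℝ) = (m : ℝ) - 1 := by
    rw [hbX, Nat.cast_sub (by omega)]
    norm_num
  have har : (a : ℝ) = (m : ℝ) - 2 := by
    have : (a : ℝ) + 2 = m := by exact_mod_cast h1
    linarith
  have hbr : (b : ℝ) = (m : ℝ) - 2 := by
    have : (b : ℝ) + 2 = m := by exact_mod_cast hb2
    linarith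
  have hm1 : (0 : ℝ) < (m : ℝ) - 1 := by
    have : (16 : ℝ) ≤ m := by exact_mod_cast hm
    linarith
  rw [hbxr, har, hbr]
  congr 1
  rw [show (m : ℝ) - 2 + 1 - ((m : ℝ) - 2) = 1 by ring, show (m : ℝ) - 2 + 2 = m by ring,
    show (m : ℝ) - ((m : ℝ) - 1 - ((m : ℝ) - 2)) = m - 1 by ring,
    show (m : ℝ) - 2 + 1 = m - 1 by ring, div_one]
  field_simp

theorem r1_L2b (hA : Stmt_WWA) (hY : Stmt_YBND) (hT : Stmt_TTN) (hS : Stmt_BASIC) (hC : Stmt_CF)
    (hH : Stmt_HA) (hN : Stmt_NR1) (c : Cx m M B X y a b) (h1 : a + 2 = m) (hb2 : b + 3 = m) :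
    YR (m - 3) (WR m M) (m + (m - 3) + M - X) (B.erase X) ≤ 227 / 1000 * ex B := by
  have hm := c.hm
  have e1 := c.hbX
  have hb1 := c.hb1
  have hbX : bx B X = m - 1 := by omega
  obtain ⟨-, h2⟩ := hH B X
  obtain ⟨h3, -⟩ := h2 y c.hy c.hyX c.hs
  rw [c.ha, c.hb] at h3
  have h4 := h3 (by omega)
  have r := row1 hA hY hS hC c h1 (Or.inl rfl) (br_le hT hm (by norm_num)) (H := _) (by
    rw [mul_assoc] at h4
    exact h4)
  refine r.trans (mul_le_mul_of_nonneg_right ?_ (ex_pos B).le)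
  have h5 := (hN m hm).2.2.1
  refine (le_of_eq ?_).trans h5
  have hbxr : (bx B X : ℝ) = (m : ℝ) - 1 := by
    rw [hbX, Nat.cast_sub (by omega)]
    norm_num
  have har : (a : ℝ) = (m : ℝ) - 2 := by
    have : (a : ℝ) + 2 = m := by exact_mod_cast h1
    linarith
  have hbr : (b : ℝ) = (m : ℝ) - 3 := by
    have : (b : ℝ) + 3 = m := by exact_mod_cast hb2
    linarith
  rw [hbxr, har, hbr]
  congr 1
  rw [show (m : ℝ) - 2 + 1 - ((m : ℝ) - 3) = 2 by ring, show (m : ℝ) - 2 + 2 = m by ring,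
    show (m : ℝ) - ((m : ℝ) - 1 - ((m : ℝ) - 3)) = m - 2 by ring,
    show (m : ℝ) - 2 + 1 = m - 1 by ring]

/-- layer 2, `b = m - 3 - j`, short form -/
theorem r1_L2c (hA : Stmt_WWA) (hY : Stmt_YBND) (hT : Stmt_TTN) (hS : Stmt_BASIC) (hC : Stmt_CF)
    (hH : Stmt_HA) (c : Cx m M B X y a b) (h1 : a + 2 = m) {j : ℕ} (hj : 1 ≤ j)
    (hb2 : b + j = m - 3) {κ : ℝ}
    (hκ : (j ≤ 8 ∧ κ = ((m : ℝ) - 2) / ((m : ℝ) - 2 - j)) ∨
      (κ = ((m : ℝ) - 2) / m * Real.exp 1)) :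
    YR (m - 3) (WR m M) (m + (m - 3) + M - X) (B.erase X) ≤
      κ * (ww j + 51 / 50 / ((m : ℝ) - 1)) * (((m : ℝ) - 1) / (m * ((j : ℝ) + 2))) * ex B := by
  have hm := c.hm
  have e1 := c.hbX
  have hb1 := c.hb1
  have hmr : (16 : ℝ) ≤ m := by exact_mod_cast hm
  have hbX : bx B X = m - 1 := by omega
  obtain ⟨-, h2⟩ := hH B X
  obtain ⟨h3, h3'⟩ := h2 y c.hy c.hyX c.hs
  rw [c.ha, c.hb] at h3 h3'
  have h4 := h3 (by omega)
  have hbxr : (bx B X : ℝ) = (m : ℝ) - 1 := by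
    rw [hbX, Nat.cast_sub (by omega)]
    norm_num
  have har : (a : ℝ) = (m : ℝ) - 2 := by
    have : (a : ℝ) + 2 = m := by exact_mod_cast h1
    linarith
  have hbr : (b : ℝ) = (m : ℝ) - 3 - j := by
    have : ((b + j : ℕ) : ℝ) = ((m - 3 : ℕ) : ℝ) := by rw [hb2]
    rw [Nat.cast_sub (by omega)] at this
    push_cast at this
    linarith
  have hbracket : Tq m 2 j + 51 / 50 / ((m - 3 + 2 : ℕ) : ℝ) ≤ ww j + 51 / 50 / ((m : ℝ) - 1) := by
    have h5 := (hT m).2.2.2.2.2 j hj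
    rw [cast_m3 hm]
    have : (m : ℝ) - 3 + ((2 : ℕ) : ℝ) = m - 1 := by
      push_cast
      ring
    rw [this]
    linarith
  have hj0 : (0 : ℝ) < (j : ℝ) + 2 := by positivity
  have hm0 : (0 : ℝ) < m := by linarith
  have hcA := (hC m hm).2.1
  have hww := hA.1 j
  have hbr0 : 0 ≤ ww j + 51 / 50 / ((m : ℝ) - 1) := by
    have : (0 : ℝ) < (m : ℝ) - 1 := by linarith
    positivity
  rw [hbxr, har, hbr, show (m : ℝ) - 2 + 1 - ((m : ℝ) - 3 - j) = j + 2 by ring,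
    show (m : ℝ) - 2 + 2 = m by ring,
    show (m : ℝ) - ((m : ℝ) - 1 - ((m : ℝ) - 3 - j)) = m - 2 - j by ring,
    show (m : ℝ) - 2 + 1 = m - 1 by ring] at h4
  rw [hbxr, har, hbr, show (m : ℝ) - 2 + 1 - ((m : ℝ) - 3 - j) = j + 2 by ring,
    show (m : ℝ) - 2 + 2 - ((m : ℝ) - 3 - j) = j + 3 by ring,
    show (m : ℝ) - 1 - ((m : ℝ) - 3 - j) = j + 2 by ring,
    show (m : ℝ) - 2 + 1 = m - 1 by ring] at h3'
  rcases hκ with ⟨hj8, hκ⟩ | hκ
  · have r := row1 hA hY hS hC c h1 (Or.inr hb2) hbracket (H := _) (by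
      rw [mul_assoc] at h4
      exact h4)
    refine r.trans (le_of_eq ?_)
    have hmj : (0 : ℝ) < (m : ℝ) - 2 - j := by
      have : (j : ℝ) ≤ 8 := by exact_mod_cast hj8
      linarith
    rw [hcA, hκ]
    field_simp
  · have r := row1 hA hY hS hC c h1 (Or.inr hb2) hbracket
      (H := ((m : ℝ) - 1) / ((j : ℝ) + 2) * Real.exp 1) (by
      rw [← mul_assoc]
      refine h3'.trans ?_
      have h6 : Real.exp (((j : ℝ) + 2) / ((j : ℝ) + 3)) ≤ Real.exp 1 := by
        refine Real.exp_le_exp.2 ?_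
        rw [div_le_one (by positivity)]
        linarith
      have h7 : (0 : ℝ) < (m : ℝ) - 1 := by linarith
      gcongr)
    refine r.trans (le_of_eq ?_)
    rw [hcA, hκ]
    field_simp

theorem r1_L3 (hA : Stmt_WWA) (hY : Stmt_YBND) (hT : Stmt_TTN) (hS : Stmt_BASIC) (hC : Stmt_CF)
    (hH : Stmt_HC) (hN : Stmt_NR1) (c : Cx m M B X y a b) (h1 : a + 3 = m) :
    YR (m - 3) (WR m M) (m + (m - 3) + M - X) (B.erase X) ≤ 303 / 1000 * ex B := by
  have hm := c.hm
  have e1 := c.hbX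
  have hbX : bx B X = a + 3 := by omega
  have h2 := (hH B X (5 / 4) (by rw [c.ha]; omega) (by norm_num) (by
    rw [c.ha]
    exact pow54 (by omega))).2 (by rw [c.ha]; omega)
  rw [c.ha, hbX, Nat.add_sub_cancel_left] at h2
  have har : (a : ℝ) + 1 = (m : ℝ) - 2 := by
    have : (a : ℝ) + 3 = m := by exact_mod_cast h1
    linarith
  have r := row1 hA hY hS hC c h1 (Or.inl rfl) (br_le hT hm (by norm_num)) (H := _) (by
    rw [mul_assoc] at h2
    exact h2)
  refine r.trans (mul_le_mul_of_nonneg_right ?_ (ex_pos B).le)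
  have h5 := (hN m hm).2.2.2.1
  rw [har]
  exact h5

theorem r1_L4 (hA : Stmt_WWA) (hY : Stmt_YBND) (hT : Stmt_TTN) (hS : Stmt_BASIC) (hC : Stmt_CF)
    (hH : Stmt_HC) (hN : Stmt_NR1) (c : Cx m M B X y a b) (h1 : a + 4 ≤ m) (h8 : 8 ≤ a) :
    YR (m - 3) (WR m M) (m + (m - 3) + M - X) (B.erase X) ≤ 24 / 100 * ex B := by
  have hm := c.hm
  have e1 := c.hbX
  obtain ⟨i, hi⟩ : ∃ i, a + i = m := ⟨m - a, by omega⟩
  have hbX : bx B X = a + (2 * i - 3) := by omega
  have h2 := (hH B X (4 / 3) (by rw [c.ha]; omega) (by norm_num) (by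
    rw [c.ha]
    exact pow43 h8)).2 (by rw [c.ha]; omega)
  rw [c.ha, hbX, Nat.add_sub_cancel_left] at h2
  have har : (a : ℝ) + 1 = (m : ℝ) - i + 1 := by
    have : (a : ℝ) + i = m := by exact_mod_cast hi
    linarith
  have r := row1 hA hY hS hC c hi (Or.inl rfl)
    (br := 51 / 50 / (i : ℝ) + 51 / 50 / ((m : ℝ) - 3 + i)) (by
      rw [cast_m3 hm]
      have := (hT m).2.2.2.2.1 i 0 (by omega)
      linarith) (H := _) (by
    rw [mul_assoc] at h2
    exact h2)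
  refine r.trans (mul_le_mul_of_nonneg_right ?_ (ex_pos B).le)
  have h5 := (hN m hm).2.2.2.2 i (by omega) (by omega)
  rw [har]
  exact h5

/-- a short first row -/
theorem r1_far (hA : Stmt_WWA) (hY : Stmt_YBND) (hT : Stmt_TTN) (hS : Stmt_BASIC)
    (hD : Stmt_HD) (hF : Stmt_NFS) (c : Cx m M B X y a b) (h7 : a ≤ 7) :
    YR (m - 3) (WR m M) (m + (m - 3) + M - X) (B.erase X) ≤ 3 / 1000 * ex B := by
  have hm := c.hm
  have e1 := c.hbX
  have ha1 : 1 ≤ a := c.hb1.trans c.hba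
  have h1 := bead hY hS hm c.hM c.hB c.hX (by have := c.hXa; have := c.ham; omega) (j := 0)
    (by omega) (Or.inl rfl)
  rw [up_top c.ht, div_one, show m + M - X = m - a by have := c.hXa; omega] at h1
  refine h1.trans (mul_le_mul_of_nonneg_right ?_ (ex_pos B).le)
  have h2 : hk B X ≤ (((a : ℝ) + 1) / 2 + (2 * (m : ℝ) - 3 - a) / a) ^ a := by
    have := hk_le hD c.ha (L := 2 * (m : ℝ) - 3 - a) (by
      have h4 : ((a + bx B X : ℕ) : ℝ) = ((2 * m - 3 : ℕ) : ℝ) := by rw [e1]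
      rw [Nat.cast_sub (by omega)] at h4
      push_cast at h4
      linarith)
    rwa [if_neg (by omega)] at this
  have h3 := Yb_far hT hm (p := m - a) (by omega)
  rw [show m - 3 + (m - a) = 2 * m - 3 - a by omega] at h3
  obtain ⟨-, -, -, -, -, -, b7, -⟩ := hS (M + 1) _ B c.hB X c.hX
  refine (mul_le_mul h3 h2 b7.le (by positivity)).trans ?_
  refine (le_of_eq ?_).trans (hF m a hm ha1 h7).1
  ring

/-! ### row 2 -/

/-- a short second row, general -/
theorem r2_far (hA : Stmt_WWA) (hY : Stmt_YBND) (hT : Stmt_TTN) (hS : Stmt_BASIC)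
    (hD : Stmt_HD) (hF : Stmt_NFS) (c : Cx m M B X y a b) (h7 : b ≤ 7) :
    YR (m - 3) (WR m M) (m + (m - 3) + M - y) (B.erase y) ≤ 3 / 1000 * ex B := by
  have hm := c.hm
  have e1 := c.hbY
  have hb1 := c.hb1
  have h1 := bead hY hS hm c.hM c.hB c.hy (by have := c.hXa; have := c.ham; have := c.hyX; omega)
    (j := 0) (by omega) (Or.inl rfl)
  rw [show m + M - y = m + 1 - b by have := c.hyb; omega] at h1
  refine h1.trans (mul_le_mul_of_nonneg_right ?_ (ex_pos B).le)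
  have h2 : hk B y ≤ (((b : ℝ) + 1) / 2 + (2 * (m : ℝ) - 3 - 2 * b) / b) ^ b := by
    have := hk_le hD c.hb (L := 2 * (m : ℝ) - 3 - 2 * b) (by
      have h4 : ((2 * b + bx B y : ℕ) : ℝ) ≤ ((2 * m - 3 : ℕ) : ℝ) := by
        have := c.hba
        exact_mod_cast (by omega : 2 * b + bx B y ≤ 2 * m - 3)
      rw [Nat.cast_sub (by omega)] at h4
      push_cast at h4
      linarith)
    rwa [if_neg (by omega)] at this
  obtain ⟨-, -, -, -, -, b6, b7, -, b9, -⟩ := hS (M + 1) _ B c.hB y c.hy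
  have h4 : hk B y / up B y ≤ (((b : ℝ) + 1) / 2 + (2 * (m : ℝ) - 3 - 2 * b) / b) ^ b := by
    refine (div_le_self b7.le ?_).trans h2
    refine le_trans ?_ b9
    exact_mod_cast Nat.one_le_iff_ne_zero.2 (Nat.factorial_ne_zero _)
  have h3 := Yb_far hT hm (p := m + 1 - b) (by omega)
  rw [show m - 3 + (m + 1 - b) = 2 * m - 2 - b by omega] at h3
  refine (mul_le_mul h3 h4 (div_nonneg b7.le b6.le) (by positivity)).trans ?_
  refine (le_of_eq ?_).trans (hF m b hm hb1 h7).2.1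
  ring

/-- a short second row, layer 2 -/
theorem r2_far2 (hA : Stmt_WWA) (hY : Stmt_YBND) (hT : Stmt_TTN) (hS : Stmt_BASIC)
    (hD : Stmt_HD) (hF : Stmt_NFS) (c : Cx m M B X y a b) (h1 : a + 2 = m) (h7 : b ≤ 7) :
    YR (m - 3) (WR m M) (m + (m - 3) + M - y) (B.erase y) ≤ 2 / 1000 / m * ex B := by
  have hm := c.hm
  have e1 := c.hbY
  have hb1 := c.hb1
  have hmr : (16 : ℝ) ≤ m := by exact_mod_cast hm
  have h0 := bead hY hS hm c.hM c.hB c.hy (by have := c.hXa; have := c.ham; have := c.hyX; omega)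
    (j := 0) (by omega) (Or.inl rfl)
  rw [show m + M - y = m + 1 - b by have := c.hyb; omega] at h0
  refine h0.trans (mul_le_mul_of_nonneg_right ?_ (ex_pos B).le)
  have h2 : hk B y ≤ (((b : ℝ) + 1) / 2 + ((m : ℝ) - 1 - b) / b) ^ b := by
    have := hk_le hD c.hb (L := (m : ℝ) - 1 - b) (by
      have h4 : ((b + bx B y : ℕ) : ℝ) = ((m - 1 : ℕ) : ℝ) := by
        congr 1
        omega
      rw [Nat.cast_sub (by omega)] at h4
      push_cast at h4
      linarith)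
    rwa [if_neg (by omega)] at this
  obtain ⟨-, -, -, -, -, b6, b7, -, -, b10, -⟩ := hS (M + 1) _ B c.hB y c.hy
  have har : (a : ℝ) = (m : ℝ) - 2 := by
    have : (a : ℝ) + 2 = m := by exact_mod_cast h1
    linarith
  have hb7 : (b : ℝ) ≤ 7 := by exact_mod_cast h7
  have hD0 : (0 : ℝ) < (m : ℝ) - 1 - b := by linarith
  have hup : (m : ℝ) - 1 - b ≤ up B y := by
    obtain ⟨d1, -⟩ := b10 X c.hX c.ht c.hyX
    rw [rk_second c.hX c.ht c.hy c.hyX c.hs] at d1
    simp only [Nat.sub_self, Nat.factorial_zero, Nat.cast_one, mul_one] at d1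
    have h3 : (X : ℝ) - y = (m : ℝ) - 1 - b := by
      have e1 : (X : ℝ) = a + M := by exact_mod_cast c.hXa
      have e2 : (y : ℝ) + 1 = b + M := by exact_mod_cast c.hyb
      linarith
    rwa [h3] at d1
  have hz0 : (0 : ℝ) ≤ ((b : ℝ) + 1) / 2 + ((m : ℝ) - 1 - b) / b := by positivity
  have h4 : hk B y / up B y ≤ (((b : ℝ) + 1) / 2 + ((m : ℝ) - 1 - b) / b) ^ b / ((m : ℝ) - 1 - b) :=
    div_le_div₀ (by positivity) h2 hD0 hup
  have h3 := Yb_far hT hm (p := m + 1 - b) (by omega)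
  rw [show m - 3 + (m + 1 - b) = 2 * m - 2 - b by omega] at h3
  refine (mul_le_mul h3 h4 (div_nonneg b7.le b6.le) (by positivity)).trans ?_
  have h5 := (hF m b hm hb1 h7).2.2.1
  have hm0 : (0 : ℝ) < m := by linarith
  calc 51 / 25 * ((2 * m - 2 - b).choose (m - 3) : ℝ) / (m * (m.factorial : ℝ)) *
        ((((b : ℝ) + 1) / 2 + ((m : ℝ) - 1 - b) / b) ^ b / ((m : ℝ) - 1 - b))
      = (51 / 25 * ((2 * m - 2 - b).choose (m - 3) : ℝ) *
          (((b : ℝ) + 1) / 2 + ((m : ℝ) - 1 - b) / b) ^ b /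
          ((m.factorial : ℝ) * ((m : ℝ) - 1 - b))) / m := by
        field_simp
    _ ≤ _ := div_le_div_of_nonneg_right h5 hm0.le

/-- row 2 with the power bound -/
theorem r2_pow (hA : Stmt_WWA) (hY : Stmt_YBND) (hT : Stmt_TTN) (hS : Stmt_BASIC) (hC : Stmt_CF)
    (hH : Stmt_HC) (c : Cx m M B X y a b) (h8 : 8 ≤ b) {p : ℕ} (hp : b + p = m + 1) :
    YR (m - 3) (WR m M) (m + (m - 3) + M - y) (B.erase y) ≤
      cB m p * TB m p * ((4 / 3) ^ bx B y / ((a : ℝ) - b + 1)) * ex B := by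
  refine row2 hA hY hS hC hT c hp ?_
  have h2 := (hH B y (4 / 3) (by rw [c.hb]; omega) (by norm_num) (by
    rw [c.hb]
    exact pow43 h8)).1
  rwa [c.hb] at h2

theorem TB_nonneg (hm : 16 ≤ m) (p : ℕ) : 0 ≤ TB m p := by
  unfold TB
  have hmr : (16 : ℝ) ≤ m := by exact_mod_cast hm
  have h1 : (0 : ℝ) < (m : ℝ) - 3 + p := by
    have : (0 : ℝ) ≤ p := by positivity
    linarith
  have h2 : (0 : ℝ) ≤ (if p = 1 then 7528 / 10000 else if p = 2 then 41405 / 100000 else if p = 3 then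
      2898 / 10000 else if p = 4 then 224 / 1000 else 51 / 50 / (p : ℝ)) := by
    split_ifs <;> positivity
  positivity

theorem r2_L1 (hA : Stmt_WWA) (hY : Stmt_YBND) (hT : Stmt_TTN) (hS : Stmt_BASIC) (hC : Stmt_CF)
    (hH : Stmt_HC) (hD : Stmt_HD) (hF : Stmt_NFS) (hN : Stmt_NR2) (c : Cx m M B X y a b)
    (h1 : a + 1 = m) :
    YR (m - 3) (WR m M) (m + (m - 3) + M - y) (B.erase y) ≤ 78 / 1000 * ex B := by
  have hm := c.hm
  have e1 := c.hbY
  rcases Nat.lt_or_ge b 8 with h8 | h8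
  · refine (r2_far hA hY hT hS hD hF c (by omega)).trans ?_
    exact mul_le_mul_of_nonneg_right (by norm_num) (ex_pos B).le
  · obtain ⟨p, hp⟩ : ∃ p, b + p = m + 1 := ⟨m + 1 - b, by omega⟩
    refine (r2_pow hA hY hT hS hC hH c h8 hp).trans (mul_le_mul_of_nonneg_right ?_ (ex_pos B).le)
    have h2 : bx B y = p - 3 := by omega
    have h3 : (a : ℝ) - b + 1 = (p : ℝ) - 1 := by
      have e2 : (a : ℝ) + 1 = m := by exact_mod_cast h1
      have e3 : (b : ℝ) + p = m + 1 := by exact_mod_cast hp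
      linarith
    rw [h2, h3]
    exact (hN m hm).1 p (by omega) (by omega)

theorem r2_L2a (hA : Stmt_WWA) (hY : Stmt_YBND) (hT : Stmt_TTN) (hS : Stmt_BASIC) (hC : Stmt_CF)
    (hH : Stmt_HC) (hN : Stmt_NR2) (c : Cx m M B X y a b) (h1 : a + 2 = m) (h2 : b + 2 = m) :
    YR (m - 3) (WR m M) (m + (m - 3) + M - y) (B.erase y) ≤ 21 / 100 * ex B := by
  have hm := c.hm
  have e1 := c.hbY
  refine (r2_pow hA hY hT hS hC hH c (by omega) (p := 3) (by omega)).trans
    (mul_le_mul_of_nonneg_right ?_ (ex_pos B).le)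
  have h3 : bx B y = 1 := by omega
  have h4 : (a : ℝ) - b + 1 = 1 := by
    have e2 : (a : ℝ) + 2 = m := by exact_mod_cast h1
    have e3 : (b : ℝ) + 2 = m := by exact_mod_cast h2
    linarith
  rw [h3, h4, pow_one, div_one]
  exact (hN m hm).2.1

theorem r2_L2b (hA : Stmt_WWA) (hY : Stmt_YBND) (hT : Stmt_TTN) (hS : Stmt_BASIC) (hC : Stmt_CF)
    (hH : Stmt_HA) (hN : Stmt_NR2) (c : Cx m M B X y a b) (h1 : a + 2 = m) (h2 : b + 3 = m) :
    YR (m - 3) (WR m M) (m + (m - 3) + M - y) (B.erase y) ≤ 3 / 100 * ex B := by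
  have hm := c.hm
  have e1 := c.hbY
  have h3 : bx B y = 2 := by omega
  have h5 := (hH B y).1 (by rw [c.hb]; omega)
  rw [c.hb] at h5
  refine (row2 hA hY hS hC hT c (p := 4) (by omega) h5).trans
    (mul_le_mul_of_nonneg_right ?_ (ex_pos B).le)
  have e3 : (b : ℝ) = m - 3 := by
    have : (b : ℝ) + 3 = m := by exact_mod_cast h2
    linarith
  have e2 : (a : ℝ) = m - 2 := by
    have : (a : ℝ) + 2 = m := by exact_mod_cast h1
    linarith
  refine (le_of_eq ?_).trans (hN m hm).2.2.1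
  rw [h3, e2, e3, show (m : ℝ) - 3 + 1 = m - 2 by ring, show ((2 : ℕ) : ℝ) = 2 by norm_num,
    show (m : ℝ) - 2 - 2 = m - 4 by ring, show (m : ℝ) - 2 - ((m : ℝ) - 3) + 1 = 2 by ring]

theorem r2_L3 (hA : Stmt_WWA) (hY : Stmt_YBND) (hT : Stmt_TTN) (hS : Stmt_BASIC) (hC : Stmt_CF)
    (hH : Stmt_HA) (hH' : Stmt_HC) (hD : Stmt_HD) (hF : Stmt_NFS) (hN : Stmt_NR2)
    (c : Cx m M B X y a b) (h1 : a + 3 ≤ m) :
    YR (m - 3) (WR m M) (m + (m - 3) + M - y) (B.erase y) ≤ 68 / 1000 * ex B := by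
  have hm := c.hm
  have e1 := c.hbY
  have hba := c.hba
  have hex := (ex_pos B).le
  rcases Nat.lt_or_ge b 8 with h8 | h8
  · refine (r2_far hA hY hT hS hD hF c (by omega)).trans ?_
    exact mul_le_mul_of_nonneg_right (by norm_num) hex
  · obtain ⟨p, hp⟩ : ∃ p, b + p = m + 1 := ⟨m + 1 - b, by omega⟩
    rcases Nat.lt_or_ge p 5 with h5 | h5
    · have hp4 : p = 4 := by omega
      subst hp4
      have h3 : bx B y = 3 := by omega
      have h6 := (hH B y).1 (by rw [c.hb]; omega)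
      rw [c.hb] at h6
      refine (row2 hA hY hS hC hT c hp h6).trans (mul_le_mul_of_nonneg_right ?_ hex)
      have e3 : (b : ℝ) = m - 3 := by
        have : (b : ℝ) + 4 = m + 1 := by exact_mod_cast hp
        linarith
      have e2 : (a : ℝ) = m - 3 := by
        have : a = b := by omega
        rw [this, e3]
      have h7 := (hN m hm).2.2.2.1
      have h8 : (65 : ℝ) / 1000 ≤ 68 / 1000 := by norm_num
      refine ((le_of_eq ?_).trans h7).trans h8
      rw [h3, e2, e3, show (m : ℝ) - 3 + 1 = m - 2 by ring, show ((3 : ℕ) : ℝ) = 3 by norm_num,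
        show (m : ℝ) - 2 - 3 = m - 5 by ring, show (m : ℝ) - 3 - ((m : ℝ) - 3) + 1 = 1 by ring,
        div_one]
    · refine (r2_pow hA hY hT hS hC hH' c h8 hp).trans (mul_le_mul_of_nonneg_right ?_ hex)
      have h2 : bx B y ≤ 2 * p - 5 := by omega
      have h6 := (hN m hm).2.2.2.2 p h5 (by omega)
      refine (mul_le_mul_of_nonneg_left ?_ ?_).trans h6
      · refine (div_le_self (by positivity) ?_).trans ?_
        · have : (b : ℝ) ≤ a := by exact_mod_cast hba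
          linarith
        · exact pow_le_pow_right₀ (by norm_num) h2
      · exact mul_nonneg ((hC m hm).2.2.2.2.2.2.2.2.1 p (by omega)).le (TB_nonneg hm p)

/-- **RVH** -/
theorem blk_RVH (hA : Stmt_WWA) (hY : Stmt_YBND) (hT : Stmt_TTN) (hS : Stmt_BASIC) (hR : Stmt_RANK)
    (hD : Stmt_HD) (hHC : Stmt_HC) (hHA : Stmt_HA) (hC : Stmt_CF) (hN1 : Stmt_NR1) (hN2 : Stmt_NR2)
    (hNL : Stmt_NL2) (hFS : Stmt_NFS) (hF1 : Stmt_NF1) (hF2 : Stmt_NF2) (hE : Stmt_ESUM) :
    Stmt_RVH := by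
  intro m M hm hM B hB X hX ht hXw y hy hyX hs
  have c := mkCx hS hm hM hB hX ht hXw hy hyX hs
  set a := X - M with ha
  set b := y + 1 - M with hb
  have hex := ex_pos B
  have e1 := c.hbX
  have e2 := c.hbY
  have hba := c.hba
  have hb1 := c.hb1
  have ham := c.ham
  have hXa := c.hXa
  have hmr : (16 : ℝ) ≤ m := by exact_mod_cast hm
  have hm0 : (0 : ℝ) < m := by linarith
  rw [split hX ht hy hyX hs]
  have hrest := rest hA hY hT hS hR hD hF1 hE hm hM hB hX ht hXw hy hyX hs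
  unfold Vh
  by_cases h1 : a + 1 = m
  · rw [if_pos h1]
    have r1 := r1_L1 hA hY hT hS hC hHA hN1 c h1
    have r2 := r2_L1 hA hY hT hS hC hHC hD hFS hN2 c h1
    linarith
  rw [if_neg h1]
  by_cases h2 : a + 2 = m
  · rw [if_pos h2]
    have hrest2 := rest2 hA hY hT hS hR hD hF2 hE hm hM hB hX ht (by omega) hy hyX hs
    have hr2m : 13 / 1000 / (m : ℝ) * ex B ≤ 13 / 16000 * ex B := by
      refine mul_le_mul_of_nonneg_right ?_ hex.le
      rw [div_le_iff₀ hm0]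
      linarith
    by_cases h3 : b + 2 = m
    · rw [if_pos h3]
      have r1 := r1_L2a hA hY hT hS hC hHA hN1 c h2 h3
      have r2 := r2_L2a hA hY hT hS hC hHC hN2 c h2 h3
      linarith
    rw [if_neg h3]
    by_cases h4 : b + 3 = m
    · rw [if_pos h4]
      have r1 := r1_L2b hA hY hT hS hC hHA hN1 c h2 h4
      have r2 := r2_L2b hA hY hT hS hC hHA hN2 c h2 h4
      linarith
    rw [if_neg h4]
    obtain ⟨j, hj⟩ : ∃ j, b + j = m - 3 := ⟨m - 3 - b, by omega⟩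
    have hj1 : 1 ≤ j := by omega
    have hbr : (b : ℝ) = (m : ℝ) - 3 - j := by
      have : ((b + j : ℕ) : ℝ) = ((m - 3 : ℕ) : ℝ) := by rw [hj]
      rw [Nat.cast_sub (by omega)] at this
      push_cast at this
      linarith
    have har : (a : ℝ) = (m : ℝ) - 2 := by
      have : (a : ℝ) + 2 = m := by exact_mod_cast h2
      linarith
    rw [show (m : ℝ) - 1 - b = j + 2 by rw [hbr]; ring]
    set w : ℝ := ((m : ℝ) - 1) / (m * ((j : ℝ) + 2)) with hw
    have hj0 : (0 : ℝ) < (j : ℝ) + 2 := by positivity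
    have hm1 : (0 : ℝ) < (m : ℝ) - 1 := by linarith
    have hw0 : 0 < w := by positivity
    obtain ⟨n1, n2, n3, n4⟩ := hNL m j hm hj1 (by omega)
    -- the rest in the unit w
    have hrw : 13 / 1000 / (m : ℝ) = 13 / 1000 * (((j : ℝ) + 2) / ((m : ℝ) - 1)) * w := by
      rw [hw]
      field_simp
    -- row 2 in the unit w
    have hr2 : YR (m - 3) (WR m M) (m + (m - 3) + M - y) (B.erase y) ≤
        (if 8 ≤ b then cB m (j + 4) * TB m (j + 4) * (4 / 3) ^ (j + 2) * (m / ((m : ℝ) - 1))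
          else 2 / 1000 * (((j : ℝ) + 2) / ((m : ℝ) - 1))) * w * ex B := by
      split_ifs with h8
      · refine (r2_pow hA hY hT hS hC hHC c h8 (p := j + 4) (by omega)).trans (le_of_eq ?_)
        have h9 : bx B y = j + 2 := by omega
        have h10 : (a : ℝ) - b + 1 = j + 2 := by rw [har, hbr]; ring
        rw [h9, h10, hw]
        field_simp
      · refine (r2_far2 hA hY hT hS hD hFS c h2 (by omega)).trans (le_of_eq ?_)
        rw [hw]
        field_simp
    -- row 1 in the unit w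
    have hfin : ∀ κ : ℝ, ((j ≤ 8 ∧ κ = ((m : ℝ) - 2) / ((m : ℝ) - 2 - j)) ∨
        (κ = ((m : ℝ) - 2) / m * Real.exp 1)) →
        κ * (ww j + 51 / 50 / ((m : ℝ) - 1)) +
          (if 8 ≤ b then cB m (j + 4) * TB m (j + 4) * (4 / 3) ^ (j + 2) * (m / ((m : ℝ) - 1))
            else 2 / 1000 * (((j : ℝ) + 2) / ((m : ℝ) - 1))) +
          13 / 1000 * (((j : ℝ) + 2) / ((m : ℝ) - 1)) ≤ 22 / 45 →
        YR (m - 3) (WR m M) (m + (m - 3) + M - X) (B.erase X) +
            YR (m - 3) (WR m M) (m + (m - 3) + M - y) (B.erase y) +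
          ∑ x ∈ B.filter (· < y), YR (m - 3) (WR m M) (m + (m - 3) + M - x) (B.erase x) ≤
        22 / 45 * w * ex B := by
      intro κ hκ hle
      have r1 := r1_L2c hA hY hT hS hC hHA c h2 hj1 hj hκ
      rw [← hw] at r1
      rw [hrw] at hrest2
      have h11 := mul_le_mul_of_nonneg_right (mul_le_mul_of_nonneg_right hle hw0.le) hex.le
      refine (add_le_add (add_le_add r1 hr2) hrest2).trans ((le_of_eq ?_).trans h11)
      ring
    rcases Nat.lt_or_ge 8 j with h9 | h9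
    · refine hfin _ (Or.inr rfl) ?_
      split_ifs with h8
      · exact n3 (by omega) (by omega)
      · have := n4 (by omega) (by omega)
        linarith
    · refine hfin _ (Or.inl ⟨h9, rfl⟩) ?_
      split_ifs with h8
      · exact n1 h9 (by omega)
      · have := n2 h9 (by omega)
        linarith
  rw [if_neg h2]
  have r2 := r2_L3 hA hY hT hS hC hHA hHC hD hFS hN2 c (by omega)
  rcases Nat.lt_or_ge a 8 with h8 | h8
  · have r1 := r1_far hA hY hT hS hD hFS c (by omega)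
    linarith
  · by_cases h3 : a + 3 = m
    · have r1 := r1_L3 hA hY hT hS hC hHC hN1 c h3
      linarith
    · have r1 := r1_L4 hA hY hT hS hC hHC hN1 c (by omega) h8
      linarith

end Pool.JM.LR.RV
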