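import Pool.Agent.Work.MP_46fa68_20.AsmDefs
import Pool.Agent.Work.MP_46fa68_56.RVH19

/-!
# MP_46fa68_co: `Stmt_VH` of the assembly from `RVH'`
-/

set_option autoImplicit false

open Finset

namespace Pool.JM.LR

/-- the bound of the lift, `ν = 1/12`: the length of row 1 is `tb B - M`, of row 2
`tb (B.erase (tb B)) + 1 - M` -/
noncomputable def VhB (m M : ℕ) (B : Finset ℕ) : ℝ :=
  12 / 11 * Vh' m (tb B - M) (tb (B.erase (tb B)) + 1 - M)

theorem le_tb {B : Finset ℕ} {x : ℕ} (hx : x ∈ B) : x ≤ tb B := by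
  unfold tb
  exact le_sup (f := id) hx

theorem tb_mem_of {B : Finset ℕ} (h : B.Nonempty) : tb B ∈ B := by
  obtain ⟨x, C, rfl, hC⟩ := exists_top h
  rw [tb_insert hC]
  exact mem_insert_self _ _

theorem VH_of_RVH' (hR : Stmt_RVH') {m : ℕ} (hm : 19 ≤ m) :
    Stmt_VH m (m - 3) (1 / 12) 2 (WR m) (VhB m) := by
  refine ⟨m + (m - 3) + 1, fun M hM B hB hb => ?_⟩
  have hcard := (Lv_spec hB).1
  have hne : B.Nonempty := card_pos.1 (by omega)
  have hX := tb_mem_of hne
  have hne2 : (B.erase (tb B)).Nonempty := card_pos.1 (by rw [card_erase_of_mem hX]; omega)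
  have hy := tb_mem_of hne2
  set X := tb B with hXd
  set y := tb (B.erase X) with hyd
  obtain ⟨hy1, hy2⟩ := mem_erase.1 hy
  have hyX : y < X := lt_of_le_of_ne (le_tb hy2) hy1
  have hXw : X < M + m := by
    have := hb X hX
    omega
  have hs : ∀ z ∈ B, z < X → z ≤ y := fun z hz hzX => le_tb (mem_erase.2 ⟨hzX.ne, hz⟩)
  have key := hR m M hm (by omega) B hB X hX (fun z hz => le_tb hz) hXw y hy2 hyX hs
  -- the lengths of the two rows
  have hyle : y + 1 - M ≤ X - M := by omega
  have hmr : (19 : ℝ) ≤ m := by exact_mod_cast hm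
  constructor
  · unfold VhB
    rw [← hXd, ← hyd]
    have hV : Vh' m (X - M) (y + 1 - M) ≤ 1 := by
      unfold Vh'
      split_ifs with h1 h2 h3 h4 h5
      · norm_num
      · norm_num
      · norm_num
      · have hb3 : y + 1 - M + 4 ≤ m := by omega
        have hb3' : ((y + 1 - M : ℕ) : ℝ) + 4 ≤ m := by exact_mod_cast hb3
        have hd : (3 : ℝ) ≤ (m : ℝ) - 1 - ((y + 1 - M : ℕ) : ℝ) := by linarith
        have h6 : ((m : ℝ) - 1) / (m * ((m : ℝ) - 1 - ((y + 1 - M : ℕ) : ℝ))) ≤ 1 := by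
          rw [div_le_one (by nlinarith)]
          nlinarith
        linarith
      · norm_num
      · norm_num
    linarith
  · refine key.trans (le_of_eq ?_)
    unfold VhB
    rw [← hXd, ← hyd]
    ring

end Pool.JM.LR
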